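import Pool.Agent.Work.BV.Interface
import Pool.Agent.Work.MP_852da8_nt_k_helper53.LS
import Pool.Agent.Work.MP_081200_nt.PV

/-!
# The multiplicative large sieve
-/

set_option autoImplicit false

namespace Pool.Agent.BV

open Finset
open scoped Classical
open Pool.Agent.Work.MP_852da8_nt_six (ee ee_add ee_neg norm_ee ee_congr ee_int)
open Pool.Agent.Work.MP_852da8_nt_k.LS (nd dual_sieve Spaced)

/-- duality -/
lemma duality {ι κ : Type*} (P : Finset ι) (T : Finset κ) (c : ι → κ → ℂ) (D : ℝ) (hD : 0 ≤ D)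
    (h : ∀ W : ι → ℂ, ∑ b ∈ T, ‖∑ x ∈ P, W x * c x b‖ ^ 2 ≤ D * ∑ x ∈ P, ‖W x‖ ^ 2) (v : κ → ℂ) :
    ∑ x ∈ P, ‖∑ b ∈ T, v b * c x b‖ ^ 2 ≤ D * ∑ b ∈ T, ‖v b‖ ^ 2 := by
  set S : ι → ℂ := fun x => ∑ b ∈ T, v b * c x b with hS
  set W : ι → ℂ := fun x => (starRingEnd ℂ) (S x) with hW
  have h1 : ((∑ x ∈ P, ‖S x‖ ^ 2 : ℝ) : ℂ) = ∑ b ∈ T, v b * ∑ x ∈ P, W x * c x b := by
    rw [Complex.ofReal_sum]
    have : ∀ x ∈ P, ((‖S x‖ ^ 2 : ℝ) : ℂ) = ∑ b ∈ T, v b * (W x * c x b) := by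
      intro x _
      push_cast
      rw [← Complex.mul_conj', hW]
      simp only
      rw [hS]
      simp only
      rw [sum_mul]
      refine sum_congr rfl fun b _ => ?_
      ring
    rw [sum_congr rfl this, sum_comm]
    refine sum_congr rfl fun b _ => ?_
    rw [mul_sum]
  have h2 : ∑ x ∈ P, ‖S x‖ ^ 2 ≤ ∑ b ∈ T, ‖v b‖ * ‖∑ x ∈ P, W x * c x b‖ := by
    have e1 : ∑ x ∈ P, ‖S x‖ ^ 2 = ‖((∑ x ∈ P, ‖S x‖ ^ 2 : ℝ) : ℂ)‖ := by
      rw [Complex.norm_real, Real.norm_eq_abs, abs_of_nonneg]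
      positivity
    rw [e1, h1]
    refine (norm_sum_le _ _).trans (sum_le_sum fun b _ => ?_)
    rw [norm_mul]
  have h3 : (∑ b ∈ T, ‖v b‖ * ‖∑ x ∈ P, W x * c x b‖) ^ 2
      ≤ (∑ b ∈ T, ‖v b‖ ^ 2) * ∑ b ∈ T, ‖∑ x ∈ P, W x * c x b‖ ^ 2 :=
    sum_mul_sq_le_sq_mul_sq _ _ _
  have h4 := h W
  have h5 : ∑ x ∈ P, ‖W x‖ ^ 2 = ∑ x ∈ P, ‖S x‖ ^ 2 := by
    refine sum_congr rfl fun x _ => ?_
    rw [hW]
    simp only
    rw [RCLike.norm_conj]
  rw [h5] at h4
  set E := ∑ x ∈ P, ‖S x‖ ^ 2 with hE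
  have hE0 : 0 ≤ E := by positivity
  have hv0 : 0 ≤ ∑ b ∈ T, ‖v b‖ ^ 2 := by positivity
  have h6 : E ^ 2 ≤ (∑ b ∈ T, ‖v b‖ ^ 2) * (D * E) := by
    calc E ^ 2 ≤ (∑ b ∈ T, ‖v b‖ * ‖∑ x ∈ P, W x * c x b‖) ^ 2 := by
          apply pow_le_pow_left₀ hE0 h2
      _ ≤ _ := h3.trans (mul_le_mul_of_nonneg_left h4 hv0)
  rcases hE0.eq_or_lt with h0 | h0
  · rw [← h0]; positivity
  · have : E * E ≤ (D * ∑ b ∈ T, ‖v b‖ ^ 2) * E := by nlinarith
    exact le_of_mul_le_mul_right this h0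

/-- Farey fractions -/
noncomputable def Farey (Q : ℕ) : Finset (ℕ × ℕ) :=
  ((Ioc 0 Q) ×ˢ (range (Q + 1))).filter fun p => p.2 < p.1 ∧ p.2.Coprime p.1

lemma mem_Farey {Q : ℕ} {p : ℕ × ℕ} : p ∈ Farey Q ↔ 0 < p.1 ∧ p.1 ≤ Q ∧ p.2 < p.1 ∧ p.2.Coprime p.1 := by
  unfold Farey
  simp only [mem_filter, mem_product, mem_Ioc, mem_range]
  constructor
  · rintro ⟨⟨⟨h1, h2⟩, _⟩, h3, h4⟩
    exact ⟨h1, h2, h3, h4⟩
  · rintro ⟨h1, h2, h3, h4⟩
    exact ⟨⟨⟨h1, h2⟩, by omega⟩, h3, h4⟩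

lemma farey_spaced (Q : ℕ) (hQ : 0 < Q) :
    Spaced (Farey Q) (fun p : ℕ × ℕ => (p.2 : ℝ) / p.1) (1 / (Q : ℝ) ^ 2) := by
  rintro ⟨r, u⟩ hx ⟨s, v⟩ hy hne
  rw [mem_Farey] at hx hy
  obtain ⟨hr0, hrQ, hur, hcr⟩ := hx
  obtain ⟨hs0, hsQ, hvs, hcs⟩ := hy
  simp only at *
  have hr : (0 : ℝ) < r := by exact_mod_cast hr0
  have hs : (0 : ℝ) < s := by exact_mod_cast hs0
  have hQr : (0 : ℝ) < Q := by exact_mod_cast hQ
  unfold nd
  set k : ℤ := round ((u : ℝ) / r - (v : ℝ) / s) with hk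
  have e1 : (u : ℝ) / r - (v : ℝ) / s - k = (((u * s : ℤ) - v * r - k * r * s : ℤ) : ℝ) / (r * s) := by
    push_cast
    field_simp
  rw [e1, abs_div, abs_of_pos (by positivity : (0 : ℝ) < r * s)]
  have hne0 : ((u * s : ℤ) - v * r - k * r * s : ℤ) ≠ 0 := by
    intro h0
    -- `s ∣ v r`, hence `s ∣ r`; similarly `r ∣ s`
    have h1 : (s : ℤ) ∣ v * r := ⟨u - k * r, by linarith⟩
    have h2 : (r : ℤ) ∣ u * s := ⟨v + k * s, by linarith⟩
    have h1' : s ∣ v * r := by exact_mod_cast h1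
    have h2' : r ∣ u * s := by exact_mod_cast h2
    have h3 : s ∣ r := (Nat.Coprime.dvd_of_dvd_mul_left hcs.symm h1')
    have h4 : r ∣ s := (Nat.Coprime.dvd_of_dvd_mul_left hcr.symm h2')
    have h5 : r = s := Nat.dvd_antisymm h4 h3
    subst h5
    have hrz : (r : ℤ) ≠ 0 := by exact_mod_cast hr0.ne'
    have h6 : (u : ℤ) - v - k * r = 0 := by
      have : (r : ℤ) * ((u : ℤ) - v - k * r) = 0 := by linarith
      rcases mul_eq_zero.mp this with h | h
      · exact absurd h hrz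
      · exact h
    have h7 : k = 0 := by
      have a1 : (u : ℤ) < r := by exact_mod_cast hur
      have a2 : (v : ℤ) < r := by exact_mod_cast hvs
      have a3 : (0 : ℤ) ≤ u := by positivity
      have a4 : (0 : ℤ) ≤ v := by positivity
      have a5 : k * r < r := by linarith
      have a6 : -(r : ℤ) < k * r := by linarith
      have a7 : (0 : ℤ) < r := by exact_mod_cast hr0
      have a8 : k < 1 := by nlinarith
      have a9 : -1 < k := by nlinarith
      omega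
    rw [h7] at h6
    have h8 : u = v := by
      have : (u : ℤ) = v := by linarith
      exact_mod_cast this
    subst h8
    exact hne rfl
  have h1 : (1 : ℝ) ≤ |(((u * s : ℤ) - v * r - k * r * s : ℤ) : ℝ)| := by
    rw [← Int.cast_abs]
    exact_mod_cast Int.one_le_abs hne0
  have h2 : (r : ℝ) * s ≤ (Q : ℝ) ^ 2 := by
    have a1 : (r : ℝ) ≤ Q := by exact_mod_cast hrQ
    have a2 : (s : ℝ) ≤ Q := by exact_mod_cast hsQ
    nlinarith
  calc 1 / (Q : ℝ) ^ 2 ≤ 1 / (r * s) := by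
        apply one_div_le_one_div_of_le (by positivity) h2
    _ ≤ _ := by gcongr

/-- the additive large sieve -/
theorem additive_large_sieve (Q N : ℕ) (a : ℕ → ℂ) :
    ∑ p ∈ Farey Q, ‖∑ n ∈ Ioc 0 N, a n * ee ((n : ℝ) * ((p.2 : ℝ) / p.1))‖ ^ 2
      ≤ 8 * (N + Q ^ 2 : ℝ) * ∑ n ∈ Ioc 0 N, ‖a n‖ ^ 2 := by
  rcases Nat.eq_zero_or_pos Q with rfl | hQ
  · have : Farey 0 = ∅ := by
      ext p
      rw [mem_Farey]
      simp
      intro h1 h2
      omega
    rw [this, sum_empty]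
    positivity
  have hQr : (0 : ℝ) < Q := by exact_mod_cast hQ
  set B : ℕ := N + Q ^ 2 with hB
  have hBr : (B : ℝ) = (N + Q ^ 2 : ℝ) := by rw [hB]; push_cast; ring
  have hsp := farey_spaced Q hQ
  have hdual : ∀ W : ℕ × ℕ → ℂ, ∑ b ∈ Icc 1 B, ‖∑ x ∈ Farey Q, W x *
      ee (-((b : ℝ) * ((x.2 : ℝ) / x.1)))‖ ^ 2 ≤ 8 * B * ∑ x ∈ Farey Q, ‖W x‖ ^ 2 := by
    intro W
    refine dual_sieve (δ := 1 / (Q : ℝ) ^ 2) (by positivity) hsp ?_ W
    rw [one_div_one_div, hBr]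
    have : (0 : ℝ) ≤ N := Nat.cast_nonneg _
    linarith
  have h1 := duality (Farey Q) (Icc 1 B) (fun x b => ee (-((b : ℝ) * ((x.2 : ℝ) / x.1)))) (8 * B)
    (by positivity) hdual (fun n => (starRingEnd ℂ) (if n ≤ N then a n else 0))
  have h2 : ∀ x ∈ Farey Q, ‖∑ b ∈ Icc 1 B, (starRingEnd ℂ) (if b ≤ N then a b else 0) *
      ee (-((b : ℝ) * ((x.2 : ℝ) / x.1)))‖ = ‖∑ n ∈ Ioc 0 N, a n * ee ((n : ℝ) * ((x.2 : ℝ) / x.1))‖ := by
    intro x _
    rw [← RCLike.norm_conj (K := ℂ) (∑ n ∈ Ioc 0 N, a n * ee ((n : ℝ) * ((x.2 : ℝ) / x.1)))]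
    congr 1
    rw [map_sum]
    have hsub : Ioc 0 N ⊆ Icc 1 B := by
      intro n hn
      rw [mem_Ioc] at hn
      rw [mem_Icc]
      constructor
      · omega
      · rw [hB]; have := Nat.zero_le (Q ^ 2); omega
    rw [← sum_subset hsub]
    · refine sum_congr rfl fun n hn => ?_
      rw [mem_Ioc] at hn
      rw [if_pos hn.2, map_mul, ee_neg]
    · intro n hn hn'
      rw [mem_Icc] at hn
      rw [mem_Ioc] at hn'
      rw [if_neg (by omega), map_zero, zero_mul]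
  have h3 : ∑ b ∈ Icc 1 B, ‖(starRingEnd ℂ) (if b ≤ N then a b else 0)‖ ^ 2
      = ∑ n ∈ Ioc 0 N, ‖a n‖ ^ 2 := by
    have hsub : Ioc 0 N ⊆ Icc 1 B := by
      intro n hn
      rw [mem_Ioc] at hn
      rw [mem_Icc]
      constructor
      · omega
      · rw [hB]; have := Nat.zero_le (Q ^ 2); omega
    rw [← sum_subset hsub]
    · refine sum_congr rfl fun n hn => ?_
      rw [mem_Ioc] at hn
      rw [if_pos hn.2, RCLike.norm_conj]
    · intro n hn hn'
      rw [mem_Icc] at hn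
      rw [mem_Ioc] at hn'
      rw [if_neg (by omega)]
      simp
  rw [h3, hBr] at h1
  calc _ = ∑ x ∈ Farey Q, ‖∑ b ∈ Icc 1 B, (starRingEnd ℂ) (if b ≤ N then a b else 0) *
      ee (-((b : ℝ) * ((x.2 : ℝ) / x.1)))‖ ^ 2 := by
        refine sum_congr rfl fun x hx => ?_
        rw [h2 x hx]
    _ ≤ _ := h1

/-- sums over `ZMod r` as sums over `range r` -/
lemma sum_zmod {M : Type*} [AddCommMonoid M] (r : ℕ) [NeZero r] (f : ZMod r → M) :
    ∑ x : ZMod r, f x = ∑ u ∈ range r, f (u : ZMod r) := by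
  symm
  refine sum_bij' (fun u _ => (u : ZMod r)) (fun x _ => x.val) (fun _ _ => mem_univ _)
    (fun x _ => mem_range.mpr (ZMod.val_lt x)) ?_ ?_ ?_
  · intro u hu
    exact ZMod.val_cast_of_lt (mem_range.mp hu)
  · intro x _
    exact ZMod.natCast_zmod_val x
  · intro u _
    rfl

lemma std_eq_ee (r : ℕ) [NeZero r] (j : ℕ) :
    ZMod.stdAddChar (N := r) ((j : ℕ) : ZMod r) = ee ((j : ℝ) / r) := by
  have := ZMod.stdAddChar_coe (N := r) (j : ℤ)
  rw [Int.cast_natCast] at this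
  rw [this]
  unfold ee
  congr 1
  push_cast
  ring

/-- orthogonality in mean square -/
lemma sum_char_sq (r : ℕ) [NeZero r] (S : ZMod r → ℂ) :
    ∑ χ : DirichletCharacter ℂ r, ‖∑ x : ZMod r, χ⁻¹ x * S x‖ ^ 2
      = (r.totient : ℝ) * ∑ x : ZMod r, if IsUnit x then ‖S x‖ ^ 2 else 0 := by
  have h0 : ((∑ χ : DirichletCharacter ℂ r, ‖∑ x : ZMod r, χ⁻¹ x * S x‖ ^ 2 : ℝ) : ℂ)
      = (((r.totient : ℝ) * ∑ x : ZMod r, if IsUnit x then ‖S x‖ ^ 2 else 0 : ℝ) : ℂ) := by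
    push_cast
    have h1 : ∀ χ : DirichletCharacter ℂ r, ((‖∑ x : ZMod r, χ⁻¹ x * S x‖ : ℝ) : ℂ) ^ 2
        = ∑ x : ZMod r, ∑ y : ZMod r, (S x * (starRingEnd ℂ) (S y)) * (χ⁻¹ x * χ y) := by
      intro χ
      rw [← Complex.mul_conj', map_sum, sum_mul_sum]
      refine sum_congr rfl fun x _ => sum_congr rfl fun y _ => ?_
      have : (starRingEnd ℂ) (χ⁻¹ y) = χ y := by
        have := MulChar.star_apply' χ⁻¹ y
        rw [inv_inv] at this
        exact this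
      rw [map_mul, this]
      ring
    simp only [h1]
    rw [sum_comm, mul_sum]
    refine sum_congr rfl fun x _ => ?_
    rw [sum_comm]
    by_cases hx : IsUnit x
    · have h2 : ∀ y : ZMod r, ∑ χ : DirichletCharacter ℂ r,
          (S x * (starRingEnd ℂ) (S y)) * (χ⁻¹ x * χ y)
          = if x = y then (r.totient : ℂ) * (S x * (starRingEnd ℂ) (S y)) else 0 := by
        intro y
        rw [← mul_sum]
        have h3 : ∑ χ : DirichletCharacter ℂ r, (χ⁻¹ x * χ y) = if x = y then (r.totient : ℂ) else 0 := by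
          rw [← DirichletCharacter.sum_char_inv_mul_char_eq ℂ hx y]
          refine sum_congr rfl fun χ _ => ?_
          congr 1
          rw [MulChar.inv_apply]
          congr 1
          obtain ⟨u, rfl⟩ := hx
          rw [Ring.inverse_unit, ← ZMod.inv_coe_unit]
        rw [h3]
        split_ifs
        · ring
        · ring
      simp only [h2]
      rw [sum_ite_eq, if_pos (mem_univ _), if_pos hx, Complex.mul_conj']
      push_cast
      rfl
    · rw [if_neg hx]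
      simp only [Complex.ofReal_zero, mul_zero]
      refine sum_eq_zero fun y _ => sum_eq_zero fun χ _ => ?_
      rw [MulChar.map_nonunit _ hx]
      ring
  exact_mod_cast h0

theorem LS : Stmt_LS := by
  intro Q N a
  refine le_trans ?_ (additive_large_sieve Q N a)
  have hF : ∑ p ∈ Farey Q, ‖∑ n ∈ Ioc 0 N, a n * ee ((n : ℝ) * ((p.2 : ℝ) / p.1))‖ ^ 2
      = ∑ r ∈ Ioc 0 Q, ∑ u ∈ range r, if u.Coprime r then
          ‖∑ n ∈ Ioc 0 N, a n * ee ((n : ℝ) * ((u : ℝ) / r))‖ ^ 2 else 0 := by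
    unfold Farey
    rw [sum_filter, sum_product]
    refine sum_congr rfl fun r hr => ?_
    rw [mem_Ioc] at hr
    have hsub : range r ⊆ range (Q + 1) := by
      intro u hu
      rw [mem_range] at hu ⊢
      omega
    rw [← sum_subset hsub]
    · refine sum_congr rfl fun u hu => ?_
      rw [mem_range] at hu
      simp only [hu, true_and]
    · intro u _ hu
      rw [mem_range] at hu
      rw [if_neg]
      simp only
      tauto
  rw [hF]
  refine sum_le_sum fun r hr => ?_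
  rw [mem_Ioc] at hr
  have : NeZero r := ⟨by omega⟩
  have hr0 : (0 : ℝ) < r := by exact_mod_cast hr.1
  have hφ : (0 : ℝ) < r.totient := by exact_mod_cast Nat.totient_pos.mpr hr.1
  set e := ZMod.stdAddChar (N := r) with he
  set S : ZMod r → ℂ := fun x => ∑ n ∈ Ioc 0 N, a n * e (x * (n : ZMod r)) with hS
  have h1 : ∀ χ ∈ PC r, ‖∑ n ∈ Ioc 0 N, a n * χ n‖ ^ 2 = (1 / r : ℝ) * ‖∑ x : ZMod r, χ⁻¹ x * S x‖ ^ 2 := by
    intro χ hχ
    unfold PC at hχ
    rw [mem_filter] at hχ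
    have hχ' : (χ⁻¹).IsPrimitive := by
      rw [DirichletCharacter.isPrimitive_def, DirichletCharacter.conductor_inv]
      exact hχ.2
    set G := gaussSum χ⁻¹ e with hG
    have hGn : ‖G‖ ^ 2 = r := Pool.Agent.Work.MP_081200_nt.norm_gauss r χ⁻¹ hχ'
    have h1 : ∀ b : ZMod r, χ b * G = ∑ x : ZMod r, χ⁻¹ x * e (x * b) := by
      intro b
      have := gaussSum_mulShift_of_isPrimitive e hχ' b
      rw [inv_inv] at this
      rw [← this]
      unfold gaussSum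
      apply sum_congr rfl
      intro x _
      rw [AddChar.mulShift_apply, mul_comm b x]
    have h2 : (∑ n ∈ Ioc 0 N, a n * χ n) * G = ∑ x : ZMod r, χ⁻¹ x * S x := by
      rw [sum_mul]
      have : ∀ n ∈ Ioc 0 N, a n * χ (n : ZMod r) * G = ∑ x : ZMod r, χ⁻¹ x * (a n * e (x * (n : ZMod r))) := by
        intro n _
        rw [mul_assoc, h1, mul_sum]
        refine sum_congr rfl fun x _ => ?_
        ring
      rw [sum_congr rfl this, sum_comm]
      refine sum_congr rfl fun x _ => ?_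
      rw [hS, mul_sum]
    rw [← h2, norm_mul, mul_pow, hGn]
    field_simp
  rw [sum_congr rfl h1, ← mul_sum, ← mul_assoc]
  have h2 : ∑ χ ∈ PC r, ‖∑ x : ZMod r, χ⁻¹ x * S x‖ ^ 2
      ≤ ∑ χ : DirichletCharacter ℂ r, ‖∑ x : ZMod r, χ⁻¹ x * S x‖ ^ 2 := by
    apply sum_le_sum_of_subset_of_nonneg (subset_univ _)
    intro _ _ _
    positivity
  rw [sum_char_sq] at h2
  calc (r : ℝ) / r.totient * (1 / r) * ∑ χ ∈ PC r, ‖∑ x : ZMod r, χ⁻¹ x * S x‖ ^ 2
      ≤ (r : ℝ) / r.totient * (1 / r) * ((r.totient : ℝ) * ∑ x : ZMod r, if IsUnit x then ‖S x‖ ^ 2 else 0) := by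
        gcongr
    _ = ∑ x : ZMod r, if IsUnit x then ‖S x‖ ^ 2 else 0 := by
        field_simp
    _ = _ := by
        rw [sum_zmod]
        refine sum_congr rfl fun u _ => ?_
        have h3 : IsUnit ((u : ℕ) : ZMod r) ↔ u.Coprime r := ZMod.isUnit_iff_coprime u r
        by_cases hu : u.Coprime r
        · rw [if_pos (h3.mpr hu), if_pos hu]
          congr 2
          refine sum_congr rfl fun n _ => ?_
          rw [← Nat.cast_mul, he, std_eq_ee]
          congr 2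
          push_cast
          ring
        · rw [if_neg (fun h => hu (h3.mp h)), if_neg hu]

end Pool.Agent.BV
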