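import Pool.Agent.Work.BV.Interface

/-! RED: reduction to primitive characters. -/

set_option autoImplicit false

namespace Pool.Agent.BV

open Finset ArithmeticFunction
open scoped Classical

namespace Red

theorem apply_eq (q : ℕ) (χ : DirichletCharacter ℂ q) (n : ℕ) :
    χ n = if n.Coprime (q / χ.conductor) then χ.primitiveCharacter n else 0 := by
  have hdvd : χ.conductor ∣ q := χ.conductor_dvd_level
  have hmul : χ.conductor * (q / χ.conductor) = q := Nat.mul_div_cancel' hdvd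
  by_cases hc : n.Coprime q
  · have h1 : n.Coprime (q / χ.conductor) := hc.coprime_dvd_right (Nat.div_dvd_of_dvd hdvd)
    rw [if_pos h1]
    have h2 : IsCoprime (n : ℤ) (q : ℤ) := Nat.isCoprime_iff_coprime.mpr hc
    have h3 := DirichletCharacter.primitiveCharacter_apply_of_isCoprime χ h2
    simpa using h3.symm
  · have h1 : χ n = 0 := by
      apply MulChar.map_nonunit
      rwa [ZMod.isUnit_iff_coprime]
    rw [h1]
    by_cases h2 : n.Coprime (q / χ.conductor)
    · rw [if_pos h2]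
      symm
      apply MulChar.map_nonunit
      rw [ZMod.isUnit_iff_coprime]
      intro h3
      apply hc
      rw [← hmul]
      exact Nat.Coprime.mul_right h3 h2
    · rw [if_neg h2]

/-- The sum attached to `s`, `r` and a primitive character. -/
noncomputable def G (F : ℕ → ℕ → ℂ) (X s r : ℕ) (χ : DirichletCharacter ℂ r) : ℝ :=
  ‖∑ n ∈ Ioc 0 X, if n.Coprime s then F (r * s) n * χ n else 0‖

theorem norm_err_le (F : ℕ → ℂ) (X q : ℕ) [NeZero q] (a : ZMod q) (ha : IsUnit a) :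
    ‖Err F X q a‖ ≤ (1 / (q.totient : ℝ)) *
      ∑ χ ∈ (univ : Finset (DirichletCharacter ℂ q)).filter (fun χ => χ ≠ 1),
        ‖∑ n ∈ Ioc 0 X, F n * χ n‖ := by
  have hq : 0 < q := Nat.pos_of_ne_zero (NeZero.ne q)
  have hφ : (0 : ℝ) < q.totient := by exact_mod_cast Nat.totient_pos.mpr hq
  have hφc : (q.totient : ℂ) ≠ 0 := by
    have := Nat.totient_pos.mpr hq
    exact_mod_cast this.ne'
  have h1 : ∑ n ∈ (Ioc 0 X).filter (fun n : ℕ => (n : ZMod q) = a), F n
      = (1 / (q.totient : ℂ)) * ∑ χ : DirichletCharacter ℂ q, χ a⁻¹ * ∑ n ∈ Ioc 0 X, F n * χ n := by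
    have h2 : ∀ χ : DirichletCharacter ℂ q, χ a⁻¹ * ∑ n ∈ Ioc 0 X, F n * χ n
        = ∑ n ∈ Ioc 0 X, F n * (χ a⁻¹ * χ n) := by
      intro χ
      rw [mul_sum]
      refine sum_congr rfl fun n _ => ?_
      ring
    rw [sum_congr rfl fun χ _ => h2 χ, sum_comm, sum_filter, mul_sum]
    refine sum_congr rfl fun n _ => ?_
    rw [← mul_sum, DirichletCharacter.sum_char_inv_mul_char_eq ℂ ha (n : ZMod q)]
    by_cases h3 : (n : ZMod q) = a
    · rw [if_pos h3, if_pos h3.symm]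
      field_simp
    · rw [if_neg h3, if_neg fun h => h3 h.symm]
      simp
  have h4 : (1 : DirichletCharacter ℂ q) a⁻¹ * ∑ n ∈ Ioc 0 X, F n * (1 : DirichletCharacter ℂ q) n
      = ∑ n ∈ (Ioc 0 X).filter (fun n : ℕ => n.Coprime q), F n := by
    have h5 : IsUnit a⁻¹ := by
      have h6 := ZMod.inv_mul_of_unit a ha
      exact IsUnit.of_mul_eq_one _ h6
    rw [MulChar.one_apply h5, one_mul, sum_filter]
    refine sum_congr rfl fun n _ => ?_
    by_cases h6 : n.Coprime q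
    · rw [if_pos h6, MulChar.one_apply ((ZMod.isUnit_iff_coprime n q).mpr h6), mul_one]
    · rw [if_neg h6, MulChar.map_nonunit _ (fun h => h6 ((ZMod.isUnit_iff_coprime n q).mp h)), mul_zero]
  have h5 : Err F X q a = (1 / (q.totient : ℂ)) *
      ∑ χ ∈ (univ : Finset (DirichletCharacter ℂ q)).filter (fun χ => χ ≠ 1),
        χ a⁻¹ * ∑ n ∈ Ioc 0 X, F n * χ n := by
    unfold Err
    rw [h1, ← h4, ← mul_sub]
    congr 1
    rw [← sum_filter_add_sum_filter_not univ (fun χ : DirichletCharacter ℂ q => χ ≠ 1)]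
    have h6 : (univ : Finset (DirichletCharacter ℂ q)).filter (fun χ => ¬ χ ≠ 1) = {1} := by
      ext χ
      simp
    rw [h6, sum_singleton]
    ring
  rw [h5, norm_mul]
  have h6 : ‖(1 / (q.totient : ℂ) : ℂ)‖ = 1 / (q.totient : ℝ) := by
    rw [norm_div, norm_one, Complex.norm_natCast]
  rw [h6]
  gcongr
  refine norm_sum_le_of_le _ fun χ _ => ?_
  rw [norm_mul]
  calc ‖χ a⁻¹‖ * ‖∑ n ∈ Ioc 0 X, F n * χ n‖ ≤ 1 * ‖∑ n ∈ Ioc 0 X, F n * χ n‖ := by
        gcongr
        exact χ.norm_le_one _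
    _ = _ := one_mul _

theorem sum_char_le (F : ℕ → ℕ → ℂ) (X q : ℕ) [NeZero q] :
    ∑ χ ∈ (univ : Finset (DirichletCharacter ℂ q)).filter (fun χ => χ ≠ 1),
        ‖∑ n ∈ Ioc 0 X, F q n * χ n‖
      ≤ ∑ r ∈ q.divisors.filter (fun r => 1 < r), ∑ χ ∈ PC r, G F X (q / r) r χ := by
  have hq : 0 < q := Nat.pos_of_ne_zero (NeZero.ne q)
  let ι : DirichletCharacter ℂ q → (Σ r : ℕ, DirichletCharacter ℂ r) :=
    fun χ => ⟨χ.conductor, χ.primitiveCharacter⟩
  have hinj : Function.Injective ι := by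
    let L : (Σ r : ℕ, DirichletCharacter ℂ r) → DirichletCharacter ℂ q :=
      fun x => if h : x.1 ∣ q then DirichletCharacter.changeLevel h x.2 else 1
    have hL : Function.LeftInverse L ι := by
      intro χ
      have h1 : χ.conductor ∣ q := χ.conductor_dvd_level
      show (if h : χ.conductor ∣ q then DirichletCharacter.changeLevel h χ.primitiveCharacter else 1) = χ
      rw [dif_pos h1]
      exact χ.changeLevel_primitiveCharacter
    exact hL.injective
  rw [sum_sigma' (q.divisors.filter (fun r => 1 < r)) (fun r => PC r) (fun r χ => G F X (q / r) r χ)]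
  have h1 : ∑ χ ∈ (univ : Finset (DirichletCharacter ℂ q)).filter (fun χ => χ ≠ 1),
        ‖∑ n ∈ Ioc 0 X, F q n * χ n‖
      = ∑ x ∈ ((univ : Finset (DirichletCharacter ℂ q)).filter (fun χ => χ ≠ 1)).image ι,
        G F X (q / x.1) x.1 x.2 := by
    rw [sum_image fun _ _ _ _ h => hinj h]
    refine sum_congr rfl fun χ _ => ?_
    show ‖∑ n ∈ Ioc 0 X, F q n * χ n‖
      = ‖∑ n ∈ Ioc 0 X, if n.Coprime (q / χ.conductor) then
          F (χ.conductor * (q / χ.conductor)) n * χ.primitiveCharacter n else 0‖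
    rw [Nat.mul_div_cancel' χ.conductor_dvd_level]
    congr 1
    refine sum_congr rfl fun n _ => ?_
    rw [apply_eq q χ n]
    split_ifs
    · rfl
    · rw [mul_zero]
  rw [h1]
  refine sum_le_sum_of_subset_of_nonneg ?_ fun _ _ _ => norm_nonneg _
  intro x hx
  rw [mem_image] at hx
  obtain ⟨χ, hχ, rfl⟩ := hx
  rw [mem_filter] at hχ
  rw [mem_sigma, mem_filter, Nat.mem_divisors]
  refine ⟨⟨⟨χ.conductor_dvd_level, hq.ne'⟩, ?_⟩, ?_⟩
  · have h2 := χ.conductor_ne_zero
    have h3 : χ.conductor ≠ 1 := fun h => hχ.2 (χ.eq_one_iff_conductor_eq_one.mpr h)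
    show 1 < χ.conductor
    omega
  · rw [PC, mem_filter]
    exact ⟨mem_univ _, χ.primitiveCharacter_isPrimitive⟩

end Red

open Red in
theorem stmt_RED : Stmt_RED := by
  intro Q X F a ha
  have hGnn : ∀ s r (χ : DirichletCharacter ℂ r), 0 ≤ G F X s r χ := fun s r χ => norm_nonneg _
  let H : ℕ → ℕ → ℝ := fun s r => (1 / (s.totient : ℝ)) * ((1 / (r.totient : ℝ)) * ∑ χ ∈ PC r, G F X s r χ)
  have hHnn : ∀ s r, 0 ≤ H s r := fun s r =>
    mul_nonneg (by positivity) (mul_nonneg (by positivity) (sum_nonneg fun χ _ => hGnn s r χ))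
  have h1 : ∀ q ∈ Ioc 0 Q, ‖Err (F q) X q (a q)‖
      ≤ ∑ r ∈ q.divisors.filter (fun r => 1 < r), H (q / r) r := by
    intro q hq
    rw [mem_Ioc] at hq
    haveI : NeZero q := ⟨by omega⟩
    refine (norm_err_le (F q) X q (a q) (ha q)).trans ?_
    have hφ : (0 : ℝ) < q.totient := by exact_mod_cast Nat.totient_pos.mpr hq.1
    refine (mul_le_mul_of_nonneg_left (sum_char_le F X q) (by positivity)).trans ?_
    rw [mul_sum]
    refine sum_le_sum fun r hr => ?_
    rw [mem_filter, Nat.mem_divisors] at hr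
    have hr0 : 0 < r := by omega
    have hs0 : 0 < q / r := Nat.div_pos (Nat.le_of_dvd hq.1 hr.1.1) hr0
    show (1 / (q.totient : ℝ)) * _ ≤ (1 / ((q / r).totient : ℝ)) * ((1 / (r.totient : ℝ)) * _)
    rw [← mul_assoc]
    refine mul_le_mul_of_nonneg_right ?_ (sum_nonneg fun χ _ => hGnn _ r χ)
    have h2 := Nat.totient_super_multiplicative (q / r) r
    rw [Nat.div_mul_cancel hr.1.1] at h2
    have h3 : ((q / r).totient : ℝ) * r.totient ≤ q.totient := by exact_mod_cast h2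
    have h4 : (0 : ℝ) < (q / r).totient := by exact_mod_cast Nat.totient_pos.mpr hs0
    have h5 : (0 : ℝ) < r.totient := by exact_mod_cast Nat.totient_pos.mpr hr0
    rw [one_div_mul_one_div]
    exact one_div_le_one_div_of_le (by positivity) h3
  refine (sum_le_sum h1).trans ?_
  have h2 : ∑ s ∈ Ioc 0 Q, (1 / (s.totient : ℝ)) * ∑ r ∈ Ioc 1 Q, (1 / (r.totient : ℝ)) * ∑ χ ∈ PC r,
        ‖∑ n ∈ Ioc 0 X, if n.Coprime s then F (r * s) n * χ n else 0‖
      = ∑ x ∈ Ioc 0 Q ×ˢ Ioc 1 Q, H x.1 x.2 := by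
    rw [sum_product]
    refine sum_congr rfl fun s _ => ?_
    rw [mul_sum]
    rfl
  rw [h2, sum_sigma' (Ioc 0 Q) (fun q => q.divisors.filter (fun r => 1 < r)) (fun q r => H (q / r) r)]
  let j : (Σ _ : ℕ, ℕ) → ℕ × ℕ := fun x => (x.1 / x.2, x.2)
  have hj : Set.InjOn j ((Ioc 0 Q).sigma fun q => q.divisors.filter (fun r => 1 < r)) := by
    rintro ⟨q, r⟩ hx ⟨q', r'⟩ hx' h
    rw [mem_coe, mem_sigma, mem_filter, Nat.mem_divisors] at hx hx'
    have h3 : q / r = q' / r' := congrArg Prod.fst h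
    have h4 : r = r' := congrArg Prod.snd h
    subst h4
    have h5 : q = q' := by
      have h6 := Nat.div_mul_cancel hx.2.1.1
      have h7 := Nat.div_mul_cancel hx'.2.1.1
      simp only at h6 h7
      rw [← h6, ← h7, h3]
    subst h5
    rfl
  have h3 : ∑ x ∈ (Ioc 0 Q).sigma (fun q => q.divisors.filter (fun r => 1 < r)), H (x.1 / x.2) x.2
      = ∑ y ∈ ((Ioc 0 Q).sigma (fun q => q.divisors.filter (fun r => 1 < r))).image j, H y.1 y.2 := by
    rw [sum_image hj]
  rw [h3]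
  refine sum_le_sum_of_subset_of_nonneg ?_ fun _ _ _ => hHnn _ _
  intro y hy
  rw [mem_image] at hy
  obtain ⟨⟨q, r⟩, hx, rfl⟩ := hy
  rw [mem_sigma, mem_filter, Nat.mem_divisors, mem_Ioc] at hx
  simp only at hx
  obtain ⟨⟨hq0, hqQ⟩, ⟨hrq, _⟩, hr1⟩ := hx
  rw [mem_product, mem_Ioc, mem_Ioc]
  have hrle := Nat.le_of_dvd hq0 hrq
  have hr0 : 0 < r := lt_trans Nat.zero_lt_one hr1
  exact ⟨⟨Nat.div_pos hrle hr0, (Nat.div_le_self q r).trans hqQ⟩, hr1, hrle.trans hqQ⟩

end Pool.Agent.BV
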