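import Mathlib

/-!
# Bombieri–Vinogradov: definitions and block statements

`PC r`        : primitive characters modulo `r`
`Err f X q a` : error term of `f` restricted to `(0, X]` in the residue class `a mod q`
-/

set_option autoImplicit false

namespace Pool.Agent.BV

open Finset ArithmeticFunction
open scoped Classical

/-- The primitive Dirichlet characters modulo `r`. -/
noncomputable def PC (r : ℕ) : Finset (DirichletCharacter ℂ r) :=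
  univ.filter fun χ => χ.IsPrimitive

/-- The error term in the residue class `a` modulo `q` (comparison with the mean over the reduced
residue classes). -/
noncomputable def Err (f : ℕ → ℂ) (X q : ℕ) (a : ZMod q) : ℂ :=
  ∑ n ∈ (Ioc 0 X).filter (fun n : ℕ => (n : ZMod q) = a), f n
    - (1 / (q.totient : ℂ)) * ∑ n ∈ (Ioc 0 X).filter (fun n : ℕ => n.Coprime q), f n

/-- LS: the multiplicative large sieve. -/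
def Stmt_LS : Prop := ∀ (Q N : ℕ) (a : ℕ → ℂ),
  ∑ r ∈ Ioc 0 Q, ((r : ℝ) / r.totient) * ∑ χ ∈ PC r, ‖∑ n ∈ Ioc 0 N, a n * χ n‖ ^ 2
    ≤ 8 * (N + Q ^ 2 : ℝ) * ∑ n ∈ Ioc 0 N, ‖a n‖ ^ 2

/-- SEP: separation of the variables `m`, `n` in the condition `m * n ≤ y`. -/
def Stmt_SEP : Prop := ∃ C : ℝ, 0 < C ∧ ∀ (X : ℕ), 2 ≤ X → ∀ {ι : Type} (P : Finset ι)
  (y : ι → ℕ) (S T : Finset ℕ), (∀ m ∈ S, 1 ≤ m) → (∀ n ∈ T, 1 ≤ n) →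
  (∀ m ∈ S, ∀ n ∈ T, m * n ≤ X) → ∀ (α β : ι → ℕ → ℂ) (K : ℝ),
  (∀ g : ℕ → ℂ, (∀ n, ‖g n‖ ≤ 1) →
    ∑ x ∈ P, ‖∑ m ∈ S, α x m * g m‖ * ‖∑ n ∈ T, β x n * g n‖ ≤ K) →
  ∑ x ∈ P, ‖∑ m ∈ S, ∑ n ∈ T, (if m * n ≤ y x then α x m * β x n else 0)‖
    ≤ C * Real.log X * K

/-- BIL: the bilinear large sieve with maximum over the cut. -/
def Stmt_BIL : Prop := ∃ C : ℝ, 0 < C ∧ ∀ (Q M N X : ℕ), 2 ≤ X → M * N ≤ X →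
  ∀ (a b : ℕ → ℂ) (y : (r : ℕ) → DirichletCharacter ℂ r → ℕ),
  ∑ r ∈ Ioc 0 Q, ((r : ℝ) / r.totient) * ∑ χ ∈ PC r,
      ‖∑ m ∈ Ioc 0 M, ∑ n ∈ Ioc 0 N,
        (if m * n ≤ y r χ then a m * b n * χ ((m * n : ℕ) : ZMod r) else 0)‖
    ≤ C * Real.log X * √((M + Q ^ 2 : ℝ) * (N + Q ^ 2)) *
      (√(∑ m ∈ Ioc 0 M, ‖a m‖ ^ 2) * √(∑ n ∈ Ioc 0 N, ‖b n‖ ^ 2))

/-- BIL2: the same, conductors in `(R, Q]`, with weight `1 / φ(r)`. -/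
def Stmt_BIL2 : Prop := ∃ C : ℝ, 0 < C ∧ ∀ (R Q M N X : ℕ), 2 ≤ X → M * N ≤ X → 1 ≤ R → Q ≤ X →
  ∀ (a b : ℕ → ℂ) (y : (r : ℕ) → DirichletCharacter ℂ r → ℕ),
  ∑ r ∈ Ioc R Q, (1 / (r.totient : ℝ)) * ∑ χ ∈ PC r,
      ‖∑ m ∈ Ioc 0 M, ∑ n ∈ Ioc 0 N,
        (if m * n ≤ y r χ then a m * b n * χ ((m * n : ℕ) : ZMod r) else 0)‖
    ≤ C * (Real.log X) ^ 2 * (√(M * N : ℝ) / R + √(M : ℝ) + √(N : ℝ) + Q) *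
      (√(∑ m ∈ Ioc 0 M, ‖a m‖ ^ 2) * √(∑ n ∈ Ioc 0 N, ‖b n‖ ^ 2))

/-- T2: type II sums over the whole hyperbola region, conductors in `(R, Q]`. The coefficients
`a`, `b` live on `m > V`, `n > U` and have mean squares at most `L`. -/
def Stmt_T2 : Prop := ∃ C : ℝ, 0 < C ∧ ∀ (R Q U V X : ℕ), 2 ≤ X → 1 ≤ R → Q ≤ X → 1 ≤ U → 1 ≤ V →
  ∀ (L : ℝ), 0 ≤ L → ∀ (a b : ℕ → ℂ), (∀ m ≤ V, a m = 0) → (∀ n ≤ U, b n = 0) →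
  (∀ M ≤ X, ∑ m ∈ Ioc 0 M, ‖a m‖ ^ 2 ≤ L * M) → (∀ N ≤ X, ∑ n ∈ Ioc 0 N, ‖b n‖ ^ 2 ≤ L * N) →
  ∀ (y : (r : ℕ) → DirichletCharacter ℂ r → ℕ), (∀ r χ, y r χ ≤ X) →
  ∑ r ∈ Ioc R Q, (1 / (r.totient : ℝ)) * ∑ χ ∈ PC r,
      ‖∑ m ∈ Ioc 0 X, ∑ n ∈ Ioc 0 X,
        (if m * n ≤ y r χ then a m * b n * χ ((m * n : ℕ) : ZMod r) else 0)‖
    ≤ C * L * (Real.log X) ^ 3 * (X / R + X / √(U : ℝ) + X / √(V : ℝ) + Q * √(X : ℝ))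

/-- RED: reduction to primitive characters. -/
def Stmt_RED : Prop := ∀ (Q X : ℕ) (F : ℕ → ℕ → ℂ) (a : (q : ℕ) → ZMod q), (∀ q, IsUnit (a q)) →
  ∑ q ∈ Ioc 0 Q, ‖Err (F q) X q (a q)‖
    ≤ ∑ s ∈ Ioc 0 Q, (1 / (s.totient : ℝ)) * ∑ r ∈ Ioc 1 Q, (1 / (r.totient : ℝ)) * ∑ χ ∈ PC r,
        ‖∑ n ∈ Ioc 0 X, if n.Coprime s then F (r * s) n * χ n else 0‖

/-- PHI: the sum of `1 / φ`. -/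
def Stmt_PHI : Prop := ∃ C : ℝ, 0 < C ∧ ∀ X : ℕ, 2 ≤ X →
  ∑ s ∈ Ioc 0 X, 1 / (s.totient : ℝ) ≤ C * Real.log X

/-- SM: Siegel–Walfisz for small conductors, all lengths `y ≤ X` and coprimality conditions. -/
def Stmt_SM : Prop := ∀ A B : ℕ, ∃ C : ℝ, 0 < C ∧ ∀ X : ℕ, 2 ≤ X → ∀ r : ℕ, 1 < r →
  (r : ℝ) ≤ (Real.log X) ^ B → ∀ χ ∈ PC r, ∀ s : ℕ, 1 ≤ s → s ≤ X → ∀ y ≤ X,
    ‖∑ n ∈ Ioc 0 y, (if n.Coprime s then (Λ n : ℂ) * χ n else 0)‖ ≤ C * (X / (Real.log X) ^ A)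

/-- T1: the mean value theorem for `ψ(y, χ)`, conductors in `(R, Q]` (Vaughan's identity,
Pólya–Vinogradov and T2). -/
def Stmt_MV : Prop := ∃ C : ℝ, 0 < C ∧ ∀ (R Q X : ℕ), 2 ≤ X → 1 ≤ R → Q ≤ X →
  ∀ (y : (r : ℕ) → DirichletCharacter ℂ r → ℕ), (∀ r χ, y r χ ≤ X) →
  ∑ r ∈ Ioc R Q, (1 / (r.totient : ℝ)) * ∑ χ ∈ PC r, ‖∑ n ∈ Ioc 0 (y r χ), (Λ n : ℂ) * χ n‖
    ≤ C * (Real.log X) ^ 8 * (X / R + (X : ℝ) ^ (19 / 20 : ℝ) + (X : ℝ) ^ (1 / 5 : ℝ) * (Q : ℝ) ^ (3 / 2 : ℝ)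
      + Q * √(X : ℝ))

/-- BV for `Λ` against the mean over reduced classes. -/
def Stmt_BVL : Prop := ∀ A : ℕ, ∃ (B : ℕ) (C : ℝ), 0 < C ∧ ∀ X : ℕ, 2 ≤ X → ∀ Q : ℕ,
  (Q : ℝ) ≤ √(X : ℝ) / (Real.log X) ^ B → ∀ (y : ℕ → ℕ), (∀ q, y q ≤ X) →
  ∀ (a : (q : ℕ) → ZMod q), (∀ q, IsUnit (a q)) →
  ∑ q ∈ Ioc 0 Q, ‖Err (fun n => (Λ n : ℂ)) (y q) q (a q)‖ ≤ C * (X / (Real.log X) ^ A)

/-- **Bombieri–Vinogradov** for `ψ`. -/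
def Stmt_BV : Prop := ∀ A : ℕ, ∃ (B : ℕ) (C : ℝ), 0 < C ∧ ∀ X : ℝ, 2 ≤ X → ∀ Q : ℕ,
  (Q : ℝ) ≤ √X / (Real.log X) ^ B → ∀ (y : ℕ → ℝ), (∀ q, 0 ≤ y q ∧ y q ≤ X) →
  ∀ (a : (q : ℕ) → ZMod q), (∀ q, IsUnit (a q)) →
  ∑ q ∈ Ioc 0 Q, |∑ n ∈ (Ioc 0 ⌊y q⌋₊).filter (fun n : ℕ => (n : ZMod q) = a q), Λ n
      - y q / (q.totient : ℝ)| ≤ C * (X / (Real.log X) ^ A)

/-- **Bombieri–Vinogradov** for primes, compared with `π(y)/φ(q)`. -/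
def Stmt_BVP : Prop := ∀ A : ℕ, ∃ (B : ℕ) (C : ℝ), 0 < C ∧ ∀ X : ℝ, 2 ≤ X → ∀ Q : ℕ,
  (Q : ℝ) ≤ √X / (Real.log X) ^ B → ∀ (y : ℕ → ℕ), (∀ q, (y q : ℝ) ≤ X) →
  ∀ (a : (q : ℕ) → ZMod q), (∀ q, IsUnit (a q)) →
  ∑ q ∈ Ioc 0 Q, |((((Ioc 0 (y q)).filter (fun n : ℕ => n.Prime ∧ (n : ZMod q) = a q)).card : ℝ)
      - (((Ioc 0 (y q)).filter Nat.Prime).card : ℝ) / (q.totient : ℝ))|
    ≤ C * (X / (Real.log X) ^ A)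

/-- The same with weights `τ(q)^k`, for the sieve. -/
def Stmt_BVW : Prop := ∀ A k : ℕ, ∃ (B : ℕ) (C : ℝ), 0 < C ∧ ∀ X : ℝ, 2 ≤ X → ∀ Q : ℕ,
  (Q : ℝ) ≤ √X / (Real.log X) ^ B → ∀ (y : ℕ → ℕ), (∀ q, (y q : ℝ) ≤ X) →
  ∀ (a : (q : ℕ) → ZMod q), (∀ q, IsUnit (a q)) →
  ∑ q ∈ Ioc 0 Q, (q.divisors.card : ℝ) ^ k *
      |((((Ioc 0 (y q)).filter (fun n : ℕ => n.Prime ∧ (n : ZMod q) = a q)).card : ℝ)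
      - (((Ioc 0 (y q)).filter Nat.Prime).card : ℝ) / (q.totient : ℝ))|
    ≤ C * (X / (Real.log X) ^ A)

/-- The bilinear Bombieri–Vinogradov theorem: `α` on `m > V`, `β` on `n > U`, `U, V` larger than a
power of `log X`, mean squares at most `(log X)^k`, and `β` satisfies the Siegel–Walfisz condition
with constants `K A`. -/
def Stmt_BVB : Prop := ∀ (A k : ℕ), ∃ (B D E : ℕ), ∀ K : ℝ, 0 < K → ∃ C : ℝ, 0 < C ∧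
  ∀ (X : ℕ), 3 ≤ X → ∀ (Q U V : ℕ), (Q : ℝ) ≤ √(X : ℝ) / (Real.log X) ^ B →
  (Real.log X) ^ B ≤ U → (Real.log X) ^ B ≤ V → 1 ≤ U → 1 ≤ V →
  ∀ (α β : ℕ → ℂ), (∀ m ≤ V, α m = 0) → (∀ n ≤ U, β n = 0) →
  (∀ M ≤ X, ∑ m ∈ Ioc 0 M, ‖α m‖ ^ 2 ≤ (Real.log X) ^ k * M) →
  (∀ N ≤ X, ∑ n ∈ Ioc 0 N, ‖β n‖ ^ 2 ≤ (Real.log X) ^ k * N) →
  (∀ r : ℕ, 1 < r → (r : ℝ) ≤ (Real.log X) ^ D → ∀ χ ∈ PC r, ∀ s : ℕ, 1 ≤ s → s ≤ X →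
    ∀ z ≤ X / V, ‖∑ n ∈ Ioc 0 z, (if n.Coprime s then β n * χ n else 0)‖
      ≤ K * (z / (Real.log X) ^ E)) →
  ∀ (y : ℕ → ℕ), (∀ q, y q ≤ X) → ∀ (a : (q : ℕ) → ZMod q), (∀ q, IsUnit (a q)) →
  ∑ q ∈ Ioc 0 Q, ‖Err (fun l => ∑ x ∈ l.divisorsAntidiagonal, α x.1 * β x.2) (y q) q (a q)‖
    ≤ C * (X / (Real.log X) ^ A)

end Pool.Agent.BV
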