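import Mathlib
import Pool.Agent.Work.BV.Interface

/-!
# Block BIL: the bilinear large sieve with maximum over the cut
-/

set_option autoImplicit false

namespace Pool.Agent.BV

open Finset ArithmeticFunction
open scoped Classical

/-- The Cauchy–Schwarz step. -/
lemma bil_cs (hLS : Stmt_LS) (Q M N : ℕ) (a b g : ℕ → ℂ) (hg : ∀ n, ‖g n‖ ≤ 1) :
    ∑ x ∈ (Ioc 0 Q).sigma (fun r => PC r), (((x.1 : ℝ) / x.1.totient) *
      ‖∑ m ∈ Ioc 0 M, a m * x.2 m * g m‖ * ‖∑ n ∈ Ioc 0 N, b n * x.2 n * g n‖) ≤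
      8 * √((M + Q ^ 2 : ℝ) * (N + Q ^ 2)) *
        (√(∑ m ∈ Ioc 0 M, ‖a m‖ ^ 2) * √(∑ n ∈ Ioc 0 N, ‖b n‖ ^ 2)) := by
  have hw : ∀ r : ℕ, 0 ≤ (r : ℝ) / r.totient := fun r => by positivity
  have key : ∀ (M : ℕ) (a : ℕ → ℂ), ∑ x ∈ (Ioc 0 Q).sigma (fun r => PC r),
      (√((x.1 : ℝ) / x.1.totient) * ‖∑ m ∈ Ioc 0 M, a m * x.2 m * g m‖) ^ 2 ≤
      8 * (M + Q ^ 2 : ℝ) * ∑ m ∈ Ioc 0 M, ‖a m‖ ^ 2 := by
    intro M a
    have h := hLS Q M (fun m => a m * g m)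
    have h1 : ∑ x ∈ (Ioc 0 Q).sigma (fun r => PC r),
      (√((x.1 : ℝ) / x.1.totient) * ‖∑ m ∈ Ioc 0 M, a m * x.2 m * g m‖) ^ 2 =
      ∑ r ∈ Ioc 0 Q, ((r : ℝ) / r.totient) * ∑ χ ∈ PC r,
        ‖∑ n ∈ Ioc 0 M, a n * g n * χ n‖ ^ 2 := by
      rw [Finset.sum_sigma]
      refine Finset.sum_congr rfl fun r _ => ?_
      rw [Finset.mul_sum]
      refine Finset.sum_congr rfl fun χ _ => ?_
      rw [mul_pow, Real.sq_sqrt (hw r)]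
      congr 3
      refine Finset.sum_congr rfl fun m _ => ?_
      ring
    rw [h1]
    refine h.trans ?_
    refine mul_le_mul_of_nonneg_left (Finset.sum_le_sum fun m _ => ?_) (by positivity)
    rw [norm_mul, mul_pow]
    have h2 : ‖g m‖ ^ 2 ≤ 1 := pow_le_one₀ (norm_nonneg _) (hg m)
    nlinarith [sq_nonneg ‖a m‖]
  have e : ∀ x ∈ (Ioc 0 Q).sigma (fun r => PC r), ((x.1 : ℝ) / x.1.totient) *
      ‖∑ m ∈ Ioc 0 M, a m * x.2 m * g m‖ * ‖∑ n ∈ Ioc 0 N, b n * x.2 n * g n‖ =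
      (√((x.1 : ℝ) / x.1.totient) * ‖∑ m ∈ Ioc 0 M, a m * x.2 m * g m‖) *
      (√((x.1 : ℝ) / x.1.totient) * ‖∑ m ∈ Ioc 0 N, b m * x.2 m * g m‖) := by
    intro x _
    have := Real.mul_self_sqrt (hw x.1)
    linear_combination (-(‖∑ m ∈ Ioc 0 M, a m * x.2 m * g m‖ *
      ‖∑ m ∈ Ioc 0 N, b m * x.2 m * g m‖)) * this
  rw [Finset.sum_congr rfl e]
  refine (Real.sum_mul_le_sqrt_mul_sqrt _ _ _).trans ?_
  have hA := Real.sqrt_le_sqrt (key M a)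
  have hB := Real.sqrt_le_sqrt (key N b)
  have h3 : √(8 * (M + Q ^ 2 : ℝ) * ∑ m ∈ Ioc 0 M, ‖a m‖ ^ 2) *
      √(8 * (N + Q ^ 2 : ℝ) * ∑ m ∈ Ioc 0 N, ‖b m‖ ^ 2) =
      8 * √((M + Q ^ 2 : ℝ) * (N + Q ^ 2)) *
        (√(∑ m ∈ Ioc 0 M, ‖a m‖ ^ 2) * √(∑ n ∈ Ioc 0 N, ‖b n‖ ^ 2)) := by
    rw [Real.sqrt_mul (by positivity), Real.sqrt_mul (by positivity),
      Real.sqrt_mul (by positivity : (0:ℝ) ≤ 8 * (N + Q ^ 2 : ℝ)),
      Real.sqrt_mul (by norm_num : (0:ℝ) ≤ 8), Real.sqrt_mul (by positivity : (0:ℝ) ≤ (M + Q ^ 2 : ℝ))]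
    have := Real.mul_self_sqrt (show (0:ℝ) ≤ 8 by norm_num)
    linear_combination (√(M + Q ^ 2 : ℝ) * √(N + Q ^ 2 : ℝ) *
      (√(∑ m ∈ Ioc 0 M, ‖a m‖ ^ 2) * √(∑ n ∈ Ioc 0 N, ‖b n‖ ^ 2))) * this
  rw [← h3]
  exact mul_le_mul hA hB (Real.sqrt_nonneg _) (Real.sqrt_nonneg _)

theorem BIL (hSEP : Stmt_SEP) (hLS : Stmt_LS) : Stmt_BIL := by
  obtain ⟨C, hC, H⟩ := hSEP
  refine ⟨8 * C, by positivity, ?_⟩
  intro Q M N X hX hMN a b y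
  have h := H X hX (ι := (r : ℕ) × DirichletCharacter ℂ r) ((Ioc 0 Q).sigma (fun r => PC r))
    (fun x => y x.1 x.2) (Ioc 0 M) (Ioc 0 N)
    (fun m hm => (Finset.mem_Ioc.mp hm).1) (fun m hm => (Finset.mem_Ioc.mp hm).1)
    (fun m hm n hn => (Nat.mul_le_mul (Finset.mem_Ioc.mp hm).2 (Finset.mem_Ioc.mp hn).2).trans hMN)
    (fun x m => ((((x.1 : ℝ) / x.1.totient : ℝ)) : ℂ) * (a m * x.2 m)) (fun x n => b n * x.2 n)
    (8 * √((M + Q ^ 2 : ℝ) * (N + Q ^ 2)) *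
        (√(∑ m ∈ Ioc 0 M, ‖a m‖ ^ 2) * √(∑ n ∈ Ioc 0 N, ‖b n‖ ^ 2))) ?_
  · rw [Finset.sum_sigma] at h
    refine le_trans (le_of_eq ?_) (h.trans (le_of_eq (by ring)))
    refine Finset.sum_congr rfl fun r _ => ?_
    rw [Finset.mul_sum]
    refine Finset.sum_congr rfl fun χ _ => ?_
    have hw : 0 ≤ (r : ℝ) / r.totient := by positivity
    have e : ∑ m ∈ Ioc 0 M, ∑ n ∈ Ioc 0 N, (if m * n ≤ y r χ then
        ((((r : ℝ) / r.totient : ℝ)) : ℂ) * (a m * χ m) * (b n * χ n) else 0) =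
        ((((r : ℝ) / r.totient : ℝ)) : ℂ) * ∑ m ∈ Ioc 0 M, ∑ n ∈ Ioc 0 N,
        (if m * n ≤ y r χ then a m * b n * χ ((m * n : ℕ) : ZMod r) else 0) := by
      rw [Finset.mul_sum]
      refine Finset.sum_congr rfl fun m _ => ?_
      rw [Finset.mul_sum]
      refine Finset.sum_congr rfl fun n _ => ?_
      split_ifs
      · rw [Nat.cast_mul, map_mul]; ring
      · simp
    show _ = ‖∑ m ∈ Ioc 0 M, ∑ n ∈ Ioc 0 N, (if m * n ≤ y r χ then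
        ((((r : ℝ) / r.totient : ℝ)) : ℂ) * (a m * χ m) * (b n * χ n) else 0)‖
    rw [e, norm_mul, Complex.norm_real, Real.norm_of_nonneg hw]
  · intro g hg
    refine le_trans (le_of_eq ?_) (bil_cs hLS Q M N a b g hg)
    refine Finset.sum_congr rfl fun x _ => ?_
    have hw : 0 ≤ (x.1 : ℝ) / x.1.totient := by positivity
    have e : ∑ m ∈ Ioc 0 M, ((((x.1 : ℝ) / x.1.totient : ℝ)) : ℂ) * (a m * x.2 m) * g m =
        ((((x.1 : ℝ) / x.1.totient : ℝ)) : ℂ) * ∑ m ∈ Ioc 0 M, a m * x.2 m * g m := by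
      rw [Finset.mul_sum]
      refine Finset.sum_congr rfl fun m _ => ?_
      ring
    rw [e, norm_mul, Complex.norm_real, Real.norm_of_nonneg hw]

end Pool.Agent.BV
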