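import Mathlib
import Pool.Agent.Work.BV.Interface

/-!
# Block BIL2: dyadic blocks of conductors
-/

set_option autoImplicit false

namespace Pool.Agent.BV

open Finset ArithmeticFunction
open scoped Classical

/-- Dyadic decomposition of a nonnegative sum. -/
lemma dyadic_sum_le (f : ℕ → ℝ) (hf : ∀ r, 0 ≤ f r) (R Q : ℕ) (B : ℝ)
    (hB : ∀ j : ℕ, ∑ r ∈ Ioc (2 ^ j * R) (min (2 ^ (j + 1) * R) Q), f r ≤ B) (J : ℕ) :
    ∑ r ∈ Ioc R (min (2 ^ J * R) Q), f r ≤ J * B := by
  induction J with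
  | zero =>
    have : Ioc R (min (2 ^ 0 * R) Q) = ∅ := by
      apply Finset.Ioc_eq_empty
      simp
    rw [this]; simp
  | succ J ih =>
    have hsub : Ioc R (min (2 ^ (J + 1) * R) Q) ⊆
        Ioc R (min (2 ^ J * R) Q) ∪ Ioc (2 ^ J * R) (min (2 ^ (J + 1) * R) Q) := by
      intro r hr
      rw [Finset.mem_union, Finset.mem_Ioc, Finset.mem_Ioc]
      rw [Finset.mem_Ioc, le_min_iff] at hr
      by_cases h : r ≤ 2 ^ J * R
      · left; exact ⟨hr.1, le_min h hr.2.2⟩
      · right; exact ⟨by omega, le_min hr.2.1 hr.2.2⟩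
    have h1 := Finset.sum_le_sum_of_subset_of_nonneg hsub (fun r _ _ => hf r)
    have h2 := Finset.sum_union_inter (s₁ := Ioc R (min (2 ^ J * R) Q))
      (s₂ := Ioc (2 ^ J * R) (min (2 ^ (J + 1) * R) Q)) (f := f)
    have h3 : 0 ≤ ∑ r ∈ Ioc R (min (2 ^ J * R) Q) ∩ Ioc (2 ^ J * R) (min (2 ^ (J + 1) * R) Q), f r :=
      Finset.sum_nonneg fun r _ => hf r
    have h4 := hB J
    push_cast
    linarith

theorem BIL2 (hBIL : Stmt_BIL) : Stmt_BIL2 := by
  obtain ⟨C, hC, H⟩ := hBIL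
  refine ⟨6 * C, by positivity, ?_⟩
  intro R Q M N X hX hMN hR hQX a b y
  set A : ℝ := √(∑ m ∈ Ioc 0 M, ‖a m‖ ^ 2) * √(∑ n ∈ Ioc 0 N, ‖b n‖ ^ 2) with hA
  have hA0 : 0 ≤ A := by positivity
  have hX' : (2 : ℝ) ≤ X := by exact_mod_cast hX
  have hlogX : 0.69 ≤ Real.log X := by
    have h1 := Real.log_le_log (by norm_num) hX'
    have h2 := Real.log_two_gt_d9
    linarith
  set S : ℕ → ℝ := fun r => ∑ χ ∈ PC r,
      ‖∑ m ∈ Ioc 0 M, ∑ n ∈ Ioc 0 N,
        (if m * n ≤ y r χ then a m * b n * χ ((m * n : ℕ) : ZMod r) else 0)‖ with hS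
  have hS0 : ∀ r, 0 ≤ S r := fun r => Finset.sum_nonneg fun χ _ => norm_nonneg _
  set f : ℕ → ℝ := fun r => (1 / (r.totient : ℝ)) * S r with hf
  have hf0 : ∀ r, 0 ≤ f r := fun r => mul_nonneg (by positivity) (hS0 r)
  set G : ℝ := √(M * N : ℝ) / R + √(M : ℝ) + √(N : ℝ) + Q with hG
  have hG0 : 0 ≤ G := by positivity
  set B : ℝ := C * Real.log X * (2 * G) * A with hB
  have hblock : ∀ j : ℕ, ∑ r ∈ Ioc (2 ^ j * R) (min (2 ^ (j + 1) * R) Q), f r ≤ B := by
    intro j
    set D : ℕ := 2 ^ j * R with hD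
    set q : ℕ := min (2 ^ (j + 1) * R) Q with hq
    have hD1 : R ≤ D := by
      rw [hD]; exact Nat.le_mul_of_pos_left _ (by positivity)
    have hDpos : (0 : ℝ) < D := by
      have : 0 < D := lt_of_lt_of_le hR hD1
      exact_mod_cast this
    have hDR : (R : ℝ) ≤ D := by exact_mod_cast hD1
    have hRpos : (0 : ℝ) < R := by exact_mod_cast hR
    have hqD : (q : ℝ) ≤ 2 * D := by
      have : q ≤ 2 * D := by
        rw [hq, hD]
        refine (min_le_left _ _).trans (le_of_eq ?_)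
        rw [pow_succ]; ring
      exact_mod_cast this
    have hqQ : (q : ℝ) ≤ Q := by exact_mod_cast (min_le_right _ _)
    have h1 : ∑ r ∈ Ioc D q, f r ≤ (1 / (D : ℝ)) * ∑ r ∈ Ioc 0 q, ((r : ℝ) / r.totient) * S r := by
      rw [Finset.mul_sum]
      have hsub : Ioc D q ⊆ Ioc 0 q := Finset.Ioc_subset_Ioc_left (Nat.zero_le _)
      refine le_trans (Finset.sum_le_sum fun r hr => ?_)
        (Finset.sum_le_sum_of_subset_of_nonneg hsub fun r _ _ =>
          mul_nonneg (by positivity) (mul_nonneg (by positivity) (hS0 r)))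
      rw [Finset.mem_Ioc] at hr
      have hrD : (D : ℝ) ≤ r := by exact_mod_cast hr.1.le
      have h2 : (1 / (r.totient : ℝ)) ≤ 1 / (D : ℝ) * ((r : ℝ) / r.totient) := by
        have h3 : 1 / (D : ℝ) * ((r : ℝ) / r.totient) = (r / D) * (1 / (r.totient : ℝ)) := by ring
        rw [h3]
        have h4 : 1 ≤ (r : ℝ) / D := by rwa [le_div_iff₀ hDpos, one_mul]
        have h5 : 0 ≤ 1 / (r.totient : ℝ) := by positivity
        nlinarith
      calc f r = (1 / (r.totient : ℝ)) * S r := rfl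
        _ ≤ (1 / (D : ℝ) * ((r : ℝ) / r.totient)) * S r := mul_le_mul_of_nonneg_right h2 (hS0 r)
        _ = _ := by ring
    have h2 := H q M N X hX hMN a b y
    have h3 : √((M + (q : ℝ) ^ 2) * (N + (q : ℝ) ^ 2)) ≤ (√(M : ℝ) + q) * (√(N : ℝ) + q) := by
      rw [Real.sqrt_mul (by positivity)]
      refine mul_le_mul ?_ ?_ (Real.sqrt_nonneg _) (by positivity)
      · rw [Real.sqrt_le_left (by positivity)]
        have := Real.sq_sqrt (Nat.cast_nonneg M : (0:ℝ) ≤ M)
        have h5 : 0 ≤ √(M : ℝ) * q := by positivity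
        nlinarith
      · rw [Real.sqrt_le_left (by positivity)]
        have := Real.sq_sqrt (Nat.cast_nonneg N : (0:ℝ) ≤ N)
        have h5 : 0 ≤ √(N : ℝ) * q := by positivity
        nlinarith
    have h4 : (1 / (D : ℝ)) * ((√(M : ℝ) + q) * (√(N : ℝ) + q)) ≤ 2 * G := by
      have e : (1 / (D : ℝ)) * ((√(M : ℝ) + q) * (√(N : ℝ) + q)) =
          √(M : ℝ) * √(N : ℝ) / D + (q / D) * (√(M : ℝ) + √(N : ℝ)) + (q / D) * q := by
        field_simp
        ring
      rw [e, ← Real.sqrt_mul (by positivity)]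
      have h5 : (q : ℝ) / D ≤ 2 := by rwa [div_le_iff₀ hDpos]
      have h6 : √(M * N : ℝ) / D ≤ √(M * N : ℝ) / R :=
        div_le_div_of_nonneg_left (Real.sqrt_nonneg _) hRpos hDR
      have h7 : (q : ℝ) / D * (√(M : ℝ) + √(N : ℝ)) ≤ 2 * (√(M : ℝ) + √(N : ℝ)) :=
        mul_le_mul_of_nonneg_right h5 (by positivity)
      have h8 : (q : ℝ) / D * q ≤ 2 * Q := mul_le_mul h5 hqQ (by positivity) (by norm_num)
      have h9 : 0 ≤ √(M * N : ℝ) / R := by positivity
      rw [hG]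
      linarith
    refine h1.trans ?_
    have h5 : (1 / (D : ℝ)) * ∑ r ∈ Ioc 0 q, ((r : ℝ) / r.totient) * S r ≤
        (1 / (D : ℝ)) * (C * Real.log X * √((M + (q : ℝ) ^ 2) * (N + (q : ℝ) ^ 2)) * A) :=
      mul_le_mul_of_nonneg_left h2 (by positivity)
    refine h5.trans ?_
    have h6 : (1 / (D : ℝ)) * (C * Real.log X * √((M + (q : ℝ) ^ 2) * (N + (q : ℝ) ^ 2)) * A) =
        C * Real.log X * ((1 / (D : ℝ)) * √((M + (q : ℝ) ^ 2) * (N + (q : ℝ) ^ 2))) * A := by ring
    rw [h6, hB]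
    refine mul_le_mul_of_nonneg_right (mul_le_mul_of_nonneg_left ?_ ?_) hA0
    · exact (mul_le_mul_of_nonneg_left h3 (by positivity)).trans h4
    · positivity
  set J : ℕ := Nat.log 2 Q + 1 with hJ
  have hJQ : min (2 ^ J * R) Q = Q := by
    apply min_eq_right
    have : Q < 2 ^ J := Nat.lt_pow_succ_log_self (by norm_num) Q
    exact this.le.trans (Nat.le_mul_of_pos_right _ hR)
  have hmain := dyadic_sum_le f hf0 R Q B hblock J
  rw [hJQ] at hmain
  have hJlog : (J : ℝ) ≤ 3 * Real.log X := by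
    have h1 : (Nat.log 2 Q : ℝ) ≤ Real.log X / Real.log 2 := by
      rcases Nat.eq_zero_or_pos Q with h0 | h0
      · rw [h0]; simp
        positivity
      · have h2 : (2 : ℝ) ^ (Nat.log 2 Q) ≤ X := by
          have := Nat.pow_log_le_self 2 h0.ne'
          exact_mod_cast this.trans hQX
        have h3 := Real.log_le_log (by positivity) h2
        rw [Real.log_pow] at h3
        rw [le_div_iff₀ (Real.log_pos (by norm_num))]
        exact h3
    have h4 := Real.log_two_gt_d9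
    have h5 : Real.log X / Real.log 2 ≤ Real.log X / 0.69 :=
      div_le_div_of_nonneg_left (by linarith) (by norm_num) (by linarith)
    have h6 : Real.log X / 0.69 ≤ 1.45 * Real.log X := by
      rw [div_le_iff₀ (by norm_num)]
      nlinarith
    rw [hJ]
    push_cast
    linarith
  refine hmain.trans ?_
  have hB0 : 0 ≤ B := by positivity
  calc (J : ℝ) * B ≤ 3 * Real.log X * B := mul_le_mul_of_nonneg_right hJlog hB0
    _ = 6 * C * Real.log X ^ 2 * G * A := by rw [hB]; ring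

end Pool.Agent.BV
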