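import Pool.Agent.Work.BV.BVL

/-! BV: the Bombieri–Vinogradov theorem for `ψ`. -/

set_option autoImplicit false

namespace Pool.Agent.BV

open Finset ArithmeticFunction
open scoped Classical

namespace Bv

theorem psi_unif (A : ℕ) : ∃ C : ℝ, 0 < C ∧ ∀ X : ℝ, 2 ≤ X → ∀ y : ℝ, 0 ≤ y → y ≤ X →
    |∑ n ∈ Ioc 0 ⌊y⌋₊, Λ n - y| ≤ C * (X / (Real.log X) ^ A) := by
  obtain ⟨C1, hC1, hP⟩ := SW.pnt A
  obtain ⟨K, hK0, hK⟩ : ∃ K : ℝ, 0 < K ∧ ∀ X : ℝ, 1 ≤ X →
      (Real.log X) ^ (A + 1) ≤ K * √X := by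
    refine ⟨_, ?_, fun X hX => SW.log_pow_le_sqrt (A + 1) X hX⟩
    positivity
  refine ⟨C1 * 2 ^ A + 24 * K, by positivity, ?_⟩
  intro X hX y hy0 hyX
  set L : ℝ := Real.log X with hL
  have hL2 : 1 / 2 ≤ L := by
    have h1 := Real.log_two_gt_d9
    have h2 : Real.log 2 ≤ Real.log X := Real.log_le_log (by norm_num) hX
    linarith
  have hL0 : 0 < L := by linarith
  have hLA : 0 < L ^ A := by positivity
  have hXA : 0 ≤ X / L ^ A := by positivity
  have hKX : L ^ (A + 1) ≤ K * √X := hK X (by linarith)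
  have hsq : √X * √X = X := Real.mul_self_sqrt (by linarith)
  have hsq1 : 1 ≤ √X := Real.one_le_sqrt.mpr (by linarith)
  rcases le_or_gt y (8 * √X) with hy | hy
  · have h1 : ∑ n ∈ Ioc 0 ⌊y⌋₊, Λ n ≤ y * L := by
      calc ∑ n ∈ Ioc 0 ⌊y⌋₊, Λ n ≤ ∑ n ∈ Ioc 0 ⌊y⌋₊, L := by
            refine sum_le_sum fun n hn => ?_
            rw [mem_Ioc] at hn
            refine vonMangoldt_le_log.trans ?_
            apply Real.log_le_log (by exact_mod_cast hn.1)
            exact ((Nat.le_floor_iff hy0).mp hn.2).trans hyX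
        _ = (⌊y⌋₊ : ℝ) * L := by rw [sum_const, Nat.card_Ioc, nsmul_eq_mul, Nat.sub_zero]
        _ ≤ y * L := by
            gcongr
            exact Nat.floor_le hy0
    have h0 : 0 ≤ ∑ n ∈ Ioc 0 ⌊y⌋₊, Λ n := sum_nonneg fun _ _ => vonMangoldt_nonneg
    have h2 : |∑ n ∈ Ioc 0 ⌊y⌋₊, Λ n - y| ≤ 3 * (y * L) := by
      rw [abs_le]
      constructor <;> nlinarith
    refine h2.trans ?_
    calc 3 * (y * L) ≤ 3 * ((8 * √X) * L) := by gcongr
      _ = 24 * (√X * (L ^ (A + 1) / L ^ A)) := by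
          have : L ^ (A + 1) = L ^ A * L := by ring
          rw [this, mul_div_cancel_left₀ _ hLA.ne']
          ring
      _ ≤ 24 * (√X * (K * √X / L ^ A)) := by gcongr
      _ = 24 * K * (√X * √X / L ^ A) := by ring
      _ = 24 * K * (X / L ^ A) := by rw [hsq]
      _ ≤ _ := by
          gcongr
          have : 0 ≤ C1 * 2 ^ A := by positivity
          linarith
  · have hy8 : (8 : ℝ) < y := by nlinarith
    have hlyL : L / 2 ≤ Real.log y := by
      have h5 : √X ≤ y := by nlinarith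
      have h6 := Real.log_le_log (by linarith : (0 : ℝ) < √X) h5
      rwa [Real.log_sqrt (by linarith)] at h6
    refine (hP y (by linarith)).trans ?_
    calc C1 * (y / (Real.log y) ^ A) ≤ C1 * (X / (L / 2) ^ A) := by gcongr
      _ = C1 * 2 ^ A * (X / L ^ A) := by
          rw [div_pow]
          field_simp
      _ ≤ _ := by
          gcongr
          have : 0 ≤ 24 * K := by positivity
          linarith

end Bv

open Bv in
theorem stmt_BV (hBVL : Stmt_BVL) (hPHI : Stmt_PHI) : Stmt_BV := by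
  intro A
  obtain ⟨B, C1, hC1, hbvl⟩ := hBVL A
  obtain ⟨Cφ, hCφ, hφs⟩ := hPHI
  obtain ⟨C2, hC2, hpsi⟩ := psi_unif (A + 1)
  obtain ⟨K2, hK2, hlog2⟩ : ∃ K : ℝ, 0 < K ∧ ∀ X : ℝ, 1 ≤ X →
      (Real.log X) ^ (A + 3) ≤ K * √X := by
    refine ⟨_, ?_, fun X hX => SW.log_pow_le_sqrt (A + 3) X hX⟩
    positivity
  refine ⟨B + 1, 24 * 2 ^ B * 3 ^ A + (C1 * 2 ^ A + Cφ * (C2 + 2 * K2)), by positivity, ?_⟩
  intro X hX Q hQ y hy a ha
  set L : ℝ := Real.log X with hL
  have hL2 : 1 / 2 ≤ L := by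
    have h1 := Real.log_two_gt_d9
    have h2 : Real.log 2 ≤ Real.log X := Real.log_le_log (by norm_num) hX
    linarith
  have hL0 : 0 < L := by linarith
  have hLA : 0 < L ^ A := by positivity
  have hXA : 0 ≤ X / L ^ A := by positivity
  have hsq : √X * √X = X := Real.mul_self_sqrt (by linarith)
  have hsq1 : 1 ≤ √X := Real.one_le_sqrt.mpr (by linarith)
  have hΛL : ∀ q, ∀ n ∈ Ioc 0 ⌊y q⌋₊, Λ n ≤ L := by
    intro q n hn
    rw [mem_Ioc] at hn
    refine vonMangoldt_le_log.trans ?_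
    apply Real.log_le_log (by exact_mod_cast hn.1)
    exact ((Nat.le_floor_iff (hy q).1).mp hn.2).trans (hy q).2
  rcases lt_or_ge X 8 with hX8 | hX8
  · have hL3 : L ≤ 3 := by
      have h1 : L ≤ Real.log 8 := Real.log_le_log (by linarith) hX8.le
      have h6 : Real.log 8 = 3 * Real.log 2 := by
        rw [show (8 : ℝ) = 2 ^ 3 by norm_num, Real.log_pow]
        norm_num
      have h2 := Real.log_two_lt_d9
      linarith
    have hQ2 : (Q : ℝ) ≤ 6 * 2 ^ B := by
      refine hQ.trans ?_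
      have h1 : √X ≤ 3 := by
        rw [Real.sqrt_le_left (by norm_num)]
        linarith
      calc √X / L ^ (B + 1) ≤ 3 / (1 / 2) ^ (B + 1) := by gcongr
        _ = 6 * 2 ^ B := by
            rw [one_div, inv_pow, div_inv_eq_mul, pow_succ]
            ring
    have h1 : ∀ q ∈ Ioc 0 Q, |∑ n ∈ (Ioc 0 ⌊y q⌋₊).filter (fun n : ℕ => (n : ZMod q) = a q), Λ n
      - y q / (q.totient : ℝ)| ≤ 4 * X := by
      intro q hq
      rw [mem_Ioc] at hq
      have hφ : (1 : ℝ) ≤ q.totient := by exact_mod_cast Nat.totient_pos.mpr hq.1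
      have h2 : ∑ n ∈ (Ioc 0 ⌊y q⌋₊).filter (fun n : ℕ => (n : ZMod q) = a q), Λ n ≤ 3 * X := by
        calc _ ≤ ∑ n ∈ Ioc 0 ⌊y q⌋₊, Λ n :=
              sum_le_sum_of_subset_of_nonneg (filter_subset _ _) fun _ _ _ => vonMangoldt_nonneg
          _ ≤ ∑ n ∈ Ioc 0 ⌊y q⌋₊, (3 : ℝ) := sum_le_sum fun n hn => (hΛL q n hn).trans hL3
          _ = (⌊y q⌋₊ : ℝ) * 3 := by rw [sum_const, Nat.card_Ioc, nsmul_eq_mul, Nat.sub_zero]
          _ ≤ 3 * X := by
              have := Nat.floor_le (hy q).1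
              have := (hy q).2
              linarith
      have h3 : 0 ≤ ∑ n ∈ (Ioc 0 ⌊y q⌋₊).filter (fun n : ℕ => (n : ZMod q) = a q), Λ n :=
        sum_nonneg fun _ _ => vonMangoldt_nonneg
      have h4 : y q / (q.totient : ℝ) ≤ X := (div_le_self (hy q).1 hφ).trans (hy q).2
      have h5 : 0 ≤ y q / (q.totient : ℝ) := div_nonneg (hy q).1 (by linarith)
      rw [abs_le]
      constructor <;> linarith
    refine (sum_le_sum h1).trans ?_
    rw [sum_const, Nat.card_Ioc, nsmul_eq_mul, Nat.sub_zero]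
    calc (Q : ℝ) * (4 * X) ≤ 6 * 2 ^ B * (4 * X) := by gcongr
      _ = 24 * 2 ^ B * L ^ A * (X / L ^ A) := by field_simp; ring
      _ ≤ 24 * 2 ^ B * 3 ^ A * (X / L ^ A) := by gcongr
      _ ≤ _ := by
          gcongr
          have : 0 ≤ C1 * 2 ^ A + Cφ * (C2 + 2 * K2) := by positivity
          linarith
  · have hLtwo : 2 ≤ L := by
      have h5 : Real.log 8 ≤ L := Real.log_le_log (by norm_num) hX8
      have h6 : Real.log 8 = 3 * Real.log 2 := by
        rw [show (8 : ℝ) = 2 ^ 3 by norm_num, Real.log_pow]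
        norm_num
      have h1 := Real.log_two_gt_d9
      linarith
    set N : ℕ := ⌊X⌋₊ with hN
    have hN8 : 8 ≤ N := Nat.le_floor (by exact_mod_cast hX8)
    have hNr : (8 : ℝ) ≤ N := by exact_mod_cast hN8
    have hNX : (N : ℝ) ≤ X := Nat.floor_le (by linarith)
    have hXN : X ≤ 2 * N := by
      have := Nat.lt_floor_add_one X
      rw [← hN] at this
      linarith
    set LN : ℝ := Real.log N with hLN
    have hLNL : LN ≤ L := Real.log_le_log (by linarith) hNX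
    have hLN0 : 0 < LN := Real.log_pos (by linarith)
    have hLNL2 : L / 2 ≤ LN := by
      have h1 : √X ≤ N := by nlinarith
      have h6 := Real.log_le_log (by linarith : (0 : ℝ) < √X) h1
      rwa [Real.log_sqrt (by linarith)] at h6
    have hsN : √X ≤ 2 * √(N : ℝ) := by
      rw [Real.sqrt_le_left (by positivity), mul_pow, Real.sq_sqrt (by linarith)]
      linarith
    have hQN : (Q : ℝ) ≤ √(N : ℝ) / LN ^ B := by
      refine hQ.trans ?_
      calc √X / L ^ (B + 1) ≤ (2 * √(N : ℝ)) / (LN ^ B * 2) := by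
            rw [pow_succ]
            gcongr
        _ = _ := by field_simp
    have hLB : 1 ≤ L ^ (B + 1) := one_le_pow₀ (by linarith)
    have hQs : (Q : ℝ) ≤ √X := hQ.trans (div_le_self (by linarith) hLB)
    have hQNN : Q ≤ N := by
      apply Nat.le_floor
      nlinarith
    have h1 := hbvl N (by omega) Q hQN (fun q => ⌊y q⌋₊) (fun q => Nat.floor_le_floor (hy q).2) a ha
    have h2 : C1 * ((N : ℝ) / LN ^ A) ≤ C1 * 2 ^ A * (X / L ^ A) := by
      calc C1 * ((N : ℝ) / LN ^ A) ≤ C1 * (X / (L / 2) ^ A) := by gcongr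
        _ = C1 * 2 ^ A * (X / L ^ A) := by
            rw [div_pow]
            field_simp
    have h3 : ∀ q ∈ Ioc 0 Q, |∑ n ∈ (Ioc 0 ⌊y q⌋₊).filter (fun n : ℕ => (n : ZMod q) = a q), Λ n
      - y q / (q.totient : ℝ)| ≤ ‖Err (fun n => (Λ n : ℂ)) ⌊y q⌋₊ q (a q)‖
        + (1 / (q.totient : ℝ)) * (C2 * (X / L ^ (A + 1)) + 2 * L ^ 2) := by
      intro q hq
      rw [mem_Ioc] at hq
      have hφ : (1 : ℝ) ≤ q.totient := by exact_mod_cast Nat.totient_pos.mpr hq.1
      have hqX : (q : ℝ) ≤ X := by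
        have h1 : q ≤ N := hq.2.trans hQNN
        have h2 : (q : ℝ) ≤ N := by exact_mod_cast h1
        exact h2.trans hNX
      set S1 : ℝ := ∑ n ∈ (Ioc 0 ⌊y q⌋₊).filter (fun n : ℕ => (n : ZMod q) = a q), Λ n with hS1
      set S2 : ℝ := ∑ n ∈ (Ioc 0 ⌊y q⌋₊).filter (fun n : ℕ => n.Coprime q), Λ n with hS2
      have h4 : ‖Err (fun n => (Λ n : ℂ)) ⌊y q⌋₊ q (a q)‖ = |S1 - (1 / (q.totient : ℝ)) * S2| := by
        have h5 : Err (fun n => (Λ n : ℂ)) ⌊y q⌋₊ q (a q) = ((S1 - (1 / (q.totient : ℝ)) * S2 : ℝ) : ℂ) := by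
          unfold Err
          rw [hS1, hS2]
          push_cast
          rfl
        rw [h5, Complex.norm_real, Real.norm_eq_abs]
      rw [h4]
      have h5 : |S2 - y q| ≤ C2 * (X / L ^ (A + 1)) + 2 * L ^ 2 := by
        have h6 := hpsi X hX (y q) (hy q).1 (hy q).2
        have h7 : ∑ n ∈ Ioc 0 ⌊y q⌋₊, Λ n = S2
            + ∑ n ∈ (Ioc 0 ⌊y q⌋₊).filter (fun n => ¬ n.Coprime q), Λ n :=
          (sum_filter_add_sum_filter_not _ _ _).symm
        have h8 : ∑ n ∈ (Ioc 0 ⌊y q⌋₊).filter (fun n => ¬ n.Coprime q), Λ n ≤ 2 * L ^ 2 := by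
          have h9 : ∑ n ∈ (Ioc 0 ⌊y q⌋₊).filter (fun n => ¬ n.Coprime q), Λ n
              ≤ Real.log q * Real.log ⌊y q⌋₊ / Real.log 2 := by
            have := SW.nc_sum_le ⌊y q⌋₊ q hq.1
            convert this
          refine h9.trans ?_
          have h5 : 1 / 2 ≤ Real.log 2 := by
            have h1 := Real.log_two_gt_d9
            linarith
          have h10 : Real.log (q : ℝ) ≤ L := Real.log_le_log (by exact_mod_cast hq.1) hqX
          have h11 : Real.log (⌊y q⌋₊ : ℝ) ≤ L := by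
            rcases Nat.eq_zero_or_pos ⌊y q⌋₊ with h | h
            · rw [h, Nat.cast_zero, Real.log_zero]
              exact hL0.le
            · exact Real.log_le_log (by exact_mod_cast h) ((Nat.floor_le (hy q).1).trans (hy q).2)
          calc Real.log q * Real.log ⌊y q⌋₊ / Real.log 2 ≤ L * L / (1 / 2) := by
                have h6 : 0 ≤ Real.log (q : ℝ) := Real.log_natCast_nonneg _
                have h7 : 0 ≤ Real.log (⌊y q⌋₊ : ℝ) := Real.log_natCast_nonneg _
                gcongr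
            _ = 2 * L ^ 2 := by ring
        have h9 : 0 ≤ ∑ n ∈ (Ioc 0 ⌊y q⌋₊).filter (fun n => ¬ n.Coprime q), Λ n :=
          sum_nonneg fun _ _ => vonMangoldt_nonneg
        rw [h7, abs_le] at h6
        rw [abs_le]
        constructor <;> linarith [h6.1, h6.2]
      have h6 : S1 - y q / (q.totient : ℝ) = (S1 - (1 / (q.totient : ℝ)) * S2)
          + (1 / (q.totient : ℝ)) * (S2 - y q) := by ring
      rw [h6]
      refine (abs_add_le _ _).trans (add_le_add le_rfl ?_)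
      rw [abs_mul, abs_of_nonneg (by positivity : (0 : ℝ) ≤ 1 / (q.totient : ℝ))]
      gcongr
    refine (sum_le_sum h3).trans ?_
    rw [sum_add_distrib, ← sum_mul]
    have h4 : ∑ q ∈ Ioc 0 Q, 1 / (q.totient : ℝ) ≤ Cφ * L := by
      calc ∑ q ∈ Ioc 0 Q, 1 / (q.totient : ℝ) ≤ ∑ q ∈ Ioc 0 N, 1 / (q.totient : ℝ) := by
            refine sum_le_sum_of_subset_of_nonneg (Ioc_subset_Ioc_right hQNN) fun _ _ _ => by positivity
        _ ≤ Cφ * LN := hφs N (by omega)
        _ ≤ Cφ * L := by gcongr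
    have h5 : L * (2 * L ^ 2) ≤ 2 * K2 * (X / L ^ A) := by
      have h8 : L ^ (A + 3) ≤ K2 * √X := hlog2 X (by linarith)
      rw [mul_div_assoc', le_div_iff₀ (by positivity)]
      have h9 : √X ≤ X := by nlinarith
      calc L * (2 * L ^ 2) * L ^ A = 2 * L ^ (A + 3) := by ring
        _ ≤ 2 * (K2 * √X) := by gcongr
        _ ≤ 2 * (K2 * X) := by gcongr
        _ = _ := by ring
    have h6 : L * (C2 * (X / L ^ (A + 1))) = C2 * (X / L ^ A) := by
      rw [pow_succ]
      field_simp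
    have h7 : 0 ≤ C2 * (X / L ^ (A + 1)) + 2 * L ^ 2 := by positivity
    calc _ ≤ C1 * 2 ^ A * (X / L ^ A) + (Cφ * L) * (C2 * (X / L ^ (A + 1)) + 2 * L ^ 2) :=
          add_le_add (h1.trans h2) (mul_le_mul_of_nonneg_right h4 h7)
      _ = C1 * 2 ^ A * (X / L ^ A) + Cφ * (L * (C2 * (X / L ^ (A + 1))) + L * (2 * L ^ 2)) := by ring
      _ ≤ C1 * 2 ^ A * (X / L ^ A) + Cφ * (C2 * (X / L ^ A) + 2 * K2 * (X / L ^ A)) := by
          rw [h6]
          gcongr
      _ = (C1 * 2 ^ A + Cφ * (C2 + 2 * K2)) * (X / L ^ A) := by ring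
      _ ≤ _ := by
          refine mul_le_mul_of_nonneg_right ?_ hXA
          have : 0 ≤ 24 * (2 : ℝ) ^ B * 3 ^ A := by positivity
          linarith

end Pool.Agent.BV
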