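import Pool.Agent.Work.BV.Interface

/-!
# The bilinear Bombieri–Vinogradov theorem
-/

set_option autoImplicit false

namespace Pool.Agent.BV

open Finset ArithmeticFunction
open scoped Classical

lemma sum_conv (X : ℕ) (α β G : ℕ → ℂ) :
    ∑ l ∈ Ioc 0 X, (∑ x ∈ l.divisorsAntidiagonal, α x.1 * β x.2) * G l
      = ∑ m ∈ Ioc 0 X, ∑ n ∈ Ioc 0 X, if m * n ≤ X then α m * β n * G (m * n) else 0 := by
  have h1 : ∀ l ∈ Ioc 0 X, (∑ x ∈ l.divisorsAntidiagonal, α x.1 * β x.2) * G l
      = ∑ x ∈ Ioc 0 X ×ˢ Ioc 0 X, if x.1 * x.2 = l then α x.1 * β x.2 * G (x.1 * x.2) else 0 := by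
    intro l hl
    rw [mem_Ioc] at hl
    rw [Nat.divisorsAntidiagonal_eq_prod_filter_of_le hl.1.ne' hl.2, sum_mul, ← sum_filter]
    refine sum_congr rfl fun x hx => ?_
    rw [mem_filter] at hx
    rw [hx.2]
  rw [sum_congr rfl h1, sum_comm, sum_product]
  refine sum_congr rfl fun m hm => sum_congr rfl fun n hn => ?_
  rw [mem_Ioc] at hm hn
  rw [sum_ite_eq]
  have : 0 < m * n := Nat.mul_pos hm.1 hn.1
  simp only [mem_Ioc, this, true_and]

lemma Err_restrict (f : ℕ → ℂ) (y X q : ℕ) (a : ZMod q) (hy : y ≤ X) :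
    Err (fun n => if n ≤ y then f n else 0) X q a = Err f y q a := by
  unfold Err
  have h : ∀ (p : ℕ → Prop) [DecidablePred p], ∑ n ∈ (Ioc 0 X).filter p, (if n ≤ y then f n else 0)
      = ∑ n ∈ (Ioc 0 y).filter p, f n := by
    intro p _
    rw [← sum_filter, filter_filter]
    refine sum_congr ?_ fun _ _ => rfl
    ext n
    simp only [mem_filter, mem_Ioc]
    constructor
    · rintro ⟨⟨h1, _⟩, h2, h3⟩
      exact ⟨⟨h1, h3⟩, h2⟩
    · rintro ⟨⟨h1, h3⟩, h2⟩
      exact ⟨⟨h1, h3.trans hy⟩, h2, h3⟩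
  simp only [h]

/-- Abel summation with weights `1 / m`. -/
lemma sum_div_le (c : ℕ → ℝ) (L : ℝ) (N : ℕ) (h : ∀ M ≤ N, ∑ m ∈ Ioc 0 M, c m ≤ L * M) :
    ∑ m ∈ Ioc 0 N, c m / m ≤ L * ∑ m ∈ Ioc 0 N, 1 / (m : ℝ) := by
  have key : ∀ M ≤ N, (∑ m ∈ Ioc 0 M, (L - c m)) / M ≤ ∑ m ∈ Ioc 0 M, (L - c m) / m := by
    intro M
    induction M with
    | zero => intro _; simp
    | succ M ih =>
      intro hM
      have h1 := ih (by omega)
      rw [Finset.sum_Ioc_succ_top (Nat.zero_le M), Finset.sum_Ioc_succ_top (Nat.zero_le M)]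
      have h2 : 0 ≤ ∑ m ∈ Ioc 0 M, (L - c m) := by
        rw [sum_sub_distrib, sum_const, Nat.card_Ioc, nsmul_eq_mul, Nat.sub_zero]
        have := h M (by omega)
        linarith
      have h3 : (∑ m ∈ Ioc 0 M, (L - c m)) / ((M + 1 : ℕ) : ℝ) ≤ (∑ m ∈ Ioc 0 M, (L - c m)) / M := by
        rcases Nat.eq_zero_or_pos M with rfl | hM0
        · simp
        · apply div_le_div_of_nonneg_left h2 (by exact_mod_cast hM0)
          push_cast
          linarith
      rw [add_div]
      linarith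
  have h1 := key N le_rfl
  have h2 : 0 ≤ ∑ m ∈ Ioc 0 N, (L - c m) := by
    rw [sum_sub_distrib, sum_const, Nat.card_Ioc, nsmul_eq_mul, Nat.sub_zero]
    have := h N le_rfl
    linarith
  have h3 : 0 ≤ (∑ m ∈ Ioc 0 N, (L - c m)) / (N : ℝ) := div_nonneg h2 (Nat.cast_nonneg _)
  have h4 : ∑ m ∈ Ioc 0 N, (L - c m) / (m : ℝ) = L * ∑ m ∈ Ioc 0 N, 1 / (m : ℝ) - ∑ m ∈ Ioc 0 N, c m / m := by
    rw [mul_sum, ← sum_sub_distrib]
    refine sum_congr rfl fun m _ => ?_
    ring
  linarith

lemma harmonic_le (N : ℕ) : ∑ m ∈ Ioc 0 N, 1 / (m : ℝ) ≤ 1 + Real.log N := by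
  have h := harmonic_le_one_add_log N
  have h1 : ((harmonic N : ℚ) : ℝ) = ∑ m ∈ Ioc 0 N, 1 / (m : ℝ) := by
    rw [harmonic_eq_sum_Icc]
    push_cast
    refine sum_congr ?_ fun m _ => by rw [one_div]
    ext m
    simp only [mem_Icc, mem_Ioc]
    omega
  rw [← h1]
  exact h

lemma card_PC_le (r : ℕ) [NeZero r] : ((PC r).card : ℝ) ≤ (r.totient : ℝ) := by
  have h1 : (PC r).card ≤ Fintype.card (DirichletCharacter ℂ r) := by
    unfold PC
    exact card_le_univ _
  have h2 : Fintype.card (DirichletCharacter ℂ r) = r.totient := by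
    rw [← Nat.card_eq_fintype_card, DirichletCharacter.card_eq_totient_of_hasEnoughRootsOfUnity]
  rw [h2] at h1
  exact_mod_cast h1

/-- the trivial bound for small conductors -/
lemma sum_small (R : ℕ) (Z : ℝ) (hZ : 0 ≤ Z) (T : (r : ℕ) → DirichletCharacter ℂ r → ℝ)
    (hT : ∀ r, 1 < r → r ≤ R → ∀ χ ∈ PC r, T r χ ≤ Z) :
    ∑ r ∈ Ioc 1 R, (1 / (r.totient : ℝ)) * ∑ χ ∈ PC r, T r χ ≤ R * Z := by
  calc ∑ r ∈ Ioc 1 R, (1 / (r.totient : ℝ)) * ∑ χ ∈ PC r, T r χ
      ≤ ∑ r ∈ Ioc 1 R, Z := by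
        refine sum_le_sum fun r hr => ?_
        rw [mem_Ioc] at hr
        have : NeZero r := ⟨by omega⟩
        have hφ : (0 : ℝ) < r.totient := by exact_mod_cast Nat.totient_pos.mpr (by omega)
        calc (1 / (r.totient : ℝ)) * ∑ χ ∈ PC r, T r χ ≤ (1 / (r.totient : ℝ)) * ∑ χ ∈ PC r, Z := by
              gcongr with χ hχ
              exact hT r hr.1 hr.2 χ hχ
          _ = (1 / (r.totient : ℝ)) * ((PC r).card * Z) := by rw [sum_const, nsmul_eq_mul]
          _ ≤ (1 / (r.totient : ℝ)) * (r.totient * Z) := by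
              gcongr
              exact_mod_cast card_PC_le r
          _ = Z := by field_simp
    _ = ((R - 1 : ℕ) : ℝ) * Z := by rw [sum_const, Nat.card_Ioc, nsmul_eq_mul]
    _ ≤ R * Z := by
        gcongr
        omega

theorem BVB (hRED : Stmt_RED) (hPHI : Stmt_PHI) (hT2 : Stmt_T2) : Stmt_BVB := by
  intro A k
  obtain ⟨C1, hC1, hphi⟩ := hPHI
  obtain ⟨C2, hC2, ht2⟩ := hT2
  set B' := A + k + 4 with hB'
  set D := A + k + 4 with hD
  set E := A + D + k + 2 with hE
  refine ⟨2 * B', D, E, ?_⟩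
  intro K hK
  refine ⟨C1 * (C2 * 5 + 2 * K), by positivity, ?_⟩
  intro X hX Q U V hQ hU hV hU1 hV1 α β hα hβ hα2 hβ2 hSW y hy a ha
  set l := Real.log X with hl
  have hX3 : (3 : ℝ) ≤ X := by exact_mod_cast hX
  have hl1 : 1 ≤ l := by
    rw [hl, Real.le_log_iff_exp_le (by linarith)]
    have := Real.exp_one_lt_d9
    linarith
  have hl0 : 0 < l := by linarith
  have hX0 : (0 : ℝ) < X := by linarith
  have hQX : Q ≤ X := by
    have h1 : (Q : ℝ) ≤ X := by
      calc (Q : ℝ) ≤ √(X : ℝ) / l ^ (2 * B') := hQ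
        _ ≤ √(X : ℝ) := div_le_self (Real.sqrt_nonneg _) (one_le_pow₀ hl1)
        _ ≤ X := by
            rw [Real.sqrt_le_left hX0.le]
            nlinarith
    exact_mod_cast h1
  -- the cut
  set R : ℕ := max 1 ⌊l ^ D⌋₊ with hR
  have hR1 : 1 ≤ R := le_max_left _ _
  have hlD : 1 ≤ l ^ D := one_le_pow₀ hl1
  have hRfl : R = ⌊l ^ D⌋₊ := by
    rw [hR]
    apply max_eq_right
    exact Nat.le_floor (by exact_mod_cast hlD)
  have hRle : (R : ℝ) ≤ l ^ D := by
    rw [hRfl]
    exact Nat.floor_le (by positivity)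
  have hRge : l ^ D / 2 ≤ (R : ℝ) := by
    have h1 : l ^ D < (R : ℝ) + 1 := by
      rw [hRfl]
      exact Nat.lt_floor_add_one _
    have h2 : (1 : ℝ) ≤ R := by exact_mod_cast hR1
    linarith
  set f : ℕ → ℂ := fun l => ∑ x ∈ l.divisorsAntidiagonal, α x.1 * β x.2 with hf
  set F : ℕ → ℕ → ℂ := fun q n => if n ≤ y q then f n else 0 with hF
  have h1 := hRED Q X F a ha
  have h2 : ∑ q ∈ Ioc 0 Q, ‖Err (F q) X q (a q)‖ = ∑ q ∈ Ioc 0 Q, ‖Err f (y q) q (a q)‖ := by
    refine sum_congr rfl fun q _ => ?_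
    rw [hF]
    simp only
    rw [Err_restrict f (y q) X q (a q) (hy q)]
  rw [h2] at h1
  -- the inner sums
  set αs : ℕ → ℕ → ℂ := fun s m => if m.Coprime s then α m else 0 with hαs
  set βs : ℕ → ℕ → ℂ := fun s n => if n.Coprime s then β n else 0 with hβs
  have hin : ∀ (s r : ℕ) (χ : DirichletCharacter ℂ r),
      ∑ n ∈ Ioc 0 X, (if n.Coprime s then F (r * s) n * χ n else 0)
        = ∑ m ∈ Ioc 0 X, ∑ n ∈ Ioc 0 X,
          (if m * n ≤ y (r * s) then αs s m * βs s n * χ ((m * n : ℕ) : ZMod r) else 0) := by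
    intro s r χ
    have e1 : ∀ n ∈ Ioc 0 X, (if n.Coprime s then F (r * s) n * χ n else 0)
        = (∑ x ∈ n.divisorsAntidiagonal, α x.1 * β x.2) *
          (if n.Coprime s ∧ n ≤ y (r * s) then χ (n : ZMod r) else 0) := by
      intro n _
      rw [hF]
      simp only
      by_cases hc : n.Coprime s
      · by_cases hn : n ≤ y (r * s)
        · rw [if_pos hc, if_pos hn, if_pos ⟨hc, hn⟩]
        · rw [if_pos hc, if_neg hn, if_neg (fun h => hn h.2)]
          ring
      · rw [if_neg hc, if_neg (fun h => hc h.1)]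
        ring
    rw [sum_congr rfl e1, sum_conv X α β (fun n => if n.Coprime s ∧ n ≤ y (r * s) then χ (n : ZMod r) else 0)]
    refine sum_congr rfl fun m _ => sum_congr rfl fun n _ => ?_
    by_cases hmn : m * n ≤ y (r * s)
    · rw [if_pos (hmn.trans (hy _)), if_pos hmn]
      rw [hαs, hβs]
      simp only
      by_cases hc : (m * n).Coprime s
      · rw [if_pos ⟨hc, hmn⟩, if_pos (Nat.Coprime.coprime_mul_right hc),
          if_pos (Nat.Coprime.coprime_mul_left hc)]
      · rw [if_neg (fun h => hc h.1)]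
        by_cases hm : m.Coprime s
        · have hn : ¬ n.Coprime s := fun hn => hc (Nat.Coprime.mul_left hm hn)
          rw [if_neg hn]
          ring
        · rw [if_neg hm]
          ring
    · rw [if_neg hmn]
      split_ifs with h3 h4
      · exact absurd h4.2 hmn
      · ring
      · rfl
  -- bound for each `s`
  set L : ℝ := l ^ k with hL
  have hL1 : 1 ≤ L := one_le_pow₀ hl1
  have hkey : ∀ s ∈ Ioc 0 Q, ∑ r ∈ Ioc 1 Q, (1 / (r.totient : ℝ)) * ∑ χ ∈ PC r,
      ‖∑ n ∈ Ioc 0 X, if n.Coprime s then F (r * s) n * χ n else 0‖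
      ≤ (C2 * 5 + 2 * K) * (X / l ^ (A + 1)) := by
    intro s hs
    rw [mem_Ioc] at hs
    set T : (r : ℕ) → DirichletCharacter ℂ r → ℝ := fun r χ => ‖∑ m ∈ Ioc 0 X, ∑ n ∈ Ioc 0 X,
          (if m * n ≤ y (r * s) then αs s m * βs s n * χ ((m * n : ℕ) : ZMod r) else 0)‖ with hT
    have hT0 : ∀ r χ, 0 ≤ T r χ := fun r χ => norm_nonneg _
    have e1 : ∑ r ∈ Ioc 1 Q, (1 / (r.totient : ℝ)) * ∑ χ ∈ PC r,
      ‖∑ n ∈ Ioc 0 X, if n.Coprime s then F (r * s) n * χ n else 0‖
      = ∑ r ∈ Ioc 1 Q, (1 / (r.totient : ℝ)) * ∑ χ ∈ PC r, T r χ := by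
      refine sum_congr rfl fun r _ => ?_
      congr 1
      refine sum_congr rfl fun χ _ => ?_
      rw [hin s r χ]
    rw [e1]
    have e2 : ∑ r ∈ Ioc 1 Q, (1 / (r.totient : ℝ)) * ∑ χ ∈ PC r, T r χ
        ≤ ∑ r ∈ Ioc 1 R, (1 / (r.totient : ℝ)) * ∑ χ ∈ PC r, T r χ
          + ∑ r ∈ Ioc R Q, (1 / (r.totient : ℝ)) * ∑ χ ∈ PC r, T r χ := by
      rw [← sum_union (by
        rw [disjoint_left]
        intro r h3 h4
        rw [mem_Ioc] at h3 h4
        omega)]
      apply sum_le_sum_of_subset_of_nonneg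
      · intro r hr
        rw [mem_union, mem_Ioc, mem_Ioc]
        rw [mem_Ioc] at hr
        omega
      · intro r _ _
        have : 0 ≤ ∑ χ ∈ PC r, T r χ := sum_nonneg fun χ _ => hT0 r χ
        positivity
    -- large conductors
    have hαs2 : ∀ M ≤ X, ∑ m ∈ Ioc 0 M, ‖αs s m‖ ^ 2 ≤ L * M := by
      intro M hM
      refine le_trans (sum_le_sum fun m _ => ?_) (hα2 M hM)
      rw [hαs]
      simp only
      split_ifs
      · exact le_rfl
      · rw [norm_zero, zero_pow two_ne_zero]; positivity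
    have hβs2 : ∀ M ≤ X, ∑ m ∈ Ioc 0 M, ‖βs s m‖ ^ 2 ≤ L * M := by
      intro M hM
      refine le_trans (sum_le_sum fun m _ => ?_) (hβ2 M hM)
      rw [hβs]
      simp only
      split_ifs
      · exact le_rfl
      · rw [norm_zero, zero_pow two_ne_zero]; positivity
    have e3 := ht2 R Q U V X (by omega) hR1 hQX hU1 hV1 L (by positivity) (αs s) (βs s)
      (by
        intro m hm
        rw [hαs]
        simp only
        rw [hα m hm]
        split_ifs <;> rfl)
      (by
        intro n hn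
        rw [hβs]
        simp only
        rw [hβ n hn]
        split_ifs <;> rfl) hαs2 hβs2 (fun r _ => y (r * s)) (fun r _ => hy _)
    have hsqrt : ∀ W : ℕ, l ^ (2 * B') ≤ (W : ℝ) → (X : ℝ) / √(W : ℝ) ≤ X / l ^ B' := by
      intro W hW
      apply div_le_div_of_nonneg_left hX0.le (by positivity)
      rw [Real.le_sqrt' (by positivity), ← pow_mul, mul_comm B' 2]
      exact hW
    have e4 : (X : ℝ) / R + X / √(U : ℝ) + X / √(V : ℝ) + Q * √(X : ℝ) ≤ 5 * (X / l ^ B') := by
      have g1 : (X : ℝ) / R ≤ 2 * (X / l ^ B') := by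
        have : (X : ℝ) / R ≤ X / (l ^ D / 2) := by
          apply div_le_div_of_nonneg_left hX0.le (by positivity) hRge
        calc (X : ℝ) / R ≤ X / (l ^ D / 2) := this
          _ = 2 * (X / l ^ B') := by
              have hDB : D = B' := rfl
              rw [hDB]
              field_simp
      have g2 := hsqrt U hU
      have g3 := hsqrt V hV
      have g4 : (Q : ℝ) * √(X : ℝ) ≤ X / l ^ B' := by
        calc (Q : ℝ) * √(X : ℝ) ≤ √(X : ℝ) / l ^ (2 * B') * √(X : ℝ) := by gcongr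
          _ = (√(X : ℝ) * √(X : ℝ)) / l ^ (2 * B') := by ring
          _ = X / l ^ (2 * B') := by rw [Real.mul_self_sqrt hX0.le]
          _ ≤ X / l ^ B' := by
              apply div_le_div_of_nonneg_left hX0.le (by positivity)
              apply pow_le_pow_right₀ hl1
              omega
      linarith
    have e5 : ∑ r ∈ Ioc R Q, (1 / (r.totient : ℝ)) * ∑ χ ∈ PC r, T r χ ≤ C2 * 5 * (X / l ^ (A + 1)) := by
      calc ∑ r ∈ Ioc R Q, (1 / (r.totient : ℝ)) * ∑ χ ∈ PC r, T r χ
          ≤ C2 * L * l ^ 3 * (X / R + X / √(U : ℝ) + X / √(V : ℝ) + Q * √(X : ℝ)) := e3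
        _ ≤ C2 * L * l ^ 3 * (5 * (X / l ^ B')) := by gcongr
        _ = C2 * 5 * (X / l ^ (A + 1)) := by
            rw [hL, hB']
            have : l ^ (A + k + 4) = l ^ (A + 1) * (l ^ k * l ^ 3) := by ring
            rw [this]
            field_simp
    -- small conductors
    set Z : ℝ := 2 * K * (X / l ^ E) * (L * l) with hZ
    have e6 : ∑ r ∈ Ioc 1 R, (1 / (r.totient : ℝ)) * ∑ χ ∈ PC r, T r χ ≤ R * Z := by
      apply sum_small R Z (by positivity)
      intro r hr1 hrR χ hχ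
      have hrD : (r : ℝ) ≤ l ^ D := (Nat.cast_le.mpr hrR).trans hRle
      have hsw := hSW r hr1 hrD χ hχ s hs.1 (hs.2.trans hQX)
      rw [hT]
      simp only
      have g1 : ∀ m ∈ Ioc 0 X, ‖∑ n ∈ Ioc 0 X, (if m * n ≤ y (r * s) then
          αs s m * βs s n * χ ((m * n : ℕ) : ZMod r) else 0)‖ ≤ ‖α m‖ / m * (K * (X / l ^ E)) := by
        intro m hm
        rw [mem_Ioc] at hm
        have hm0 : (0 : ℝ) < m := by exact_mod_cast hm.1
        rcases le_or_gt m V with hmV | hmV
        · have : αs s m = 0 := by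
            rw [hαs]
            simp only
            rw [hα m hmV]
            split_ifs <;> rfl
          rw [this, hα m hmV]
          simp
        · set z := y (r * s) / m with hz
          have hzX : z ≤ X / V := by
            calc z ≤ X / m := Nat.div_le_div_right (hy _)
              _ ≤ X / V := Nat.div_le_div_left hmV.le (by omega)
          have g2 : ∑ n ∈ Ioc 0 X, (if m * n ≤ y (r * s) then
              αs s m * βs s n * χ ((m * n : ℕ) : ZMod r) else 0)
              = (αs s m * χ m) * ∑ n ∈ Ioc 0 z, (if n.Coprime s then β n * χ n else 0) := by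
            rw [mul_sum, ← sum_filter]
            have hset : (Ioc 0 X).filter (fun n => m * n ≤ y (r * s)) = Ioc 0 z := by
              ext n
              simp only [mem_filter, mem_Ioc]
              rw [hz, Nat.le_div_iff_mul_le hm.1]
              constructor
              · rintro ⟨⟨h3, _⟩, h4⟩
                exact ⟨h3, by rwa [mul_comm]⟩
              · rintro ⟨h3, h4⟩
                refine ⟨⟨h3, ?_⟩, by rwa [mul_comm]⟩
                calc n ≤ n * m := Nat.le_mul_of_pos_right n hm.1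
                  _ ≤ y (r * s) := h4
                  _ ≤ X := hy _
            rw [hset]
            refine sum_congr rfl fun n _ => ?_
            rw [hβs]
            simp only
            push_cast
            rw [map_mul]
            split_ifs
            · ring
            · ring
          rw [g2, norm_mul, norm_mul]
          have g3 : ‖αs s m‖ ≤ ‖α m‖ := by
            rw [hαs]
            simp only
            split_ifs
            · exact le_rfl
            · rw [norm_zero]; exact norm_nonneg _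
          have g4 : ‖χ (m : ZMod r)‖ ≤ 1 := DirichletCharacter.norm_le_one χ _
          have g5 := hsw z hzX
          have g6 : (z : ℝ) ≤ X / m := by
            calc (z : ℝ) ≤ (y (r * s) : ℝ) / m := Nat.cast_div_le
              _ ≤ X / m := by
                  gcongr
                  exact hy _
          calc ‖αs s m‖ * ‖χ (m : ZMod r)‖ * ‖∑ n ∈ Ioc 0 z, (if n.Coprime s then β n * χ n else 0)‖
              ≤ ‖α m‖ * 1 * (K * (z / l ^ E)) := by gcongr
            _ ≤ ‖α m‖ * 1 * (K * ((X / m) / l ^ E)) := by gcongr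
            _ = _ := by field_simp
      calc ‖∑ m ∈ Ioc 0 X, ∑ n ∈ Ioc 0 X, (if m * n ≤ y (r * s) then
            αs s m * βs s n * χ ((m * n : ℕ) : ZMod r) else 0)‖
          ≤ ∑ m ∈ Ioc 0 X, ‖α m‖ / m * (K * (X / l ^ E)) :=
            (norm_sum_le _ _).trans (sum_le_sum g1)
        _ = (∑ m ∈ Ioc 0 X, ‖α m‖ / m) * (K * (X / l ^ E)) := by rw [sum_mul]
        _ ≤ (2 * (L * l)) * (K * (X / l ^ E)) := by
            gcongr
            have g7 : ∑ m ∈ Ioc 0 X, ‖α m‖ / m ≤ ∑ m ∈ Ioc 0 X, (‖α m‖ ^ 2 + 1) / 2 / m := by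
              refine sum_le_sum fun m _ => ?_
              gcongr
              nlinarith [sq_nonneg (‖α m‖ - 1)]
            have g8 : ∑ m ∈ Ioc 0 X, (‖α m‖ ^ 2 + 1) / 2 / (m : ℝ) ≤ L * ∑ m ∈ Ioc 0 X, 1 / (m : ℝ) := by
              apply sum_div_le
              intro M hM
              have g9 := hα2 M hM
              calc ∑ m ∈ Ioc 0 M, (‖α m‖ ^ 2 + 1) / 2 = ((∑ m ∈ Ioc 0 M, ‖α m‖ ^ 2) + M) / 2 := by
                    rw [← sum_div, sum_add_distrib, sum_const, Nat.card_Ioc, nsmul_eq_mul, Nat.sub_zero,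
                      mul_one]
                _ ≤ (L * M + L * M) / 2 := by
                    have : (0 : ℝ) ≤ M := Nat.cast_nonneg _
                    have : (M : ℝ) ≤ L * M := by nlinarith
                    gcongr
                _ = L * M := by ring
            have g9 := harmonic_le X
            have g10 : 1 + Real.log X ≤ 2 * l := by rw [← hl]; linarith
            calc ∑ m ∈ Ioc 0 X, ‖α m‖ / m ≤ L * ∑ m ∈ Ioc 0 X, 1 / (m : ℝ) := g7.trans g8
              _ ≤ L * (2 * l) := by gcongr; linarith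
              _ = _ := by ring
        _ = Z := by rw [hZ]; ring
    have e7 : (R : ℝ) * Z ≤ 2 * K * (X / l ^ (A + 1)) := by
      calc (R : ℝ) * Z ≤ l ^ D * Z := by gcongr
        _ = 2 * K * (X / l ^ (A + 1)) := by
            rw [hZ, hL, hE]
            have : l ^ (A + D + k + 2) = l ^ (A + 1) * (l ^ D * (l ^ k * l)) := by ring
            rw [this]
            field_simp
    calc _ ≤ R * Z + C2 * 5 * (X / l ^ (A + 1)) := e2.trans (add_le_add e6 e5)
      _ ≤ 2 * K * (X / l ^ (A + 1)) + C2 * 5 * (X / l ^ (A + 1)) := by gcongr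
      _ = _ := by ring
  have h3 : ∑ s ∈ Ioc 0 Q, 1 / (s.totient : ℝ) ≤ C1 * l := by
    refine le_trans ?_ (hphi X (by omega))
    apply sum_le_sum_of_subset_of_nonneg
    · intro s hs
      rw [mem_Ioc] at hs ⊢
      omega
    · intro s _ _
      positivity
  calc ∑ q ∈ Ioc 0 Q, ‖Err f (y q) q (a q)‖ ≤ _ := h1
    _ ≤ ∑ s ∈ Ioc 0 Q, (1 / (s.totient : ℝ)) * ((C2 * 5 + 2 * K) * (X / l ^ (A + 1))) := by
        refine sum_le_sum fun s hs => ?_
        apply mul_le_mul_of_nonneg_left (hkey s hs) (by positivity)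
    _ = (∑ s ∈ Ioc 0 Q, 1 / (s.totient : ℝ)) * ((C2 * 5 + 2 * K) * (X / l ^ (A + 1))) := by
        rw [sum_mul]
    _ ≤ (C1 * l) * ((C2 * 5 + 2 * K) * (X / l ^ (A + 1))) := by gcongr
    _ = C1 * (C2 * 5 + 2 * K) * (X / l ^ A) := by
        rw [pow_succ]
        field_simp

end Pool.Agent.BV
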