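import Pool.Agent.Work.BV.Interface
import Pool.Agent.Work.SW.Walfisz

/-!
# Siegel–Walfisz for primes, in the form of the hypothesis of the bilinear theorem
-/

set_option autoImplicit false

namespace Pool.Agent.BV

open Finset ArithmeticFunction
open scoped Classical

/-- SWP: Siegel–Walfisz for the primes `> U`, `U ≥ X^(1/κ)`. -/
def Stmt_SWP : Prop := ∀ D E κ : ℕ, 1 ≤ κ → ∃ K : ℝ, 0 < K ∧ ∀ X : ℕ, 3 ≤ X → ∀ r : ℕ, 1 < r →
  (r : ℝ) ≤ (Real.log X) ^ D → ∀ χ ∈ PC r, ∀ s : ℕ, 1 ≤ s → s ≤ X → ∀ U : ℕ, X ≤ U ^ κ →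
  ∀ z ≤ X, ‖∑ n ∈ Ioc 0 z, (if n.Coprime s then (if n.Prime ∧ U < n then (1 : ℂ) else 0) * χ n
    else 0)‖ ≤ K * (z / (Real.log X) ^ E)

/-- Abel summation with decreasing weights. -/
lemma abel_dec (c : ℕ → ℂ) (w : ℕ → ℝ) (U z : ℕ) (hUz : U < z) (M : ℝ)
    (hw : ∀ n, U < n → n < z → w (n + 1) ≤ w n) (hw0 : 0 ≤ w z)
    (hc : ∀ y, U ≤ y → y ≤ z → ‖∑ n ∈ Ioc U y, c n‖ ≤ M) :
    ‖∑ n ∈ Ioc U z, (w n : ℂ) * c n‖ ≤ w (U + 1) * M := by
  have key : ∀ y, U + 1 ≤ y → y ≤ z → ‖∑ n ∈ Ioc U y, (w n : ℂ) * c n - (w y : ℂ) * ∑ n ∈ Ioc U y, c n‖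
      ≤ (w (U + 1) - w y) * M := by
    intro y hy
    induction y, hy using Nat.le_induction with
    | base =>
      intro _
      rw [Finset.sum_Ioc_succ_top le_rfl, Finset.sum_Ioc_succ_top le_rfl]
      simp
    | succ y hy ih =>
      intro hyz
      have h1 := ih (by omega)
      rw [Finset.sum_Ioc_succ_top (by omega : U ≤ y), Finset.sum_Ioc_succ_top (by omega : U ≤ y)]
      have h2 : ∑ n ∈ Ioc U y, (w n : ℂ) * c n + (w (y + 1) : ℂ) * c (y + 1)
          - (w (y + 1) : ℂ) * (∑ n ∈ Ioc U y, c n + c (y + 1))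
          = (∑ n ∈ Ioc U y, (w n : ℂ) * c n - (w y : ℂ) * ∑ n ∈ Ioc U y, c n)
            + ((w y - w (y + 1) : ℝ) : ℂ) * ∑ n ∈ Ioc U y, c n := by
        push_cast
        ring
      rw [h2]
      refine (norm_add_le _ _).trans ?_
      rw [norm_mul, Complex.norm_real, Real.norm_eq_abs, abs_of_nonneg (by
        have := hw y (by omega) (by omega)
        linarith)]
      have h3 := hc y (by omega) (by omega)
      have h4 : 0 ≤ w y - w (y + 1) := by
        have := hw y (by omega) (by omega)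
        linarith
      nlinarith
  have h1 := key z (by omega) le_rfl
  have h2 := hc z hUz.le le_rfl
  calc ‖∑ n ∈ Ioc U z, (w n : ℂ) * c n‖
      = ‖(∑ n ∈ Ioc U z, (w n : ℂ) * c n - (w z : ℂ) * ∑ n ∈ Ioc U z, c n)
          + (w z : ℂ) * ∑ n ∈ Ioc U z, c n‖ := by congr 1; ring
    _ ≤ (w (U + 1) - w z) * M + w z * M := by
        refine (norm_add_le _ _).trans (add_le_add h1 ?_)
        rw [norm_mul, Complex.norm_real, Real.norm_eq_abs, abs_of_nonneg hw0]
        gcongr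
    _ = _ := by ring

theorem SWP : Stmt_SWP := by
  intro D E κ hκ
  obtain ⟨C, hC, hsw⟩ := Pool.Agent.SW.siegel_walfisz E (D + 1)
  set K1 : ℝ := (2 * (((E + 1 : ℕ) : ℝ) + 1)) ^ (E + 1) with hK1
  set K2 : ℝ := (2 * (((E + 2 : ℕ) : ℝ) + 1)) ^ (E + 2) with hK2
  have hK10 : 0 < K1 := by positivity
  have hK20 : 0 < K2 := by positivity
  have hκ0 : (0 : ℝ) < κ := by exact_mod_cast hκ
  have hκ1 : (1 : ℝ) ≤ κ := by exact_mod_cast hκ
  refine ⟨2 * κ * (C + 2 * K1 + 6 * κ * K2) * κ ^ E + (κ ^ (D + 1)) ^ E, by positivity, ?_⟩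
  intro X hX r hr hrD χ hχ s hs hsX U hU z hz
  have hX3 : (3 : ℝ) ≤ X := by exact_mod_cast hX
  set l := Real.log X with hl
  have hl1 : 1 ≤ l := by
    rw [hl, Real.le_log_iff_exp_le (by linarith)]
    have := Real.exp_one_lt_d9
    linarith
  have hl0 : 0 < l := by linarith
  have hzr : (0 : ℝ) ≤ z := Nat.cast_nonneg _
  have hzl : 0 ≤ (z : ℝ) / l ^ E := by positivity
  have : NeZero r := ⟨by omega⟩
  have hχ1 : χ ≠ 1 := by
    intro h
    unfold PC at hχ
    rw [mem_filter] at hχ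
    have h2 := hχ.2
    rw [DirichletCharacter.isPrimitive_def, h, DirichletCharacter.conductor_one] at h2
    omega
  have hchi : ∀ x : ZMod r, ‖χ x‖ ≤ 1 := fun x => DirichletCharacter.norm_le_one χ x
  -- trivial bound
  have htriv : ‖∑ n ∈ Ioc 0 z, (if n.Coprime s then (if n.Prime ∧ U < n then (1 : ℂ) else 0) * χ n
    else 0)‖ ≤ z := by
    calc _ ≤ ∑ n ∈ Ioc 0 z, (1 : ℝ) := by
          refine norm_sum_le_of_le _ fun n _ => ?_
          split_ifs
          · rw [one_mul]; exact hchi _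
          · simp
          · simp
      _ = z := by simp
  rcases le_or_gt l ((κ : ℝ) ^ (D + 1)) with hsmall | hbig
  · refine htriv.trans ?_
    have h1 : (z : ℝ) ≤ (κ ^ (D + 1)) ^ E * (z / l ^ E) := by
      have h2 : l ^ E ≤ ((κ : ℝ) ^ (D + 1)) ^ E := pow_le_pow_left₀ hl0.le hsmall E
      calc (z : ℝ) = l ^ E * (z / l ^ E) := by field_simp
        _ ≤ _ := mul_le_mul_of_nonneg_right h2 hzl
    have h2 : 0 ≤ 2 * κ * (C + 2 * K1 + 6 * κ * K2) * κ ^ E * (z / l ^ E) := by positivity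
    nlinarith
  -- empty sum
  rcases le_or_gt z U with hzU | hzU
  · have : ∑ n ∈ Ioc 0 z, (if n.Coprime s then (if n.Prime ∧ U < n then (1 : ℂ) else 0) * χ n
      else 0) = 0 := by
      refine sum_eq_zero fun n hn => ?_
      rw [mem_Ioc] at hn
      rw [if_neg (fun h : n.Prime ∧ U < n => by omega)]
      simp
    rw [this, norm_zero]
    positivity
  -- the main case
  have hU2 : 2 ≤ U := by
    by_contra hcon
    have h1 : U ≤ 1 := by omega
    have h2 : U ^ κ ≤ 1 := Nat.pow_le_one_iff (by omega) |>.mpr h1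
    omega
  have hlog : ∀ y : ℕ, U ≤ y → l ≤ κ * Real.log y := by
    intro y hy
    have h1 : (X : ℝ) ≤ (y : ℝ) ^ κ := by
      calc (X : ℝ) ≤ (U : ℝ) ^ κ := by exact_mod_cast hU
        _ ≤ (y : ℝ) ^ κ := by
            apply pow_le_pow_left₀ (Nat.cast_nonneg _)
            exact_mod_cast hy
    rw [hl, ← Real.log_pow]
    exact Real.log_le_log (by linarith) h1
  set f : ℕ → ℂ := fun n => if n.Coprime s then χ n else 0 with hf
  have hf1 : ∀ n, ‖f n‖ ≤ 1 := by
    intro n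
    rw [hf]
    simp only
    split_ifs
    · exact hchi _
    · simp
  set c : ℕ → ℂ := fun n => if n.Prime then (Real.log n : ℂ) * f n else 0 with hc
  set M : ℝ := (C + 2 * K1 + 6 * κ * K2) * κ ^ E * (z / l ^ E) with hM
  have hP : ∀ y, U ≤ y → y ≤ z → ‖∑ n ∈ Ioc 0 y, c n‖ ≤ M := by
    intro y hUy hyz
    have hy2 : (2 : ℝ) ≤ y := by exact_mod_cast hU2.trans hUy
    have hy0 : (0 : ℝ) < y := by linarith
    set ly := Real.log y with hly
    have hly0 : 0 < ly := Real.log_pos (by linarith)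
    have hlly : l ≤ κ * ly := hlog y hUy
    have hlyl : ly ≤ l := by
      rw [hly, hl]
      apply Real.log_le_log hy0
      exact_mod_cast hyz.trans hz
    -- Siegel–Walfisz
    have hrY : (r : ℝ) ≤ ly ^ (D + 1) := by
      have h1 : l ^ D ≤ (κ * ly) ^ D := pow_le_pow_left₀ hl0.le hlly D
      have h2 : (κ : ℝ) ^ D ≤ ly := by
        have h3 : (κ : ℝ) ^ (D + 1) ≤ κ * ly := hbig.le.trans hlly
        rw [pow_succ, mul_comm] at h3
        exact le_of_mul_le_mul_left h3 hκ0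
      calc (r : ℝ) ≤ l ^ D := hrD
        _ ≤ (κ * ly) ^ D := h1
        _ = κ ^ D * ly ^ D := mul_pow _ _ _
        _ ≤ ly * ly ^ D := by gcongr
        _ = _ := by ring
    have h1 := hsw r χ hχ1 (y : ℝ) hy2 hrY
    rw [Nat.floor_natCast] at h1
    have h2 := Pool.Agent.SW.psi_close y s (by omega) f (fun n => χ n) hf1 (fun n => hchi _)
      (fun n hn => by rw [hf]; simp only; rw [if_pos hn])
    have h3 : ‖∑ n ∈ Ioc 0 y, c n - ∑ n ∈ Ioc 0 y, (Λ n : ℂ) * f n‖ ≤ 2 * √(y : ℝ) * ly := by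
      have h4 := Chebyshev.psi_sub_theta_le (x := (y : ℝ)) (by linarith)
      rw [Chebyshev.psi_sub_theta_eq_sum_not_prime, Nat.floor_natCast] at h4
      refine le_trans ?_ h4
      rw [← sum_sub_distrib, sum_filter]
      refine norm_sum_le_of_le _ fun n _ => ?_
      rw [hc]
      simp only
      by_cases hn : n.Prime
      · rw [if_pos hn, if_neg (not_not.mpr hn), vonMangoldt_apply_prime hn, sub_self, norm_zero]
      · rw [if_neg hn, if_pos hn, zero_sub, norm_neg, norm_mul, Complex.norm_real, Real.norm_eq_abs,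
          abs_of_nonneg vonMangoldt_nonneg]
        calc Λ n * ‖f n‖ ≤ Λ n * 1 := mul_le_mul_of_nonneg_left (hf1 n) vonMangoldt_nonneg
          _ = _ := mul_one _
    have h4 : ‖∑ n ∈ Ioc 0 y, c n‖ ≤ C * (y / ly ^ E) + 2 * (Real.log s * ly / Real.log 2)
        + 2 * √(y : ℝ) * ly := by
      calc ‖∑ n ∈ Ioc 0 y, c n‖ = ‖(∑ n ∈ Ioc 0 y, c n - ∑ n ∈ Ioc 0 y, (Λ n : ℂ) * f n)
            + ((∑ n ∈ Ioc 0 y, (Λ n : ℂ) * f n - ∑ n ∈ Ioc 0 y, (Λ n : ℂ) * χ n)
            + ∑ n ∈ Ioc 0 y, (Λ n : ℂ) * χ n)‖ := by congr 1; ring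
        _ ≤ 2 * √(y : ℝ) * ly + (2 * (Real.log s * ly / Real.log 2) + C * (y / ly ^ E)) :=
          (norm_add_le _ _).trans (add_le_add h3 ((norm_add_le _ _).trans (add_le_add h2 h1)))
        _ = _ := by ring
    have h5 : 2 * √(y : ℝ) * ly ≤ 2 * K1 * (y / ly ^ E) := by
      have h6 := Pool.Agent.SW.log_pow_le_sqrt (E + 1) y (by linarith)
      rw [← hK1] at h6
      have h7 : √(y : ℝ) * ly * ly ^ E ≤ K1 * y := by
        calc √(y : ℝ) * ly * ly ^ E = √(y : ℝ) * ly ^ (E + 1) := by ring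
          _ ≤ √(y : ℝ) * (K1 * √(y : ℝ)) := by gcongr
          _ = K1 * (√(y : ℝ) * √(y : ℝ)) := by ring
          _ = K1 * y := by rw [Real.mul_self_sqrt hy0.le]
      have h8 : √(y : ℝ) * ly ≤ K1 * y / ly ^ E := by
        rw [le_div_iff₀ (by positivity)]
        exact h7
      calc 2 * √(y : ℝ) * ly = 2 * (√(y : ℝ) * ly) := by ring
        _ ≤ 2 * (K1 * y / ly ^ E) := by gcongr
        _ = _ := by ring
    have h6 : 2 * (Real.log s * ly / Real.log 2) ≤ 6 * κ * K2 * (y / ly ^ E) := by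
      have a1 : Real.log s ≤ κ * ly := by
        refine le_trans ?_ hlly
        rw [hl]
        apply Real.log_le_log
        · exact_mod_cast hs
        · exact_mod_cast hsX
      have a2 : 1 / 2 ≤ Real.log 2 := by
        have h1 := Real.log_two_gt_d9
        linarith
      have h7 := Pool.Agent.SW.log_pow_le_sqrt (E + 2) y (by linarith)
      rw [← hK2] at h7
      have h8 : ly ^ 2 * ly ^ E ≤ K2 * y := by
        calc ly ^ 2 * ly ^ E = ly ^ (E + 2) := by ring
          _ ≤ K2 * √(y : ℝ) := h7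
          _ ≤ K2 * y := by
              gcongr
              rw [Real.sqrt_le_left hy0.le]
              nlinarith
      have h9 : ly ^ 2 ≤ K2 * y / ly ^ E := by
        rw [le_div_iff₀ (by positivity)]
        exact h8
      have hlogs : 0 ≤ Real.log s := Real.log_natCast_nonneg s
      calc 2 * (Real.log s * ly / Real.log 2) ≤ 2 * ((κ * ly) * ly / (1 / 2)) := by gcongr
        _ = 4 * κ * ly ^ 2 := by ring
        _ ≤ 6 * κ * ly ^ 2 := by gcongr; norm_num
        _ ≤ 6 * κ * (K2 * y / ly ^ E) := by gcongr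
        _ = _ := by ring
    have h7 : (y : ℝ) / ly ^ E ≤ κ ^ E * (z / l ^ E) := by
      rw [div_le_iff₀ (by positivity)]
      have h8 : l ^ E ≤ (κ * ly) ^ E := pow_le_pow_left₀ hl0.le hlly E
      have h9 : (y : ℝ) ≤ z := by exact_mod_cast hyz
      calc (y : ℝ) ≤ z := h9
        _ = l ^ E * (z / l ^ E) := by field_simp
        _ ≤ (κ * ly) ^ E * (z / l ^ E) := by gcongr
        _ = _ := by rw [mul_pow]; ring
    calc ‖∑ n ∈ Ioc 0 y, c n‖ ≤ C * (y / ly ^ E) + 6 * κ * K2 * (y / ly ^ E) + 2 * K1 * (y / ly ^ E) := by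
          linarith
      _ = (C + 2 * K1 + 6 * κ * K2) * (y / ly ^ E) := by ring
      _ ≤ (C + 2 * K1 + 6 * κ * K2) * (κ ^ E * (z / l ^ E)) := by gcongr
      _ = M := by rw [hM]; ring
  have hsum : ∑ n ∈ Ioc 0 z, (if n.Coprime s then (if n.Prime ∧ U < n then (1 : ℂ) else 0) * χ n
      else 0) = ∑ n ∈ Ioc U z, ((1 / Real.log n : ℝ) : ℂ) * c n := by
    rw [← sum_subset (s₁ := Ioc U z) (s₂ := Ioc 0 z)]
    · refine sum_congr rfl fun n hn => ?_
      rw [mem_Ioc] at hn
      rw [hc, hf]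
      simp only
      by_cases hp : n.Prime
      · rw [if_pos hp, if_pos (show n.Prime ∧ U < n from ⟨hp, hn.1⟩)]
        have : (Real.log n : ℂ) ≠ 0 := by
          have : 0 < Real.log n := Real.log_pos (by exact_mod_cast hp.one_lt)
          exact_mod_cast this.ne'
        split_ifs
        · rw [Complex.ofReal_div, Complex.ofReal_one]
          field_simp
        · ring
      · rw [if_neg hp, if_neg (fun h : n.Prime ∧ U < n => hp h.1)]
        split_ifs
        · ring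
        · ring
    · intro n hn
      rw [mem_Ioc] at hn ⊢
      omega
    · intro n hn hn'
      rw [mem_Ioc] at hn hn'
      rw [if_neg (fun h : n.Prime ∧ U < n => by omega)]
      simp
  rw [hsum]
  have hM0 : 0 ≤ M := by rw [hM]; positivity
  have h1 := abel_dec c (fun n => 1 / Real.log n) U z hzU (2 * M) (by
      intro n hn _
      apply one_div_le_one_div_of_le
      · apply Real.log_pos
        exact_mod_cast (by omega : 1 < n)
      · apply Real.log_le_log
        · exact_mod_cast (by omega : 0 < n)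
        · push_cast; linarith) (by
      apply one_div_nonneg.mpr
      exact Real.log_natCast_nonneg z) (by
      intro y hy hyz
      have h2 : ∑ n ∈ Ioc U y, c n = ∑ n ∈ Ioc 0 y, c n - ∑ n ∈ Ioc 0 U, c n := by
        rw [← Finset.sum_Ioc_consecutive c (Nat.zero_le U) hy]
        ring
      rw [h2]
      calc _ ≤ M + M := (norm_sub_le _ _).trans (add_le_add (hP y hy hyz) (hP U le_rfl hzU.le))
        _ = 2 * M := by ring)
  refine h1.trans ?_
  have h2 : 1 / Real.log ((U + 1 : ℕ) : ℝ) ≤ κ := by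
    have h3 := hlog (U + 1) (by omega)
    have h4 : 0 < Real.log ((U + 1 : ℕ) : ℝ) := Real.log_pos (by exact_mod_cast (by omega : 1 < U + 1))
    rw [div_le_iff₀ h4]
    linarith
  calc 1 / Real.log ((U + 1 : ℕ) : ℝ) * (2 * M) ≤ κ * (2 * M) := by gcongr
    _ = 2 * κ * (C + 2 * K1 + 6 * κ * K2) * κ ^ E * (z / l ^ E) := by rw [hM]; ring
    _ ≤ _ := by
        have : 0 ≤ ((κ : ℝ) ^ (D + 1)) ^ E * (z / l ^ E) := by positivity
        nlinarith

end Pool.Agent.BV
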