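import Pool.Agent.Work.BV.BVB
import Pool.Agent.Work.BV.SWP

/-!
# The bilinear Bombieri–Vinogradov theorem with primes as one of the variables
-/

set_option autoImplicit false

namespace Pool.Agent.BV

open Finset ArithmeticFunction
open scoped Classical

/-- BVBP: `α` general on `m > V`, the second variable runs over the primes in `(U, W]`,
`U ≥ X^(1/κ)`. -/
def Stmt_BVBP : Prop := ∀ (A k κ : ℕ), 1 ≤ κ → ∃ (B : ℕ) (C : ℝ) (X₀ : ℕ), 0 < C ∧ 3 ≤ X₀ ∧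
  ∀ (X : ℕ), X₀ ≤ X → ∀ (Q U V : ℕ), (Q : ℝ) ≤ √(X : ℝ) / (Real.log X) ^ B →
  X ≤ U ^ κ → (Real.log X) ^ B ≤ V →
  ∀ (α : ℕ → ℂ), (∀ m ≤ V, α m = 0) →
  (∀ M ≤ X, ∑ m ∈ Ioc 0 M, ‖α m‖ ^ 2 ≤ (Real.log X) ^ k * M) →
  ∀ (W : ℕ) (y : ℕ → ℕ), (∀ q, y q ≤ X) → ∀ (a : (q : ℕ) → ZMod q), (∀ q, IsUnit (a q)) →
  ∑ q ∈ Ioc 0 Q, ‖Err (fun l => ∑ x ∈ l.divisorsAntidiagonal,
      α x.1 * (if x.2.Prime ∧ U < x.2 ∧ x.2 ≤ W then 1 else 0)) (y q) q (a q)‖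
    ≤ C * (X / (Real.log X) ^ A)

theorem BVBP (hBVB : Stmt_BVB) : Stmt_BVBP := by
  intro A k κ hκ
  obtain ⟨B, D, E, h⟩ := hBVB A k
  obtain ⟨K, hK, hsw⟩ := SWP D E κ hκ
  obtain ⟨C, hC, h1⟩ := h K hK
  set C' : ℝ := (2 * (((κ * B : ℕ) : ℝ) + 1)) ^ (κ * B) with hC'
  have hC'0 : 0 < C' := by positivity
  refine ⟨B, C, max 3 ⌈C' ^ 2⌉₊, hC, le_max_left _ _, ?_⟩
  intro X hX Q U V hQ hU hV α hα hα2 W y hy a ha
  have hX3 : 3 ≤ X := (le_max_left _ _).trans hX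
  have hXC : C' ^ 2 ≤ X := by
    calc C' ^ 2 ≤ (⌈C' ^ 2⌉₊ : ℝ) := Nat.le_ceil _
      _ ≤ X := by exact_mod_cast (le_max_right _ _).trans hX
  have hXr : (3 : ℝ) ≤ X := by exact_mod_cast hX3
  set l := Real.log X with hl
  have hl1 : 1 ≤ l := by
    rw [hl, Real.le_log_iff_exp_le (by linarith)]
    have := Real.exp_one_lt_d9
    linarith
  have hlB : 1 ≤ l ^ B := one_le_pow₀ hl1
  have hUB : l ^ B ≤ (U : ℝ) := by
    have h2 := Pool.Agent.SW.log_pow_le_sqrt (κ * B) X (by linarith)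
    rw [← hC', ← hl] at h2
    have h3 : C' ≤ √(X : ℝ) := by
      rw [Real.le_sqrt hC'0.le (by linarith)]
      exact hXC
    have h4 : l ^ (κ * B) ≤ X := by
      calc l ^ (κ * B) ≤ C' * √(X : ℝ) := h2
        _ ≤ √(X : ℝ) * √(X : ℝ) := by gcongr
        _ = X := Real.mul_self_sqrt (by linarith)
    have h5 : (l ^ B) ^ κ ≤ (U : ℝ) ^ κ := by
      calc (l ^ B) ^ κ = l ^ (κ * B) := by rw [← pow_mul, mul_comm]
        _ ≤ X := h4
        _ ≤ (U : ℝ) ^ κ := by exact_mod_cast hU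
    exact le_of_pow_le_pow_left₀ (by omega) (Nat.cast_nonneg _) h5
  have hU1 : 1 ≤ U := by
    have : (1 : ℝ) ≤ U := hlB.trans hUB
    exact_mod_cast this
  have hV1 : 1 ≤ V := by
    have : (1 : ℝ) ≤ V := hlB.trans hV
    exact_mod_cast this
  set β : ℕ → ℂ := fun n => if n.Prime ∧ U < n ∧ n ≤ W then (1 : ℂ) else 0 with hβ
  have hβ0 : ∀ n ≤ U, β n = 0 := by
    intro n hn
    rw [hβ]
    simp only
    rw [if_neg (fun h => by omega)]
  have hβ2 : ∀ N ≤ X, ∑ n ∈ Ioc 0 N, ‖β n‖ ^ 2 ≤ (Real.log X) ^ k * N := by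
    intro N _
    have hlk : 1 ≤ l ^ k := one_le_pow₀ hl1
    calc ∑ n ∈ Ioc 0 N, ‖β n‖ ^ 2
        ≤ ∑ n ∈ Ioc 0 N, (1 : ℝ) := by
          refine sum_le_sum fun n _ => ?_
          rw [hβ]
          simp only
          split_ifs <;> simp
      _ = N := by simp
      _ ≤ l ^ k * N := by
          have : (0 : ℝ) ≤ N := Nat.cast_nonneg _
          nlinarith
  have hβs : ∀ r : ℕ, 1 < r → (r : ℝ) ≤ (Real.log X) ^ D → ∀ χ ∈ PC r, ∀ s : ℕ, 1 ≤ s → s ≤ X →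
      ∀ z ≤ X / V, ‖∑ n ∈ Ioc 0 z, (if n.Coprime s then β n * χ n else 0)‖
      ≤ K * (z / (Real.log X) ^ E) := by
    intro r hr hrD χ hχ s hs hsX z hz
    have hzX : z ≤ X := hz.trans (Nat.div_le_self _ _)
    have h2 := hsw X hX3 r hr hrD χ hχ s hs hsX U hU (min z W) ((min_le_left _ _).trans hzX)
    have h3 : ∑ n ∈ Ioc 0 z, (if n.Coprime s then β n * χ n
        else 0) = ∑ n ∈ Ioc 0 (min z W), (if n.Coprime s then (if n.Prime ∧ U < n then (1 : ℂ) else 0) * χ n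
        else 0) := by
      symm
      have hsub : Ioc 0 (min z W) ⊆ Ioc 0 z := by
        intro n hn
        rw [mem_Ioc] at hn ⊢
        exact ⟨hn.1, hn.2.trans (min_le_left _ _)⟩
      rw [← sum_subset hsub]
      · refine sum_congr rfl fun n hn => ?_
        rw [mem_Ioc] at hn
        have : n ≤ W := hn.2.trans (min_le_right _ _)
        rw [hβ]
        simp only [this, and_true]
      · intro n hn hn'
        rw [mem_Ioc] at hn hn'
        rw [hβ]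
        simp only
        rw [if_neg (fun h : n.Prime ∧ U < n ∧ n ≤ W => by
          apply hn'
          exact ⟨hn.1, le_min hn.2 h.2.2⟩)]
        simp
    rw [h3]
    refine h2.trans ?_
    have h4 : ((min z W : ℕ) : ℝ) ≤ z := by exact_mod_cast min_le_left z W
    gcongr
  exact h1 X hX3 Q U V hQ hUB hV hU1 hV1 α β hα hβ0 hα2 hβ2 hβs y hy a ha

end Pool.Agent.BV
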