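import Pool.Agent.Work.BV.Interface
import Pool.Agent.Work.SW.AP

/-! BVL: Bombieri–Vinogradov for `Λ` against the mean over the reduced classes. -/

set_option autoImplicit false

namespace Pool.Agent.BV

open Finset ArithmeticFunction
open scoped Classical

namespace Bvl

theorem norm_err_trivial (f : ℕ → ℂ) (X q : ℕ) (hq : 0 < q) (a : ZMod q) :
    ‖Err f X q a‖ ≤ 2 * ∑ n ∈ Ioc 0 X, ‖f n‖ := by
  have h1 : ‖∑ n ∈ (Ioc 0 X).filter (fun n : ℕ => (n : ZMod q) = a), f n‖ ≤ ∑ n ∈ Ioc 0 X, ‖f n‖ :=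
    (norm_sum_le _ _).trans (sum_le_sum_of_subset_of_nonneg (filter_subset _ _) fun _ _ _ => norm_nonneg _)
  have h2 : ‖∑ n ∈ (Ioc 0 X).filter (fun n : ℕ => n.Coprime q), f n‖ ≤ ∑ n ∈ Ioc 0 X, ‖f n‖ :=
    (norm_sum_le _ _).trans (sum_le_sum_of_subset_of_nonneg (filter_subset _ _) fun _ _ _ => norm_nonneg _)
  have hφ : (1 : ℝ) ≤ q.totient := by exact_mod_cast Nat.totient_pos.mpr hq
  have h3 : ‖(1 / (q.totient : ℂ)) * ∑ n ∈ (Ioc 0 X).filter (fun n : ℕ => n.Coprime q), f n‖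
      ≤ ∑ n ∈ Ioc 0 X, ‖f n‖ := by
    rw [norm_mul, norm_div, norm_one, Complex.norm_natCast]
    refine (mul_le_of_le_one_left (norm_nonneg _) ?_).trans h2
    rw [div_le_one (by linarith)]
    exact hφ
  calc ‖Err f X q a‖ ≤ _ := norm_sub_le _ _
    _ ≤ _ := by linarith

theorem log_pow_le (j : ℕ) : ∃ K : ℝ, 0 < K ∧ ∀ x : ℝ, 1 ≤ x →
    (Real.log x) ^ j ≤ K * x ^ (1 / 20 : ℝ) := by
  refine ⟨(20 * ((j : ℝ) + 1)) ^ j, by positivity, ?_⟩
  intro x hx
  have hx0 : 0 < x := by linarith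
  have hε : (0 : ℝ) < 1 / (20 * ((j : ℝ) + 1)) := by positivity
  have h1 := Real.log_le_rpow_div hx0.le hε
  have h2 : Real.log x ≤ (20 * ((j : ℝ) + 1)) * x ^ (1 / (20 * ((j : ℝ) + 1))) := by
    refine h1.trans (le_of_eq ?_)
    field_simp
  calc (Real.log x) ^ j ≤ ((20 * ((j : ℝ) + 1)) * x ^ (1 / (20 * ((j : ℝ) + 1)))) ^ j :=
        pow_le_pow_left₀ (Real.log_nonneg hx) h2 j
    _ = (20 * ((j : ℝ) + 1)) ^ j * x ^ (1 / (20 * ((j : ℝ) + 1)) * j) := by
        rw [mul_pow, ← Real.rpow_natCast (x ^ _) j, ← Real.rpow_mul hx0.le]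
    _ ≤ (20 * ((j : ℝ) + 1)) ^ j * x ^ (1 / 20 : ℝ) := by
        gcongr
        rw [div_mul_eq_mul_div, div_le_div_iff₀ (by positivity) (by positivity)]
        linarith

theorem card_PC_le (r : ℕ) (hr : 0 < r) : ((PC r).card : ℝ) ≤ r.totient := by
  have : NeZero r := ⟨by omega⟩
  have h1 : (PC r).card ≤ (univ : Finset (DirichletCharacter ℂ r)).card := card_le_card (filter_subset _ _)
  have h2 := DirichletCharacter.card_eq_totient_of_hasEnoughRootsOfUnity ℂ r
  rw [Nat.card_eq_fintype_card, ← card_univ] at h2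
  have h3 : (PC r).card ≤ r.totient := by
    refine h1.trans (le_of_eq ?_)
    convert h2
  exact_mod_cast h3

theorem sum_le_card (R Q : ℕ) (f : (r : ℕ) → DirichletCharacter ℂ r → ℝ) (K : ℝ) (hK : 0 ≤ K)
    (hf : ∀ r, R < r → r ≤ Q → ∀ χ ∈ PC r, f r χ ≤ K) :
    ∑ r ∈ Ioc R Q, (1 / (r.totient : ℝ)) * ∑ χ ∈ PC r, f r χ ≤ Q * K := by
  have h1 : ∀ r ∈ Ioc R Q, (1 / (r.totient : ℝ)) * ∑ χ ∈ PC r, f r χ ≤ K := by
    intro r hr
    rw [mem_Ioc] at hr
    have hr0 : 0 < r := by omega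
    have hφ : (0 : ℝ) < r.totient := by exact_mod_cast Nat.totient_pos.mpr hr0
    have h2 : ∑ χ ∈ PC r, f r χ ≤ (r.totient : ℝ) * K := by
      calc ∑ χ ∈ PC r, f r χ ≤ ∑ χ ∈ PC r, K := sum_le_sum fun χ hχ => hf r hr.1 hr.2 χ hχ
        _ = ((PC r).card : ℝ) * K := by rw [sum_const, nsmul_eq_mul]
        _ ≤ _ := mul_le_mul_of_nonneg_right (card_PC_le r hr0) hK
    calc (1 / (r.totient : ℝ)) * ∑ χ ∈ PC r, f r χ ≤ (1 / (r.totient : ℝ)) * ((r.totient : ℝ) * K) :=
          mul_le_mul_of_nonneg_left h2 (by positivity)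
      _ = K := by field_simp
  refine (sum_le_sum h1).trans ?_
  rw [sum_const, nsmul_eq_mul, Nat.card_Ioc]
  gcongr
  exact Nat.sub_le Q R

end Bvl

open Bvl in
theorem stmt_BVL (hRED : Stmt_RED) (hPHI : Stmt_PHI) (hSM : Stmt_SM) (hMV : Stmt_MV) : Stmt_BVL := by
  intro A
  obtain ⟨Cφ, hCφ, hφs⟩ := hPHI
  obtain ⟨C1, hC1, hsm⟩ := hSM (A + (A + 9) + 1) (A + 9)
  obtain ⟨C2, hC2, hmv⟩ := hMV
  obtain ⟨K1, hK1, hlog1⟩ := log_pow_le (A + 9)
  obtain ⟨K2, hK2, hlog2⟩ : ∃ K : ℝ, 0 < K ∧ ∀ X : ℝ, 1 ≤ X →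
      (Real.log X) ^ (A + 3) ≤ K * √X := by
    refine ⟨_, ?_, fun X hX => SW.log_pow_le_sqrt (A + 3) X hX⟩
    positivity
  set B := A + 9 with hB
  refine ⟨B, 18 * 2 ^ B * 3 ^ A + Cφ * (C1 + C2 * (3 + 2 * K1) + 2 * K2), by positivity, ?_⟩
  intro X hX Q hQ y hy a ha
  have hXr : (2 : ℝ) ≤ X := by exact_mod_cast hX
  set L : ℝ := Real.log X with hL
  have hL2 : 1 / 2 ≤ L := by
    have h1 := Real.log_two_gt_d9
    have h2 : Real.log 2 ≤ Real.log X := Real.log_le_log (by norm_num) hXr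
    linarith
  have hL0 : 0 < L := by linarith
  have hLA : 0 < L ^ A := by positivity
  have hXA : 0 ≤ X / L ^ A := by positivity
  have hlogle : ∀ m : ℕ, m ≤ X → Real.log m ≤ L := by
    intro m hm
    rcases Nat.eq_zero_or_pos m with rfl | hm0
    · simp only [Nat.cast_zero, Real.log_zero]
      exact hL0.le
    · exact Real.log_le_log (by exact_mod_cast hm0) (by exact_mod_cast hm)
  have hsq : √(X : ℝ) * √X = X := Real.mul_self_sqrt (by linarith)
  have hsq1 : 1 ≤ √(X : ℝ) := Real.one_le_sqrt.mpr (by linarith)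
  rcases lt_or_ge X 8 with hX8 | hX8
  · -- small `X`
    have hX8r : (X : ℝ) ≤ 8 := by exact_mod_cast hX8.le
    have hL3 : L ≤ 3 := by
      have h1 : L ≤ Real.log 8 := Real.log_le_log (by linarith) hX8r
      have h6 : Real.log 8 = 3 * Real.log 2 := by
        rw [show (8 : ℝ) = 2 ^ 3 by norm_num, Real.log_pow]
        norm_num
      have h2 := Real.log_two_lt_d9
      linarith
    have hQ2 : (Q : ℝ) ≤ 3 * 2 ^ B := by
      refine hQ.trans ?_
      have h1 : √(X : ℝ) ≤ 3 := by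
        rw [Real.sqrt_le_left (by norm_num)]
        linarith
      calc √(X : ℝ) / L ^ B ≤ 3 / (1 / 2) ^ B := by gcongr
        _ = 3 * 2 ^ B := by
            rw [one_div, inv_pow, div_inv_eq_mul]
    have h1 : ∀ q ∈ Ioc 0 Q, ‖Err (fun n => (Λ n : ℂ)) (y q) q (a q)‖ ≤ 6 * X := by
      intro q hq
      rw [mem_Ioc] at hq
      refine (norm_err_trivial _ (y q) q hq.1 (a q)).trans ?_
      have h2 : ∑ n ∈ Ioc 0 (y q), ‖(Λ n : ℂ)‖ ≤ ∑ n ∈ Ioc 0 (y q), (3 : ℝ) := by
        refine sum_le_sum fun n hn => ?_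
        rw [mem_Ioc] at hn
        rw [Complex.norm_real, Real.norm_eq_abs, abs_of_nonneg vonMangoldt_nonneg]
        exact vonMangoldt_le_log.trans ((hlogle n (hn.2.trans (hy q))).trans hL3)
      rw [sum_const, Nat.card_Ioc, nsmul_eq_mul, Nat.sub_zero] at h2
      have h3 : ((y q : ℕ) : ℝ) ≤ X := by exact_mod_cast hy q
      linarith
    refine (sum_le_sum h1).trans ?_
    rw [sum_const, Nat.card_Ioc, nsmul_eq_mul, Nat.sub_zero]
    calc (Q : ℝ) * (6 * X) ≤ 3 * 2 ^ B * (6 * X) := by gcongr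
      _ = 18 * 2 ^ B * L ^ A * (X / L ^ A) := by field_simp; ring
      _ ≤ 18 * 2 ^ B * 3 ^ A * (X / L ^ A) := by gcongr
      _ ≤ _ := by
          gcongr
          have : 0 ≤ Cφ * (C1 + C2 * (3 + 2 * K1) + 2 * K2) := by positivity
          linarith
  · -- large `X`
    have hX8r : (8 : ℝ) ≤ X := by exact_mod_cast hX8
    have hLtwo : 2 ≤ L := by
      have h5 : Real.log 8 ≤ L := Real.log_le_log (by norm_num) hX8r
      have h6 : Real.log 8 = 3 * Real.log 2 := by
        rw [show (8 : ℝ) = 2 ^ 3 by norm_num, Real.log_pow]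
        norm_num
      have h1 := Real.log_two_gt_d9
      linarith
    have hLB : 1 ≤ L ^ B := one_le_pow₀ (by linarith)
    have hQs : (Q : ℝ) ≤ √X := hQ.trans (div_le_self (by linarith) hLB)
    have hQX : Q ≤ X := by
      have : (Q : ℝ) ≤ X := by nlinarith
      exact_mod_cast this
    set R : ℕ := ⌊L ^ B⌋₊ with hR
    have hR1 : 1 ≤ R := Nat.floor_pos.mpr hLB
    have hRL : (R : ℝ) ≤ L ^ B := Nat.floor_le (by positivity)
    have hRL2 : L ^ B ≤ 2 * R := by
      have h1 := Nat.lt_floor_add_one (L ^ B)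
      have h2 : (1 : ℝ) ≤ R := by exact_mod_cast hR1
      rw [← hR] at h1
      linarith
    let F : ℕ → ℕ → ℂ := fun q n => if n ≤ y q then (Λ n : ℂ) else 0
    have hErr : ∀ q, Err (F q) X q (a q) = Err (fun n => (Λ n : ℂ)) (y q) q (a q) := by
      intro q
      have h1 : ∀ (p : ℕ → Prop) [DecidablePred p], ∑ n ∈ (Ioc 0 X).filter p, F q n
          = ∑ n ∈ (Ioc 0 (y q)).filter p, (Λ n : ℂ) := by
        intro p _
        show ∑ n ∈ (Ioc 0 X).filter p, (if n ≤ y q then (Λ n : ℂ) else 0) = _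
        rw [← sum_filter, filter_filter]
        refine sum_congr ?_ fun _ _ => rfl
        ext n
        have := hy q
        simp only [mem_filter, mem_Ioc]
        constructor
        · rintro ⟨⟨h2, h3⟩, h4, h5⟩
          exact ⟨⟨h2, h5⟩, h4⟩
        · rintro ⟨⟨h2, h3⟩, h4⟩
          exact ⟨⟨h2, h3.trans this⟩, h4, h3⟩
      unfold Err
      rw [h1, h1]
    have hred := hRED Q X F a ha
    rw [sum_congr rfl fun q _ => by rw [hErr q]] at hred
    refine hred.trans ?_
    -- the inner sums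
    have hS : ∀ s r : ℕ, ∀ χ : DirichletCharacter ℂ r,
        ∑ n ∈ Ioc 0 X, (if n.Coprime s then F (r * s) n * χ n else 0)
          = ∑ n ∈ Ioc 0 (y (r * s)), (if n.Coprime s then (Λ n : ℂ) * χ n else 0) := by
      intro s r χ
      have h1 : Ioc 0 (y (r * s)) = (Ioc 0 X).filter (fun n => n ≤ y (r * s)) := by
        ext n
        have := hy (r * s)
        simp only [mem_filter, mem_Ioc]
        constructor
        · rintro ⟨h2, h3⟩
          exact ⟨⟨h2, h3.trans this⟩, h3⟩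
        · rintro ⟨⟨h2, h3⟩, h4⟩
          exact ⟨h2, h4⟩
      rw [h1, sum_filter]
      refine sum_congr rfl fun n _ => ?_
      show (if n.Coprime s then (if n ≤ y (r * s) then (Λ n : ℂ) else 0) * χ n else 0) = _
      split_ifs <;> simp
    have hT : ∀ s ∈ Ioc 0 Q, ∑ r ∈ Ioc 1 Q, (1 / (r.totient : ℝ)) * ∑ χ ∈ PC r,
        ‖∑ n ∈ Ioc 0 X, if n.Coprime s then F (r * s) n * χ n else 0‖
        ≤ (C1 + C2 * (3 + 2 * K1) + 2 * K2) * (X / L ^ (A + 1)) := by
      intro s hs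
      rw [mem_Ioc] at hs
      have hsX : s ≤ X := hs.2.trans hQX
      let f : (r : ℕ) → DirichletCharacter ℂ r → ℝ := fun r χ =>
        ‖∑ n ∈ Ioc 0 (y (r * s)), (if n.Coprime s then (Λ n : ℂ) * χ n else 0)‖
      have hfnn : ∀ r (χ : DirichletCharacter ℂ r), 0 ≤ f r χ := fun r χ => norm_nonneg _
      have h1 : ∑ r ∈ Ioc 1 Q, (1 / (r.totient : ℝ)) * ∑ χ ∈ PC r,
          ‖∑ n ∈ Ioc 0 X, if n.Coprime s then F (r * s) n * χ n else 0‖
          = ∑ r ∈ Ioc 1 Q, (1 / (r.totient : ℝ)) * ∑ χ ∈ PC r, f r χ := by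
        refine sum_congr rfl fun r _ => ?_
        congr 1
        refine sum_congr rfl fun χ _ => ?_
        rw [hS s r χ]
      rw [h1]
      have h2 : ∑ r ∈ Ioc 1 Q, (1 / (r.totient : ℝ)) * ∑ χ ∈ PC r, f r χ
          ≤ ∑ r ∈ Ioc 1 R, (1 / (r.totient : ℝ)) * ∑ χ ∈ PC r, f r χ
            + ∑ r ∈ Ioc R Q, (1 / (r.totient : ℝ)) * ∑ χ ∈ PC r, f r χ := by
        rw [← sum_union]
        · refine sum_le_sum_of_subset_of_nonneg ?_ fun r _ _ =>
            mul_nonneg (by positivity) (sum_nonneg fun χ _ => hfnn r χ)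
          intro r hr
          rw [mem_Ioc] at hr
          rw [mem_union, mem_Ioc, mem_Ioc]
          rcases le_or_gt r R with h | h
          · exact Or.inl ⟨hr.1, h⟩
          · exact Or.inr ⟨h, hr.2⟩
        · rw [disjoint_left]
          intro r h3 h4
          rw [mem_Ioc] at h3 h4
          omega
      have h3 : ∑ r ∈ Ioc 1 R, (1 / (r.totient : ℝ)) * ∑ χ ∈ PC r, f r χ
          ≤ C1 * (X / L ^ (A + 1)) := by
        have h4 : ∑ r ∈ Ioc 1 R, (1 / (r.totient : ℝ)) * ∑ χ ∈ PC r, f r χ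
            ≤ R * (C1 * (X / L ^ (A + B + 1))) := by
          apply sum_le_card 1 R f _ (by positivity)
          intro r hr1 hrR χ hχ
          have h5 : (r : ℝ) ≤ L ^ B := le_trans (by exact_mod_cast hrR) hRL
          exact hsm X hX r hr1 h5 χ hχ s hs.1 hsX _ (hy _)
        refine h4.trans ?_
        calc (R : ℝ) * (C1 * (X / L ^ (A + B + 1))) ≤ L ^ B * (C1 * (X / L ^ (A + B + 1))) := by gcongr
          _ = C1 * (X / L ^ (A + 1)) := by
              have : L ^ (A + B + 1) = L ^ B * L ^ (A + 1) := by ring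
              rw [this]
              field_simp
      have h4 : ∑ r ∈ Ioc R Q, (1 / (r.totient : ℝ)) * ∑ χ ∈ PC r, f r χ
          ≤ (C2 * (3 + 2 * K1) + 2 * K2) * (X / L ^ (A + 1)) := by
        have hnc : ∀ r (χ : DirichletCharacter ℂ r), f r χ
            ≤ ‖∑ n ∈ Ioc 0 (y (r * s)), (Λ n : ℂ) * χ n‖ + 2 * L ^ 2 := by
          intro r χ
          have h5 : ∑ n ∈ Ioc 0 (y (r * s)), (if n.Coprime s then (Λ n : ℂ) * χ n else 0)
              = ∑ n ∈ Ioc 0 (y (r * s)), (Λ n : ℂ) * χ n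
                - ∑ n ∈ (Ioc 0 (y (r * s))).filter (fun n => ¬ n.Coprime s), (Λ n : ℂ) * χ n := by
            rw [sum_filter, ← sum_sub_distrib]
            refine sum_congr rfl fun n _ => ?_
            by_cases h : n.Coprime s
            · rw [if_pos h, if_neg (not_not.mpr h), sub_zero]
            · rw [if_neg h, if_pos h, sub_self]
          show ‖_‖ ≤ _
          rw [h5]
          refine (norm_sub_le _ _).trans (add_le_add_right ?_ _)
          have h6 : ‖∑ n ∈ (Ioc 0 (y (r * s))).filter (fun n => ¬ n.Coprime s), (Λ n : ℂ) * χ n‖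
              ≤ ∑ n ∈ (Ioc 0 (y (r * s))).filter (fun n => ¬ n.Coprime s), Λ n := by
            refine norm_sum_le_of_le _ fun n _ => ?_
            rw [norm_mul, Complex.norm_real, Real.norm_eq_abs, abs_of_nonneg vonMangoldt_nonneg]
            exact mul_le_of_le_one_right vonMangoldt_nonneg (χ.norm_le_one _)
          refine h6.trans ?_
          have h7 : ∑ n ∈ (Ioc 0 (y (r * s))).filter (fun n => ¬ n.Coprime s), Λ n
              ≤ Real.log s * Real.log (y (r * s)) / Real.log 2 := by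
            have := SW.nc_sum_le (y (r * s)) s (by omega)
            convert this
          refine h7.trans ?_
          have h5 : 1 / 2 ≤ Real.log 2 := by
            have h1 := Real.log_two_gt_d9
            linarith
          calc Real.log s * Real.log (y (r * s)) / Real.log 2 ≤ L * L / (1 / 2) := by
                have h6 : 0 ≤ Real.log (s : ℝ) := Real.log_natCast_nonneg s
                have h7 : 0 ≤ Real.log ((y (r * s) : ℕ) : ℝ) := Real.log_natCast_nonneg _
                have h8 := hlogle s hsX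
                have h9 := hlogle (y (r * s)) (hy _)
                gcongr
            _ = 2 * L ^ 2 := by ring
        have h5 : ∑ r ∈ Ioc R Q, (1 / (r.totient : ℝ)) * ∑ χ ∈ PC r, f r χ
            ≤ ∑ r ∈ Ioc R Q, (1 / (r.totient : ℝ)) * ∑ χ ∈ PC r,
                ‖∑ n ∈ Ioc 0 (y (r * s)), (Λ n : ℂ) * χ n‖
              + ∑ r ∈ Ioc R Q, (1 / (r.totient : ℝ)) * ∑ χ ∈ PC r, 2 * L ^ 2 := by
          rw [← sum_add_distrib]
          refine sum_le_sum fun r _ => ?_
          rw [← mul_add, ← sum_add_distrib]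
          exact mul_le_mul_of_nonneg_left (sum_le_sum fun χ _ => hnc r χ) (by positivity)
        have h6 := hmv R Q X hX hR1 hQX (fun r _ => y (r * s)) (fun r χ => hy _)
        have h7 : ∑ r ∈ Ioc R Q, (1 / (r.totient : ℝ)) * ∑ χ ∈ PC r, (2 * L ^ 2)
            ≤ Q * (2 * L ^ 2) :=
          sum_le_card R Q (fun _ _ => 2 * L ^ 2) _ (by positivity) fun _ _ _ _ _ => le_rfl
        refine h5.trans ((add_le_add h6 h7).trans ?_)
        -- numerical part
        have e1 : L ^ 8 * ((X : ℝ) / R) ≤ 2 * (X / L ^ (A + 1)) := by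
          have hRpos : (0 : ℝ) < R := by exact_mod_cast hR1
          calc L ^ 8 * ((X : ℝ) / R) ≤ L ^ 8 * (X / (L ^ B / 2)) := by
                gcongr
                linarith
            _ = 2 * (X / L ^ (A + 1)) := by
                have : L ^ B = L ^ 8 * L ^ (A + 1) := by
                  rw [hB, ← pow_add]
                  congr 1
                  ring
                rw [this]
                field_simp
        have hK1' : L ^ (A + 9) ≤ K1 * (X : ℝ) ^ (1 / 20 : ℝ) := hlog1 X (by linarith)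
        have e2 : L ^ 8 * (X : ℝ) ^ (19 / 20 : ℝ) ≤ K1 * (X / L ^ (A + 1)) := by
          rw [mul_div_assoc', le_div_iff₀ (by positivity)]
          have h8 : (X : ℝ) ^ (1 / 20 : ℝ) * (X : ℝ) ^ (19 / 20 : ℝ) = X := by
            rw [← Real.rpow_add (by linarith)]
            norm_num
          calc L ^ 8 * (X : ℝ) ^ (19 / 20 : ℝ) * L ^ (A + 1)
              = L ^ (A + 9) * (X : ℝ) ^ (19 / 20 : ℝ) := by
                have : L ^ (A + 9) = L ^ 8 * L ^ (A + 1) := by
                  rw [← pow_add]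
                  congr 1
                  ring
                rw [this]
                ring
            _ ≤ (K1 * (X : ℝ) ^ (1 / 20 : ℝ)) * (X : ℝ) ^ (19 / 20 : ℝ) := by gcongr
            _ = K1 * X := by rw [mul_assoc, h8]
        have e3 : (X : ℝ) ^ (1 / 5 : ℝ) * (Q : ℝ) ^ (3 / 2 : ℝ) ≤ (X : ℝ) ^ (19 / 20 : ℝ) := by
          calc (X : ℝ) ^ (1 / 5 : ℝ) * (Q : ℝ) ^ (3 / 2 : ℝ)
              ≤ (X : ℝ) ^ (1 / 5 : ℝ) * (√(X : ℝ)) ^ (3 / 2 : ℝ) := by gcongr
            _ = (X : ℝ) ^ (19 / 20 : ℝ) := by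
                rw [Real.sqrt_eq_rpow, ← Real.rpow_mul (by linarith), ← Real.rpow_add (by linarith)]
                norm_num
        have e4 : L ^ 8 * ((Q : ℝ) * √X) ≤ X / L ^ (A + 1) := by
          calc L ^ 8 * ((Q : ℝ) * √X) ≤ L ^ 8 * (√X / L ^ B * √X) := by gcongr
            _ = L ^ 8 * (√X * √X) / L ^ B := by ring
            _ = X / L ^ (A + 1) := by
                have : L ^ B = L ^ 8 * L ^ (A + 1) := by
                  rw [hB, ← pow_add]
                  congr 1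
                  ring
                rw [this, hsq]
                field_simp
        have e5 : (Q : ℝ) * (2 * L ^ 2) ≤ 2 * K2 * (X / L ^ (A + 1)) := by
          have h8 : L ^ (A + 3) ≤ K2 * √X := hlog2 X (by linarith)
          rw [mul_div_assoc', le_div_iff₀ (by positivity)]
          calc (Q : ℝ) * (2 * L ^ 2) * L ^ (A + 1) = 2 * (Q * L ^ (A + 3)) := by ring
            _ ≤ 2 * (√X * (K2 * √X)) := by gcongr
            _ = 2 * K2 * (√X * √X) := by ring
            _ = 2 * K2 * X := by rw [hsq]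
        have e6 : L ^ 8 * ((X : ℝ) ^ (1 / 5 : ℝ) * (Q : ℝ) ^ (3 / 2 : ℝ)) ≤ K1 * (X / L ^ (A + 1)) :=
          (mul_le_mul_of_nonneg_left e3 (by positivity)).trans e2
        calc C2 * L ^ 8 * ((X : ℝ) / R + (X : ℝ) ^ (19 / 20 : ℝ)
              + (X : ℝ) ^ (1 / 5 : ℝ) * (Q : ℝ) ^ (3 / 2 : ℝ) + Q * √X) + Q * (2 * L ^ 2)
            = C2 * (L ^ 8 * ((X : ℝ) / R) + L ^ 8 * (X : ℝ) ^ (19 / 20 : ℝ)
              + L ^ 8 * ((X : ℝ) ^ (1 / 5 : ℝ) * (Q : ℝ) ^ (3 / 2 : ℝ)) + L ^ 8 * (Q * √X))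
              + Q * (2 * L ^ 2) := by ring
          _ ≤ C2 * (2 * (X / L ^ (A + 1)) + K1 * (X / L ^ (A + 1)) + K1 * (X / L ^ (A + 1))
              + X / L ^ (A + 1)) + 2 * K2 * (X / L ^ (A + 1)) := by gcongr
          _ = _ := by ring
      calc _ ≤ _ := h2
        _ ≤ C1 * (X / L ^ (A + 1)) + (C2 * (3 + 2 * K1) + 2 * K2) * (X / L ^ (A + 1)) := add_le_add h3 h4
        _ = _ := by ring
    set D : ℝ := C1 + C2 * (3 + 2 * K1) + 2 * K2 with hD
    have hD0 : 0 < D := by positivity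
    calc _ ≤ ∑ s ∈ Ioc 0 Q, (1 / (s.totient : ℝ)) * (D * (X / L ^ (A + 1))) :=
          sum_le_sum fun s hs => mul_le_mul_of_nonneg_left (hT s hs) (by positivity)
      _ = (∑ s ∈ Ioc 0 Q, (1 / (s.totient : ℝ))) * (D * (X / L ^ (A + 1))) := by rw [sum_mul]
      _ ≤ (∑ s ∈ Ioc 0 X, (1 / (s.totient : ℝ))) * (D * (X / L ^ (A + 1))) := by
          gcongr
      _ ≤ (Cφ * L) * (D * (X / L ^ (A + 1))) := by
          gcongr
          exact hφs X hX
      _ = Cφ * D * (X / L ^ A) := by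
          rw [pow_succ]
          field_simp
      _ ≤ _ := by
          gcongr
          have : 0 ≤ 18 * (2 : ℝ) ^ B * 3 ^ A := by positivity
          linarith

end Pool.Agent.BV
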