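import Pool.Agent.Work.BV.Interface

/-!
# Bombieri–Vinogradov for primes

Block BVP: from `Stmt_BV` (for `ψ`) and `Stmt_PHI` by partial summation.
-/

set_option autoImplicit false

namespace Pool.Agent.BV

open Finset ArithmeticFunction
open scoped Classical

/-- The weight `1 / log (max m 2)`. -/
noncomputable def gw (m : ℕ) : ℝ := 1 / Real.log (max (m : ℝ) 2)

lemma gw_pos (m : ℕ) : 0 < gw m := by
  unfold gw
  have : (1 : ℝ) < max (m : ℝ) 2 := lt_of_lt_of_le (by norm_num) (le_max_right _ _)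
  have := Real.log_pos this
  positivity

lemma gw_anti (m : ℕ) : gw (m + 1) ≤ gw m := by
  unfold gw
  have h1 : (1 : ℝ) < max (m : ℝ) 2 := lt_of_lt_of_le (by norm_num) (le_max_right _ _)
  apply one_div_le_one_div_of_le (Real.log_pos h1)
  apply Real.log_le_log (by linarith)
  apply max_le_max _ le_rfl
  push_cast
  linarith

lemma gw_zero : gw 0 = 1 / Real.log 2 := by
  unfold gw
  norm_num

/-- Abel's inequality. -/
lemma abel_bound (c : ℕ → ℝ) (M : ℝ) (y : ℕ) (hM : ∀ n ≤ y, |∑ m ∈ Ioc 0 n, c m| ≤ M) :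
    |∑ m ∈ Ioc 0 y, c m * gw m - (∑ m ∈ Ioc 0 y, c m) * gw y| ≤ M * (gw 0 - gw y) := by
  induction y with
  | zero => simp
  | succ y ih =>
    have ih' := ih fun n hn => hM n (by omega)
    have h1 : ∑ m ∈ Ioc 0 (y + 1), c m * gw m
        = ∑ m ∈ Ioc 0 y, c m * gw m + c (y + 1) * gw (y + 1) := by
      rw [← Finset.insert_Ioc_right_eq_Ioc_add_one (by omega : 0 ≤ y), sum_insert (by simp)]
      ring
    have h2 : ∑ m ∈ Ioc 0 (y + 1), c m = ∑ m ∈ Ioc 0 y, c m + c (y + 1) := by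
      rw [← Finset.insert_Ioc_right_eq_Ioc_add_one (by omega : 0 ≤ y), sum_insert (by simp)]
      ring
    have h3 : ∑ m ∈ Ioc 0 (y + 1), c m * gw m - (∑ m ∈ Ioc 0 (y + 1), c m) * gw (y + 1)
        = (∑ m ∈ Ioc 0 y, c m * gw m - (∑ m ∈ Ioc 0 y, c m) * gw y)
          + (∑ m ∈ Ioc 0 y, c m) * (gw y - gw (y + 1)) := by
      rw [h1, h2]; ring
    rw [h3]
    refine le_trans (abs_add_le _ _) ?_
    rw [abs_mul, abs_of_nonneg (sub_nonneg.2 (gw_anti y))]
    have h4 := mul_le_mul_of_nonneg_right (hM y (by omega)) (sub_nonneg.2 (gw_anti y))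
    linarith

lemma abel_bound' (c : ℕ → ℝ) (M : ℝ) (y : ℕ) (hM : ∀ n ≤ y, |∑ m ∈ Ioc 0 n, c m| ≤ M) :
    |∑ m ∈ Ioc 0 y, c m * gw m| ≤ M * (1 / Real.log 2) := by
  have h1 := abel_bound c M y hM
  have h2 := hM y le_rfl
  have h3 : |(∑ m ∈ Ioc 0 y, c m) * gw y| ≤ M * gw y := by
    rw [abs_mul, abs_of_pos (gw_pos y)]
    exact mul_le_mul_of_nonneg_right h2 (gw_pos y).le
  have h4 := abs_add_le (∑ m ∈ Ioc 0 y, c m * gw m - (∑ m ∈ Ioc 0 y, c m) * gw y)
    ((∑ m ∈ Ioc 0 y, c m) * gw y)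
  rw [sub_add_cancel] at h4
  rw [← gw_zero]
  linarith

/-- The weight `log p` on primes. -/
noncomputable def lw (m : ℕ) : ℝ := if m.Prime then Real.log m else 0

lemma lw_nonneg (m : ℕ) : 0 ≤ lw m := by
  unfold lw
  split_ifs with h
  · exact Real.log_natCast_nonneg m
  · exact le_rfl

lemma lw_le (m : ℕ) : lw m ≤ Λ m := by
  unfold lw
  split_ifs with h
  · rw [vonMangoldt_apply_prime h]
  · exact vonMangoldt_nonneg

lemma sum_sub_le (X : ℝ) (hX : 1 ≤ X) (S : Finset ℕ) (hS : S ⊆ Ioc 0 ⌊X⌋₊) :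
    ∑ m ∈ S, (Λ m - lw m) ≤ 2 * √X * Real.log X := by
  calc ∑ m ∈ S, (Λ m - lw m) ≤ ∑ m ∈ Ioc 0 ⌊X⌋₊, (Λ m - lw m) :=
        sum_le_sum_of_subset_of_nonneg hS fun i _ _ => sub_nonneg.2 (lw_le i)
    _ = Chebyshev.psi X - Chebyshev.theta X := by
        unfold Chebyshev.psi Chebyshev.theta
        rw [sum_sub_distrib, sum_filter]
        rfl
    _ ≤ _ := Chebyshev.psi_sub_theta_le hX

/-- The summand for the difference of the two counting functions. -/
noncomputable def dw (q : ℕ) (a : ZMod q) (m : ℕ) : ℝ :=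
  (if (m : ZMod q) = a then 1 else 0) - 1 / (q.totient : ℝ)

lemma prime_diff (q : ℕ) (a : ZMod q) (y : ℕ) :
    ((((Ioc 0 y).filter (fun n : ℕ => n.Prime ∧ (n : ZMod q) = a)).card : ℝ)
      - (((Ioc 0 y).filter Nat.Prime).card : ℝ) / (q.totient : ℝ))
    = ∑ m ∈ Ioc 0 y, (lw m * dw q a m) * gw m := by
  rw [card_filter, card_filter]
  push_cast
  rw [sum_div, ← sum_sub_distrib]
  refine sum_congr rfl fun m hm => ?_
  unfold lw dw gw
  by_cases hp : m.Prime
  · have h2 : (2 : ℝ) ≤ m := by exact_mod_cast hp.two_le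
    have hl : Real.log m ≠ 0 := (Real.log_pos (by linarith)).ne'
    rw [max_eq_left h2]
    by_cases ha : (m : ZMod q) = a
    · simp only [hp, ha, and_self, if_true]
      field_simp
    · simp only [hp, ha, and_false, if_true, if_false]
      field_simp
  · simp [hp]

lemma theta_diff (q : ℕ) (a : ZMod q) (n : ℕ) :
    ∑ m ∈ Ioc 0 n, lw m * dw q a m
      = (∑ m ∈ (Ioc 0 n).filter (fun m : ℕ => (m : ZMod q) = a), Λ m - n / (q.totient : ℝ))
        - ∑ m ∈ (Ioc 0 n).filter (fun m : ℕ => (m : ZMod q) = a), (Λ m - lw m)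
        - (1 / (q.totient : ℝ)) * ((∑ m ∈ Ioc 0 n, Λ m - n) - ∑ m ∈ Ioc 0 n, (Λ m - lw m)) := by
  unfold dw
  simp only [mul_sub, sum_sub_distrib, sum_filter]
  have h1 : ∑ m ∈ Ioc 0 n, lw m * (if (m : ZMod q) = a then (1 : ℝ) else 0)
      = ∑ m ∈ Ioc 0 n, (if (m : ZMod q) = a then lw m else 0) := by
    refine sum_congr rfl fun m _ => ?_
    split_ifs <;> simp
  have h3 : ∑ m ∈ Ioc 0 n, lw m * (1 / (q.totient : ℝ))
      = (1 / (q.totient : ℝ)) * ∑ m ∈ Ioc 0 n, lw m := by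
    rw [mul_sum]
    exact sum_congr rfl fun m _ => by ring
  rw [h1, h3]
  ring

lemma psi_one_bound (X : ℝ) (K : ℝ)
    (h : ∀ (y : ℕ → ℝ), (∀ q, 0 ≤ y q ∧ y q ≤ X) → ∀ (a : (q : ℕ) → ZMod q), (∀ q, IsUnit (a q)) →
      ∑ q ∈ Ioc 0 1, |∑ n ∈ (Ioc 0 ⌊y q⌋₊).filter (fun n : ℕ => (n : ZMod q) = a q), Λ n
      - y q / (q.totient : ℝ)| ≤ K) (n : ℕ) (hn : (n : ℝ) ≤ X) :
    |∑ m ∈ Ioc 0 n, Λ m - n| ≤ K := by
  have h1 := h (fun _ => (n : ℝ)) (fun _ => ⟨Nat.cast_nonneg n, hn⟩) (fun _ => 1)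
    (fun _ => isUnit_one)
  have h2 : Ioc 0 1 = ({1} : Finset ℕ) := by decide
  rw [h2, sum_singleton] at h1
  simp only [Nat.floor_natCast, Nat.totient_one, Nat.cast_one, div_one] at h1
  have h3 : (Ioc 0 n).filter (fun m : ℕ => (m : ZMod 1) = 1) = Ioc 0 n := by
    apply filter_true_of_mem
    intro m _
    exact Subsingleton.elim _ _
  rwa [h3] at h1

theorem BVP (hBV : Stmt_BV) (hPHI : Stmt_PHI) : Stmt_BVP := by
  intro A
  obtain ⟨B1, C1, hC1, h1⟩ := hBV (A + 1)
  obtain ⟨C2, hC2, h2⟩ := hPHI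
  have hlog2 : 0 < Real.log 2 := Real.log_pos (by norm_num)
  have hlog2' : Real.log 2 < 1 := by
    have := Real.log_two_lt_d9; linarith
  refine ⟨B1 + A + 1, (1 / Real.log 2) * (C1 + 4 + C1 * C2) + 6 / (Real.log 2) ^ (B1 + A + 1),
    by positivity, ?_⟩
  intro X hX Q hQ y hy a ha
  have hX0 : 0 < X := by linarith
  have hL0 : 0 < Real.log X := Real.log_pos (by linarith)
  have hLA : 0 < (Real.log X) ^ A := pow_pos hL0 A
  have hsq : √X ≤ X := by
    rw [Real.sqrt_le_left (by linarith)]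
    nlinarith
  rcases lt_or_ge X (Real.exp 1) with hXe | hXe
  · -- small `X`
    have hL1 : Real.log X ≤ 1 := by
      rw [← Real.log_exp 1]
      exact Real.log_le_log hX0 hXe.le
    have hX3 : X ≤ 3 := by
      have := Real.exp_one_lt_d9
      linarith
    have hLX2 : Real.log 2 ≤ Real.log X := Real.log_le_log (by norm_num) hX
    have hterm : ∀ q ∈ Ioc 0 Q,
        |((((Ioc 0 (y q)).filter (fun n : ℕ => n.Prime ∧ (n : ZMod q) = a q)).card : ℝ)
        - (((Ioc 0 (y q)).filter Nat.Prime).card : ℝ) / (q.totient : ℝ))| ≤ X := by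
      intro q hq
      rw [mem_Ioc] at hq
      have hφ : (1 : ℝ) ≤ q.totient := by
        exact_mod_cast Nat.totient_pos.2 hq.1
      have hc1 : (((Ioc 0 (y q)).filter (fun n : ℕ => n.Prime ∧ (n : ZMod q) = a q)).card : ℝ)
          ≤ X := by
        refine le_trans ?_ (hy q)
        have := card_filter_le (Ioc 0 (y q)) (fun n : ℕ => n.Prime ∧ (n : ZMod q) = a q)
        rw [Nat.card_Ioc, Nat.sub_zero] at this
        exact_mod_cast this
      have hc2 : (((Ioc 0 (y q)).filter Nat.Prime).card : ℝ) / (q.totient : ℝ) ≤ X := by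
        refine le_trans (div_le_self (Nat.cast_nonneg _) hφ) ?_
        refine le_trans ?_ (hy q)
        have := card_filter_le (Ioc 0 (y q)) Nat.Prime
        rw [Nat.card_Ioc, Nat.sub_zero] at this
        exact_mod_cast this
      have hc3 : 0 ≤ (((Ioc 0 (y q)).filter Nat.Prime).card : ℝ) / (q.totient : ℝ) := by
        positivity
      have hc4 : 0 ≤ (((Ioc 0 (y q)).filter (fun n : ℕ => n.Prime ∧ (n : ZMod q) = a q)).card : ℝ)
        := by positivity
      rw [abs_le]
      constructor <;> linarith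
    have hsum := sum_le_sum hterm
    refine le_trans hsum ?_
    rw [sum_const, Nat.card_Ioc, nsmul_eq_mul, Nat.sub_zero]
    have hQ' : (Q : ℝ) ≤ 3 / (Real.log 2) ^ (B1 + A + 1) := by
      refine le_trans hQ ?_
      apply div_le_div₀ (by norm_num) (by linarith) (by positivity)
      exact pow_le_pow_left₀ hlog2.le hLX2 _
    have hXA : X ≤ X / (Real.log X) ^ A := by
      rw [le_div_iff₀ hLA]
      have : (Real.log X) ^ A ≤ 1 := pow_le_one₀ hL0.le hL1
      nlinarith
    have hpos : 0 ≤ (1 / Real.log 2) * (C1 + 4 + C1 * C2) := by positivity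
    have hXApos : 0 < X / (Real.log X) ^ A := by positivity
    calc (Q : ℝ) * X ≤ (3 / (Real.log 2) ^ (B1 + A + 1)) * (X / (Real.log X) ^ A) := by
          apply mul_le_mul hQ' hXA hX0.le (by positivity)
      _ ≤ _ := by
          apply mul_le_mul_of_nonneg_right _ hXApos.le
          have : 3 / (Real.log 2) ^ (B1 + A + 1) ≤ 6 / (Real.log 2) ^ (B1 + A + 1) := by
            apply div_le_div_of_nonneg_right (by norm_num) (by positivity)
          linarith
  · -- large `X`
    have hL1 : 1 ≤ Real.log X := by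
      rw [← Real.log_exp 1]
      exact Real.log_le_log (Real.exp_pos 1) hXe
    rcases Nat.eq_zero_or_pos Q with hQ0 | hQ0
    · subst hQ0
      simp only [Ioc_self, sum_empty]
      positivity
    have hB1 : (Q : ℝ) ≤ √X / (Real.log X) ^ B1 := by
      refine le_trans hQ ?_
      apply div_le_div_of_nonneg_left (Real.sqrt_nonneg X) (by positivity)
      exact pow_le_pow_right₀ hL1 (by omega)
    have hBA : (Q : ℝ) ≤ √X / (Real.log X) ^ (A + 1) := by
      refine le_trans hQ ?_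
      apply div_le_div_of_nonneg_left (Real.sqrt_nonneg X) (by positivity)
      exact pow_le_pow_right₀ hL1 (by omega)
    have hQX : (Q : ℝ) ≤ X := by
      refine le_trans hB1 (le_trans (div_le_self (Real.sqrt_nonneg X) ?_) hsq)
      exact one_le_pow₀ hL1
    have hone : ((1 : ℕ) : ℝ) ≤ √X / (Real.log X) ^ B1 := by
      refine le_trans ?_ hB1
      exact_mod_cast hQ0
    set N := ⌊X⌋₊ with hN
    have hNX : (N : ℝ) ≤ X := Nat.floor_le hX0.le
    have hN2 : 2 ≤ N := Nat.le_floor (by exact_mod_cast hX)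
    -- the worst length for each `q`
    have hex : ∀ q : ℕ, ∃ n : ℕ, n ≤ N ∧ ∀ m ≤ N,
        |∑ l ∈ Ioc 0 m, lw l * dw q (a q) l| ≤ |∑ l ∈ Ioc 0 n, lw l * dw q (a q) l| := by
      intro q
      obtain ⟨n, hn, hn'⟩ := exists_max_image (range (N + 1))
        (fun m => |∑ l ∈ Ioc 0 m, lw l * dw q (a q) l|) ⟨0, by simp⟩
      exact ⟨n, by simpa [Nat.lt_succ_iff] using hn, fun m hm => hn' m (by
        simpa [Nat.lt_succ_iff] using hm)⟩
    choose n hnN hnmax using hex
    have hnX : ∀ q, (n q : ℝ) ≤ X := fun q => le_trans (by exact_mod_cast hnN q) hNX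
    set K := C1 * (X / (Real.log X) ^ (A + 1)) with hK
    have hKpos : 0 ≤ K := by positivity
    set R := 2 * √X * Real.log X with hR
    have hRpos : 0 ≤ R := by positivity
    have hψ1 : ∀ q, |∑ m ∈ Ioc 0 (n q), Λ m - n q| ≤ K := fun q =>
      psi_one_bound X K (h1 X hX 1 hone) (n q) (hnX q)
    have hmain := h1 X hX Q hB1 (fun q => (n q : ℝ)) (fun q => ⟨Nat.cast_nonneg _, hnX q⟩) a ha
    simp only [Nat.floor_natCast] at hmain
    -- bound for a single `q`
    have hterm : ∀ q ∈ Ioc 0 Q,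
        |((((Ioc 0 (y q)).filter (fun n : ℕ => n.Prime ∧ (n : ZMod q) = a q)).card : ℝ)
        - (((Ioc 0 (y q)).filter Nat.Prime).card : ℝ) / (q.totient : ℝ))|
        ≤ (|∑ m ∈ (Ioc 0 (n q)).filter (fun m : ℕ => (m : ZMod q) = a q), Λ m
            - n q / (q.totient : ℝ)| + 2 * R + (1 / (q.totient : ℝ)) * K) * (1 / Real.log 2) := by
      intro q hq
      rw [mem_Ioc] at hq
      have hφ : (1 : ℝ) ≤ q.totient := by
        exact_mod_cast Nat.totient_pos.2 hq.1
      have hφ' : 1 / (q.totient : ℝ) ≤ 1 := by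
        rw [div_le_one (by linarith)]; exact hφ
      have hφ0 : 0 ≤ 1 / (q.totient : ℝ) := by positivity
      rw [prime_diff]
      have hyN : y q ≤ N := Nat.le_floor (hy q)
      refine le_trans (abel_bound' (fun l => lw l * dw q (a q) l) _ (y q)
        fun m hm => hnmax q m (le_trans hm hyN)) ?_
      apply mul_le_mul_of_nonneg_right _ (by positivity)
      rw [theta_diff]
      have hs1 : ∑ m ∈ (Ioc 0 (n q)).filter (fun m : ℕ => (m : ZMod q) = a q), (Λ m - lw m) ≤ R := by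
        apply sum_sub_le X (by linarith)
        refine (filter_subset _ _).trans ?_
        exact Ioc_subset_Ioc_right (hnN q)
      have hs2 : ∑ m ∈ Ioc 0 (n q), (Λ m - lw m) ≤ R := by
        apply sum_sub_le X (by linarith)
        exact Ioc_subset_Ioc_right (hnN q)
      have hs1' : 0 ≤ ∑ m ∈ (Ioc 0 (n q)).filter (fun m : ℕ => (m : ZMod q) = a q), (Λ m - lw m) :=
        sum_nonneg fun i _ => sub_nonneg.2 (lw_le i)
      have hs2' : 0 ≤ ∑ m ∈ Ioc 0 (n q), (Λ m - lw m) :=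
        sum_nonneg fun i _ => sub_nonneg.2 (lw_le i)
      have hk := hψ1 q
      generalize (∑ m ∈ (Ioc 0 (n q)).filter (fun m : ℕ => (m : ZMod q) = a q), Λ m
            - n q / (q.totient : ℝ)) = u1
      generalize (∑ m ∈ (Ioc 0 (n q)).filter (fun m : ℕ => (m : ZMod q) = a q), (Λ m - lw m)) = u2
        at hs1 hs1' ⊢
      generalize (∑ m ∈ Ioc 0 (n q), Λ m - n q) = u3 at hk ⊢
      generalize (∑ m ∈ Ioc 0 (n q), (Λ m - lw m)) = u4 at hs2 hs2' ⊢
      generalize (1 / (q.totient : ℝ)) = φ at hφ' hφ0 ⊢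
      have e1 : |φ * (u3 - u4)| ≤ φ * K + R := by
        rw [abs_mul, abs_of_nonneg hφ0]
        have e2 : |u3 - u4| ≤ K + R := by
          rw [abs_le] at hk ⊢
          constructor <;> linarith
        have e3 := mul_le_mul_of_nonneg_left e2 hφ0
        nlinarith
      have e4 : |u1 - u2| ≤ |u1| + R := by
        refine le_trans (abs_sub _ _) ?_
        rw [abs_of_nonneg hs1']
        linarith
      have e5 := abs_sub (u1 - u2) (φ * (u3 - u4))
      linarith
    refine le_trans (sum_le_sum hterm) ?_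
    rw [← sum_mul, sum_add_distrib, sum_add_distrib, sum_const, Nat.card_Ioc, nsmul_eq_mul,
      Nat.sub_zero, ← sum_mul]
    have hphi : ∑ q ∈ Ioc 0 Q, 1 / (q.totient : ℝ) ≤ C2 * Real.log X := by
      have hQN : Q ≤ N := Nat.le_floor hQX
      calc ∑ q ∈ Ioc 0 Q, 1 / (q.totient : ℝ) ≤ ∑ q ∈ Ioc 0 N, 1 / (q.totient : ℝ) :=
            sum_le_sum_of_subset_of_nonneg (Ioc_subset_Ioc_right hQN) fun _ _ _ => by positivity
        _ ≤ C2 * Real.log N := h2 N hN2
        _ ≤ _ := by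
            apply mul_le_mul_of_nonneg_left _ hC2.le
            apply Real.log_le_log _ hNX
            have : 0 < N := by omega
            exact_mod_cast this
    have hKle : K ≤ C1 * (X / (Real.log X) ^ A) := by
      rw [hK]
      apply mul_le_mul_of_nonneg_left _ hC1.le
      apply div_le_div_of_nonneg_left hX0.le hLA
      exact pow_le_pow_right₀ hL1 (by omega)
    have hQR : (Q : ℝ) * (2 * R) ≤ 4 * (X / (Real.log X) ^ A) := by
      rw [hR]
      have e1 : (Q : ℝ) * (2 * (2 * √X * Real.log X))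
          ≤ (√X / (Real.log X) ^ (A + 1)) * (2 * (2 * √X * Real.log X)) :=
        mul_le_mul_of_nonneg_right hBA (by positivity)
      refine le_trans e1 (le_of_eq ?_)
      have e2 : √X * √X = X := Real.mul_self_sqrt hX0.le
      have e3 : (Real.log X) ^ (A + 1) = (Real.log X) ^ A * Real.log X := pow_succ _ _
      rw [e3]
      field_simp
      rw [show √X ^ 2 = X by rw [sq]; exact e2]
      ring
    have hphiK : (∑ q ∈ Ioc 0 Q, 1 / (q.totient : ℝ)) * K ≤ C1 * C2 * (X / (Real.log X) ^ A) := by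
      refine le_trans (mul_le_mul_of_nonneg_right hphi hKpos) (le_of_eq ?_)
      rw [hK]
      have e3 : (Real.log X) ^ (A + 1) = (Real.log X) ^ A * Real.log X := pow_succ _ _
      rw [e3]
      field_simp
    have hfin : ∑ q ∈ Ioc 0 Q, |∑ m ∈ (Ioc 0 (n q)).filter (fun m : ℕ => (m : ZMod q) = a q), Λ m
            - n q / (q.totient : ℝ)| + (Q : ℝ) * (2 * R) + (∑ q ∈ Ioc 0 Q, 1 / (q.totient : ℝ)) * K
          ≤ (C1 + 4 + C1 * C2) * (X / (Real.log X) ^ A) := by
      have := le_trans hmain hKle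
      nlinarith
    have hlast : (0 : ℝ) ≤ 6 / (Real.log 2) ^ (B1 + A + 1) * (X / (Real.log X) ^ A) := by positivity
    have hl2 : (0 : ℝ) ≤ 1 / Real.log 2 := by positivity
    have := mul_le_mul_of_nonneg_right hfin hl2
    nlinarith

end Pool.Agent.BV
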