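import Pool.Agent.Work.BV.Interface

/-!
# Bombieri–Vinogradov for primes with divisor weights

Block BVW: from `Stmt_BVP` by the inequality of Cauchy and Schwarz and the trivial bound.
-/

set_option autoImplicit false

namespace Pool.Agent.BV

open Finset ArithmeticFunction
open scoped Classical

lemma le_card_divisors_mul_totient {n : ℕ} (hn : 0 < n) : n ≤ n.divisors.card * n.totient := by
  calc n = ∑ d ∈ n.divisors, d.totient := (Nat.sum_totient n).symm
    _ ≤ ∑ _d ∈ n.divisors, n.totient := sum_le_sum fun d hd =>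
        Nat.le_of_dvd (Nat.totient_pos.2 hn) (Nat.totient_dvd_of_dvd (Nat.dvd_of_mem_divisors hd))
    _ = _ := by rw [sum_const, smul_eq_mul]

lemma card_divisors_mul_le (m n : ℕ) :
    (m * n).divisors.card ≤ m.divisors.card * n.divisors.card := by
  rw [Nat.divisors_mul]
  exact Finset.card_mul_le

lemma sum_inv_Ioc_le (Q : ℕ) :
    ∑ n ∈ Ioc 0 Q, 1 / (n : ℝ) ≤ 1 + Real.log Q := by
  have h := harmonic_le_one_add_log Q
  refine le_trans (le_of_eq ?_) h
  rw [harmonic]
  push_cast
  have hI : Ioc 0 Q = (range Q).image (fun i => i + 1) := by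
    ext x
    simp only [mem_Ioc, mem_image, mem_range]
    constructor
    · rintro ⟨h1, h2⟩; exact ⟨x - 1, by omega, by omega⟩
    · rintro ⟨i, hi, rfl⟩; omega
  rw [hI, sum_image (by intro x _ y _ h; exact Nat.succ_injective h)]
  refine sum_congr rfl fun i _ => ?_
  push_cast
  rw [one_div]

/-- Moments of the divisor function with weight `1/n`. -/
lemma sum_div_pow_le (Q : ℕ) (hQ : 1 ≤ Q) (j : ℕ) :
    ∑ n ∈ Ioc 0 Q, (n.divisors.card : ℝ) ^ j / n ≤ (1 + Real.log Q) ^ (2 ^ j) := by
  induction j with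
  | zero => simpa using sum_inv_Ioc_le Q
  | succ j ih =>
    have hstep : ∀ n ∈ Ioc 0 Q, (n.divisors.card : ℝ) ^ (j + 1) / n
        ≤ ∑ x ∈ ((Ioc 0 Q) ×ˢ (Ioc 0 Q)).filter (fun x => x.1 * x.2 = n),
          ((x.1.divisors.card : ℝ) ^ j / x.1) * ((x.2.divisors.card : ℝ) ^ j / x.2) := by
      intro n hn
      rw [mem_Ioc] at hn
      have hfib : ((Ioc 0 Q) ×ˢ (Ioc 0 Q)).filter (fun x => x.1 * x.2 = n)
          = n.divisorsAntidiagonal := by
        ext x
        simp only [mem_filter, mem_product, mem_Ioc, Nat.mem_divisorsAntidiagonal]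
        constructor
        · rintro ⟨_, h⟩; exact ⟨h, by omega⟩
        · rintro ⟨h, _⟩
          have h1 : 0 < x.1 := Nat.pos_of_ne_zero fun h0 => by rw [h0, zero_mul] at h; omega
          have h2 : 0 < x.2 := Nat.pos_of_ne_zero fun h0 => by rw [h0, mul_zero] at h; omega
          have h3 : x.1 ≤ n := by rw [← h]; exact Nat.le_mul_of_pos_right _ h2
          have h4 : x.2 ≤ n := by rw [← h]; exact Nat.le_mul_of_pos_left _ h1
          exact ⟨⟨⟨h1, by omega⟩, ⟨h2, by omega⟩⟩, h⟩
      rw [hfib]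
      have hcard : (n.divisors.card : ℝ) = ∑ _x ∈ n.divisorsAntidiagonal, (1 : ℝ) := by
        rw [sum_const, nsmul_eq_mul, mul_one]
        norm_cast
        rw [← Nat.map_div_right_divisors, card_map]
      calc (n.divisors.card : ℝ) ^ (j + 1) / n
          = ∑ _x ∈ n.divisorsAntidiagonal, (n.divisors.card : ℝ) ^ j / n := by
            rw [sum_const, nsmul_eq_mul, pow_succ]
            have : (n.divisorsAntidiagonal.card : ℝ) = n.divisors.card := by
              norm_cast
              rw [← Nat.map_div_right_divisors, card_map]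
            rw [this]; ring
        _ ≤ _ := by
            refine sum_le_sum fun x hx => ?_
            rw [Nat.mem_divisorsAntidiagonal] at hx
            have h1 : 0 < x.1 := Nat.pos_of_ne_zero fun h0 => by rw [h0, zero_mul] at hx; omega
            have h2 : 0 < x.2 := Nat.pos_of_ne_zero fun h0 => by rw [h0, mul_zero] at hx; omega
            have h1' : (0 : ℝ) < x.1 := by exact_mod_cast h1
            have h2' : (0 : ℝ) < x.2 := by exact_mod_cast h2
            have h5 : (n : ℝ) = x.1 * x.2 := by rw [← hx.1]; push_cast; ring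
            have h6 : (n.divisors.card : ℝ) ≤ x.1.divisors.card * x.2.divisors.card := by
              rw [← hx.1]
              exact_mod_cast card_divisors_mul_le x.1 x.2
            rw [div_mul_div_comm, ← mul_pow, h5]
            apply div_le_div_of_nonneg_right _ (by positivity)
            exact pow_le_pow_left₀ (by positivity) h6 j
    have hT : ∑ n ∈ Ioc 0 Q, ∑ x ∈ ((Ioc 0 Q) ×ˢ (Ioc 0 Q)).filter (fun x => x.1 * x.2 = n),
          ((x.1.divisors.card : ℝ) ^ j / x.1) * ((x.2.divisors.card : ℝ) ^ j / x.2)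
        ≤ ∑ x ∈ (Ioc 0 Q) ×ˢ (Ioc 0 Q),
          ((x.1.divisors.card : ℝ) ^ j / x.1) * ((x.2.divisors.card : ℝ) ^ j / x.2) :=
      sum_fiberwise_le_sum_of_sum_fiber_nonneg fun n _ => sum_nonneg fun x _ => by positivity
    refine le_trans (sum_le_sum hstep) (le_trans hT ?_)
    rw [sum_product]
    simp only [← mul_sum, ← sum_mul]
    rw [pow_succ, pow_mul, sq]
    have h0 : 0 ≤ ∑ n ∈ Ioc 0 Q, (n.divisors.card : ℝ) ^ j / n :=
      sum_nonneg fun n _ => by positivity
    exact mul_le_mul ih ih h0 (le_trans h0 ih)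

lemma card_residue_le (q : ℕ) (hq : 0 < q) (a : ZMod q) (y : ℕ) :
    (((Ioc 0 y).filter (fun n : ℕ => n.Prime ∧ (n : ZMod q) = a)).card : ℝ) ≤ y / q + 1 := by
  have : NeZero q := ⟨hq.ne'⟩
  have h1 : (Ioc 0 y).filter (fun n : ℕ => n.Prime ∧ (n : ZMod q) = a)
      ⊆ (Ioc 0 y).filter (fun n : ℕ => n ≡ a.val [MOD q]) := by
    intro n hn
    rw [mem_filter] at hn ⊢
    refine ⟨hn.1, ?_⟩
    rw [← ZMod.natCast_eq_natCast_iff, ZMod.natCast_zmod_val]
    exact hn.2.2
  have h2 := Nat.Ioc_filter_modEq_card 0 y hq a.val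
  have h3 : (((Ioc 0 y).filter (fun n : ℕ => n ≡ a.val [MOD q])).card : ℚ) ≤ y / q + 1 := by
    have h4 : (((Ioc 0 y).filter (fun n : ℕ => n ≡ a.val [MOD q])).card : ℚ)
        = ((max (⌊((y : ℚ) - (a.val : ℕ)) / q⌋ - ⌊(((0 : ℕ) : ℚ) - (a.val : ℕ)) / q⌋) 0 : ℤ) : ℚ) := by
      rw [← h2]
      simp
    rw [h4]
    push_cast
    apply max_le
    · have h5 := Int.floor_le (((y : ℚ) - (a.val : ℕ)) / q)
      have h6 := Int.lt_floor_add_one ((((0 : ℕ) : ℚ) - (a.val : ℕ)) / q)
      have h7 : ((y : ℚ) - (a.val : ℕ)) / q - (((0 : ℕ) : ℚ) - (a.val : ℕ)) / q = y / q := by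
        push_cast; ring
      push_cast at h5 h6 h7 ⊢
      linarith
    · positivity
  have h8 : (((Ioc 0 y).filter (fun n : ℕ => n ≡ a.val [MOD q])).card : ℝ) ≤ y / q + 1 := by
    have h9 := (Rat.cast_le (K := ℝ)).2 h3
    push_cast at h9
    exact h9
  refine le_trans ?_ h8
  exact_mod_cast card_le_card h1

theorem BVW (hBVP : Stmt_BVP) : Stmt_BVW := by
  intro A k
  set D : ℕ := 2 ^ (2 * k + 1) with hD
  obtain ⟨B, C, hC, h1⟩ := hBVP (2 * A + D)
  have hlog2 : 0 < Real.log 2 := Real.log_pos (by norm_num)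
  have hlog2' : Real.log 2 < 1 := by
    have := Real.log_two_lt_d9; linarith
  set c : ℝ := 1 / (Real.log 2) ^ B with hc
  have hc1 : 1 ≤ c := by
    rw [hc, le_div_iff₀ (by positivity), one_mul]
    exact pow_le_one₀ hlog2.le hlog2'.le
  have hlogc : 0 ≤ Real.log c := Real.log_nonneg hc1
  set c' : ℝ := (1 + Real.log c) / Real.log 2 + 1 with hc'
  have hc'1 : 0 < c' := by positivity
  refine ⟨B, √((1 + c) * c' ^ D * C), by positivity, ?_⟩
  intro X hX Q hQ y hy a ha
  have hX0 : 0 < X := by linarith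
  have hL0 : 0 < Real.log X := Real.log_pos (by linarith)
  have hL2 : Real.log 2 ≤ Real.log X := Real.log_le_log (by norm_num) hX
  have hsq : √X ≤ X := by
    rw [Real.sqrt_le_left (by linarith)]
    nlinarith
  have hQc : (Q : ℝ) ≤ c * X := by
    refine le_trans hQ ?_
    rw [hc, one_div_mul_eq_div]
    apply div_le_div₀ hX0.le hsq (by positivity)
    exact pow_le_pow_left₀ hlog2.le hL2 _
  rcases Nat.eq_zero_or_pos Q with hQ0 | hQ0
  · subst hQ0
    simp only [Ioc_self, sum_empty]
    positivity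
  set E : ℕ → ℝ := fun q =>
    |((((Ioc 0 (y q)).filter (fun n : ℕ => n.Prime ∧ (n : ZMod q) = a q)).card : ℝ)
      - (((Ioc 0 (y q)).filter Nat.Prime).card : ℝ) / (q.totient : ℝ))| with hE
  have hE0 : ∀ q, 0 ≤ E q := fun q => abs_nonneg _
  have hmain : ∑ q ∈ Ioc 0 Q, E q ≤ C * (X / (Real.log X) ^ (2 * A + D)) := h1 X hX Q hQ y hy a ha
  have htriv : ∀ q ∈ Ioc 0 Q, E q ≤ (1 + c) * X * ((q.divisors.card : ℝ) / q) := by
    intro q hq
    rw [mem_Ioc] at hq
    have hq0 : (0 : ℝ) < q := by exact_mod_cast hq.1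
    have hqQ : (q : ℝ) ≤ Q := by exact_mod_cast hq.2
    have hτ : (1 : ℝ) ≤ q.divisors.card := by
      have : 0 < q.divisors.card := card_pos.2 ⟨1, Nat.one_mem_divisors.2 hq.1.ne'⟩
      exact_mod_cast this
    have hφ : (0 : ℝ) < q.totient := by
      exact_mod_cast Nat.totient_pos.2 hq.1
    have hφ2 : (q : ℝ) ≤ q.divisors.card * q.totient := by
      exact_mod_cast le_card_divisors_mul_totient hq.1
    have e1 : (((Ioc 0 (y q)).filter (fun n : ℕ => n.Prime ∧ (n : ZMod q) = a q)).card : ℝ)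
        ≤ (1 + c) * X * ((q.divisors.card : ℝ) / q) := by
      refine le_trans (card_residue_le q hq.1 (a q) (y q)) ?_
      have e2 : (y q : ℝ) / q + 1 ≤ (1 + c) * X / q := by
        rw [div_add_one hq0.ne']
        apply div_le_div_of_nonneg_right _ hq0.le
        have := hy q
        nlinarith
      refine le_trans e2 ?_
      rw [mul_div_assoc']
      apply div_le_div_of_nonneg_right _ hq0.le
      have : 0 < (1 + c) * X := by positivity
      nlinarith
    have e3 : (((Ioc 0 (y q)).filter Nat.Prime).card : ℝ) / (q.totient : ℝ)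
        ≤ (1 + c) * X * ((q.divisors.card : ℝ) / q) := by
      have e4 : (((Ioc 0 (y q)).filter Nat.Prime).card : ℝ) ≤ X := by
        refine le_trans ?_ (hy q)
        have := card_filter_le (Ioc 0 (y q)) Nat.Prime
        rw [Nat.card_Ioc, Nat.sub_zero] at this
        exact_mod_cast this
      have e5 : (1 : ℝ) / q.totient ≤ (q.divisors.card : ℝ) / q := by
        rw [div_le_div_iff₀ hφ hq0]
        linarith
      have e6 : (0 : ℝ) ≤ (((Ioc 0 (y q)).filter Nat.Prime).card : ℝ) := Nat.cast_nonneg _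
      have e7 : (0 : ℝ) ≤ (q.divisors.card : ℝ) / q := by positivity
      calc (((Ioc 0 (y q)).filter Nat.Prime).card : ℝ) / (q.totient : ℝ)
          = (((Ioc 0 (y q)).filter Nat.Prime).card : ℝ) * (1 / (q.totient : ℝ)) := by ring
        _ ≤ X * ((q.divisors.card : ℝ) / q) := mul_le_mul e4 e5 (by positivity) hX0.le
        _ ≤ _ := by
            apply mul_le_mul_of_nonneg_right _ e7
            nlinarith
    have e8 : (0 : ℝ) ≤ (((Ioc 0 (y q)).filter Nat.Prime).card : ℝ) / (q.totient : ℝ) := by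
      positivity
    have e9 : (0 : ℝ) ≤
        (((Ioc 0 (y q)).filter (fun n : ℕ => n.Prime ∧ (n : ZMod q) = a q)).card : ℝ) :=
      Nat.cast_nonneg _
    rw [hE]
    simp only
    rw [abs_le]
    constructor <;> linarith
  have hweighted : ∑ q ∈ Ioc 0 Q, (q.divisors.card : ℝ) ^ (2 * k) * E q
      ≤ (1 + c) * X * (c' * Real.log X) ^ D := by
    calc ∑ q ∈ Ioc 0 Q, (q.divisors.card : ℝ) ^ (2 * k) * E q
        ≤ ∑ q ∈ Ioc 0 Q, (1 + c) * X * ((q.divisors.card : ℝ) ^ (2 * k + 1) / q) := by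
          refine sum_le_sum fun q hq => ?_
          have := mul_le_mul_of_nonneg_left (htriv q hq)
            (by positivity : (0 : ℝ) ≤ (q.divisors.card : ℝ) ^ (2 * k))
          refine le_trans this (le_of_eq ?_)
          rw [pow_succ]; ring
      _ = (1 + c) * X * ∑ q ∈ Ioc 0 Q, (q.divisors.card : ℝ) ^ (2 * k + 1) / q := by
          rw [mul_sum]
      _ ≤ (1 + c) * X * (1 + Real.log Q) ^ D :=
          mul_le_mul_of_nonneg_left (sum_div_pow_le Q hQ0 _) (by positivity)
      _ ≤ _ := by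
          apply mul_le_mul_of_nonneg_left _ (by positivity)
          have hQ1 : (0 : ℝ) < Q := by exact_mod_cast hQ0
          have hQ1' : (1 : ℝ) ≤ Q := by exact_mod_cast hQ0
          apply pow_le_pow_left₀ (by have := Real.log_nonneg hQ1'; linarith)
          have e1 : Real.log Q ≤ Real.log c + Real.log X := by
            rw [← Real.log_mul (by positivity) hX0.ne']
            exact Real.log_le_log hQ1 hQc
          have e2 : (1 + Real.log c) ≤ (1 + Real.log c) / Real.log 2 * Real.log X := by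
            rw [div_mul_eq_mul_div, le_div_iff₀ hlog2]
            exact mul_le_mul_of_nonneg_left hL2 (by linarith)
          rw [hc', add_mul, one_mul]
          linarith
  have hCS : ∑ q ∈ Ioc 0 Q, (q.divisors.card : ℝ) ^ k * E q
      ≤ √(∑ q ∈ Ioc 0 Q, (q.divisors.card : ℝ) ^ (2 * k) * E q) * √(∑ q ∈ Ioc 0 Q, E q) := by
    have h := Real.sum_mul_le_sqrt_mul_sqrt (Ioc 0 Q) (fun q => (q.divisors.card : ℝ) ^ k * √(E q))
      (fun q => √(E q))
    refine le_trans (le_of_eq ?_) (le_trans h (le_of_eq ?_))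
    · refine sum_congr rfl fun q _ => ?_
      rw [mul_assoc, Real.mul_self_sqrt (hE0 q)]
    · congr 2
      · refine sum_congr rfl fun q _ => ?_
        rw [mul_pow, Real.sq_sqrt (hE0 q), ← pow_mul, mul_comm k 2]
      · refine sum_congr rfl fun q _ => ?_
        rw [Real.sq_sqrt (hE0 q)]
  refine le_trans hCS ?_
  rw [← Real.sqrt_mul (sum_nonneg fun q _ => by
    have := hE0 q
    positivity)]
  have hXA : 0 ≤ X / (Real.log X) ^ A := by positivity
  have hrhs : √((1 + c) * c' ^ D * C) * (X / (Real.log X) ^ A)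
      = √((1 + c) * c' ^ D * C * (X / (Real.log X) ^ A) ^ 2) := by
    rw [Real.sqrt_mul (by positivity : (0 : ℝ) ≤ (1 + c) * c' ^ D * C), Real.sqrt_sq hXA]
  rw [hrhs]
  apply Real.sqrt_le_sqrt
  calc (∑ q ∈ Ioc 0 Q, (q.divisors.card : ℝ) ^ (2 * k) * E q) * ∑ q ∈ Ioc 0 Q, E q
      ≤ ((1 + c) * X * (c' * Real.log X) ^ D) * (C * (X / (Real.log X) ^ (2 * A + D))) := by
        apply mul_le_mul hweighted hmain (sum_nonneg fun q _ => hE0 q)
        positivity
    _ = _ := by
        rw [mul_pow, div_pow, ← pow_mul, pow_add, mul_comm 2 A]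
        field_simp

end Pool.Agent.BV
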