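import Pool.Agent.Work.BV.Interface
import Pool.Agent.Work.Circle.Vaughan
import Pool.Agent.Work.Circle.Divisor
import Pool.Agent.Work.MP_081200_nt.PV

/-!
# Block MV: the mean value theorem for `ψ(y, χ)`
-/

set_option autoImplicit false

namespace Pool.Agent.BV

open Finset ArithmeticFunction
open scoped Classical ArithmeticFunction.Moebius

namespace MVproof

open Pool.Agent.Circle

/-- There are at most `φ(r)` primitive characters. -/
lemma card_PC_le (r : ℕ) (hr : 1 ≤ r) : ((PC r).card : ℝ) ≤ r.totient := by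
  have : NeZero r := ⟨by omega⟩
  have h1 : (PC r).card ≤ Fintype.card (DirichletCharacter ℂ r) := card_le_univ _
  have h2 : Fintype.card (DirichletCharacter ℂ r) = r.totient := by
    rw [← Nat.card_eq_fintype_card]
    exact DirichletCharacter.card_eq_totient_of_hasEnoughRootsOfUnity ℂ r
  rw [h2] at h1
  exact_mod_cast h1

/-- Averages over the primitive characters with the weight `1 / φ(r)`. -/
lemma avg_le (r : ℕ) (hr : 1 ≤ r) (F : DirichletCharacter ℂ r → ℝ) (B : ℝ) (hB : 0 ≤ B)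
    (h : ∀ χ ∈ PC r, F χ ≤ B) : (1 / (r.totient : ℝ)) * ∑ χ ∈ PC r, F χ ≤ B := by
  have hφ : (0 : ℝ) < r.totient := by exact_mod_cast Nat.totient_pos.mpr (by omega)
  have h1 : ∑ χ ∈ PC r, F χ ≤ (PC r).card * B := by
    have := sum_le_card_nsmul (PC r) F B h
    rwa [nsmul_eq_mul] at this
  have h2 := card_PC_le r hr
  have h3 : ∑ χ ∈ PC r, F χ ≤ r.totient * B := h1.trans (by gcongr)
  rw [one_div, inv_mul_le_iff₀ hφ]
  exact h3

/-- Abel summation. -/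
lemma abel_le (w : ℕ → ℝ) (c : ℕ → ℂ) (B : ℝ) (hw0 : 0 ≤ w 0) (hw : ∀ n, w n ≤ w (n + 1))
    (hB : ∀ M, ‖∑ b ∈ Ioc 0 M, c b‖ ≤ B) (M : ℕ) :
    ‖∑ b ∈ Ioc 0 M, (w b : ℂ) * c b‖ ≤ 2 * w M * B := by
  have hwM : ∀ M, 0 ≤ w M := by
    intro M
    induction M with
    | zero => exact hw0
    | succ M ih => exact ih.trans (hw M)
  have hstep : ∀ (f : ℕ → ℂ) M, ∑ b ∈ Ioc 0 (M + 1), f b = ∑ b ∈ Ioc 0 M, f b + f (M + 1) := by
    intro f M
    rw [Finset.sum_Ioc_succ_top (Nat.zero_le M)]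
  have key : ∀ M, ‖∑ b ∈ Ioc 0 M, (w b : ℂ) * c b - w M * ∑ b ∈ Ioc 0 M, c b‖ ≤ w M * B := by
    intro M
    induction M with
    | zero =>
      have : 0 ≤ B := (norm_nonneg _).trans (hB 0)
      simp only [Ioc_self, sum_empty, mul_zero, sub_zero, norm_zero]
      exact mul_nonneg hw0 this
    | succ M ih =>
      rw [hstep, hstep]
      have e : ∑ b ∈ Ioc 0 M, (w b : ℂ) * c b + w (M + 1) * c (M + 1)
          - w (M + 1) * (∑ b ∈ Ioc 0 M, c b + c (M + 1))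
          = (∑ b ∈ Ioc 0 M, (w b : ℂ) * c b - w M * ∑ b ∈ Ioc 0 M, c b)
            - ((w (M + 1) - w M : ℝ) : ℂ) * ∑ b ∈ Ioc 0 M, c b := by
        push_cast
        ring
      rw [e]
      refine (norm_sub_le _ _).trans ?_
      rw [norm_mul, Complex.norm_real, Real.norm_eq_abs, abs_of_nonneg (sub_nonneg.2 (hw M))]
      have h2 := mul_le_mul_of_nonneg_left (hB M) (sub_nonneg.2 (hw M))
      linarith
  have h1 := key M
  have h2 : ‖(w M : ℂ) * ∑ b ∈ Ioc 0 M, c b‖ ≤ w M * B := by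
    rw [norm_mul, Complex.norm_real, Real.norm_eq_abs, abs_of_nonneg (hwM M)]
    exact mul_le_mul_of_nonneg_left (hB M) (hwM M)
  have h3 : ∑ b ∈ Ioc 0 M, (w b : ℂ) * c b = (∑ b ∈ Ioc 0 M, (w b : ℂ) * c b
      - w M * ∑ b ∈ Ioc 0 M, c b) + w M * ∑ b ∈ Ioc 0 M, c b := by ring
  rw [h3]
  refine (norm_add_le _ _).trans ?_
  linarith

/-- Polya-Vinogradov for initial segments. -/
lemma pv (r : ℕ) (hr : 2 ≤ r) (χ : DirichletCharacter ℂ r) (hχ : χ.IsPrimitive) (M : ℕ) :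
    ‖∑ b ∈ Ioc 0 M, χ b‖ ≤ √r * (1 + Real.log r) := by
  have h := Pool.Agent.Work.MP_081200_nt.pv_primitive r hr χ hχ 1 M
  convert h using 2
  rw [← Nat.Ico_zero_eq_range]
  have h1 := sum_Ico_add' (fun k : ℕ => χ (k : ZMod r)) 0 M 1
  have h2 : Ico (0 + 1) (M + 1) = Ioc 0 M := by
    ext x
    simp only [mem_Ico, mem_Ioc]
    omega
  rw [h2] at h1
  rw [← h1]
  refine sum_congr rfl fun k _ => ?_
  congr 1
  push_cast
  ring

lemma log_mono_nat (n : ℕ) : Real.log n ≤ Real.log ((n + 1 : ℕ) : ℝ) := by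
  rcases Nat.eq_zero_or_pos n with h | h
  · subst h
    simp
  · exact Real.log_le_log (by exact_mod_cast h) (by push_cast; linarith)

lemma log_nat_le {m n : ℕ} (h : m ≤ n) : Real.log m ≤ Real.log n :=
  monotone_nat_of_le_succ (f := fun n : ℕ => Real.log n) log_mono_nat h

lemma log_nat_nonneg (n : ℕ) : 0 ≤ Real.log n := Real.log_natCast_nonneg n

/-- Trivial bound. -/
lemma psi_le (N : ℕ) (f : ℕ → ℂ) (hf : ∀ n, ‖f n‖ ≤ 1) :
    ‖∑ n ∈ Ioc 0 N, (Λ n : ℂ) * f n‖ ≤ N * Real.log N := by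
  refine (norm_sum_le _ _).trans ?_
  have : ∀ n ∈ Ioc 0 N, ‖(Λ n : ℂ) * f n‖ ≤ Real.log N := by
    intro n hn
    rw [norm_mul, Complex.norm_real, Real.norm_eq_abs, abs_of_nonneg vonMangoldt_nonneg]
    calc _ ≤ Λ n * 1 := mul_le_mul_of_nonneg_left (hf n) vonMangoldt_nonneg
      _ ≤ Real.log n := by rw [mul_one]; exact vonMangoldt_le_log
      _ ≤ _ := log_nat_le (mem_Ioc.mp hn).2
  have h2 := sum_le_card_nsmul (Ioc 0 N) _ _ this
  simpa using h2

/-- The coefficients of the type II sum. -/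
noncomputable def cb (U n : ℕ) : ℂ := if U < n then (Λ n : ℂ) else 0

/-- The type II sum in rectangular form. -/
lemma typeII_eq (U N X : ℕ) (hNX : N ≤ X) (F : ℕ → ℂ) :
    ∑ m ∈ Ioc 0 X, ∑ n ∈ Ioc 0 X, (if m * n ≤ N then (va U m : ℂ) * cb U n * F (m * n) else 0)
      = ∑ m ∈ Ioc U N, (va U m : ℂ) * ∑ n ∈ Ioc U (N / m), (Λ n : ℂ) * F (m * n) := by
  have h1 : ∀ m ∈ Ioc 0 X, ∑ n ∈ Ioc 0 X,
      (if m * n ≤ N then (va U m : ℂ) * cb U n * F (m * n) else 0)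
      = (va U m : ℂ) * ∑ n ∈ Ioc U (N / m), (Λ n : ℂ) * F (m * n) := by
    intro m hm
    have hm0 := (mem_Ioc.mp hm).1
    rw [mul_sum]
    have hsub : Ioc U (N / m) ⊆ Ioc 0 X := by
      intro n hn
      rw [mem_Ioc] at hn ⊢
      exact ⟨by omega, hn.2.trans ((Nat.div_le_self _ _).trans hNX)⟩
    rw [← sum_subset hsub]
    · refine sum_congr rfl fun n hn => ?_
      rw [mem_Ioc] at hn
      have h2 : m * n ≤ N := by
        have := (Nat.le_div_iff_mul_le hm0).mp hn.2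
        rwa [mul_comm] at this
      rw [if_pos h2, cb, if_pos hn.1]
      ring
    · intro n _ hn
      split_ifs with h2
      · have h3 : n ≤ N / m := (Nat.le_div_iff_mul_le hm0).mpr (by rwa [mul_comm] at h2)
        have h4 : ¬ U < n := fun h => hn (mem_Ioc.mpr ⟨h, h3⟩)
        rw [cb, if_neg h4]
        ring
      · rfl
  rw [sum_congr rfl h1]
  symm
  apply sum_subset
  · intro m hm
    rw [mem_Ioc] at hm ⊢
    exact ⟨by omega, hm.2.trans hNX⟩
  · intro m hm hm'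
    rw [mem_Ioc] at hm
    by_cases h : m ≤ U
    · rw [va_eq_zero U m h]
      simp
    · have h2 : N < m := by
        by_contra h3
        exact hm' (mem_Ioc.mpr ⟨by omega, by omega⟩)
      rw [Nat.div_eq_of_lt h2]
      simp

/-- The pointwise bound. -/
lemma pointwise (r : ℕ) (hr : 2 ≤ r) (χ : DirichletCharacter ℂ r) (hχ : χ.IsPrimitive)
    (U N X : ℕ) (hU : 1 ≤ U) (hNX : N ≤ X) (hUX : U * U ≤ X) :
    ‖∑ n ∈ Ioc 0 N, (Λ n : ℂ) * χ n‖ ≤ 4 * (U * U * Real.log X * (√r * (1 + Real.log r)))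
      + ‖∑ m ∈ Ioc 0 X, ∑ n ∈ Ioc 0 X,
        (if m * n ≤ N then (va U m : ℂ) * cb U n * χ ((m * n : ℕ) : ZMod r) else 0)‖ := by
  set B : ℝ := √r * (1 + Real.log r) with hBdef
  have hr1 : (1 : ℝ) ≤ r := by exact_mod_cast (by omega : 1 ≤ r)
  have hB1 : 1 ≤ B := by
    have h1 : (1 : ℝ) ≤ √r := Real.one_le_sqrt.mpr hr1
    have h2 : 0 ≤ Real.log r := Real.log_nonneg hr1
    nlinarith
  have hB0 : 0 ≤ B := by linarith
  have hlX : 0 ≤ Real.log X := log_nat_nonneg X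
  have hU1 : (1 : ℝ) ≤ U := by exact_mod_cast hU
  have hUU : (0 : ℝ) ≤ U * U := by positivity
  have hpv := pv r hr χ hχ
  have hchi : ∀ x : ZMod r, ‖χ x‖ ≤ 1 := fun x => DirichletCharacter.norm_le_one χ x
  by_cases hN : U * U ≤ N
  · have hUN : U ≤ N := le_trans (Nat.le_mul_self U) hN
    rw [vaughan_sum (fun n => χ n) U U N hUN hN hUN]
    have e2 : ∑ m ∈ Ioc U N, (va U m : ℂ) * ∑ n ∈ Ioc U (N / m), (Λ n : ℂ) *
        χ ((m * n : ℕ) : ZMod r) = ∑ m ∈ Ioc 0 X, ∑ n ∈ Ioc 0 X,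
        (if m * n ≤ N then (va U m : ℂ) * cb U n * χ ((m * n : ℕ) : ZMod r) else 0) :=
      (typeII_eq U N X hNX (fun k => χ (k : ZMod r))).symm
    rw [e2]
    refine (norm_add_le _ _).trans ?_
    refine add_le_add ?_ le_rfl
    refine (norm_sub_le _ _).trans ?_
    have hS0 : ‖∑ n ∈ Ioc 0 U, (Λ n : ℂ) * χ (n : ZMod r)‖ ≤ U * U * Real.log X * B := by
      refine (psi_le U (fun n => χ (n : ZMod r)) (fun n => hchi _)).trans ?_
      have h1 : Real.log U ≤ Real.log X := log_nat_le (hUN.trans hNX)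
      calc (U : ℝ) * Real.log U ≤ U * Real.log X := by gcongr
        _ ≤ (U * U) * Real.log X := by
          have : (U : ℝ) ≤ U * U := by nlinarith
          gcongr
        _ = U * U * Real.log X * 1 := by ring
        _ ≤ U * U * Real.log X * B := by gcongr
    have hS1 : ‖∑ a ∈ Ioc 0 U, (((μ : ArithmeticFunction ℝ) a : ℝ) : ℂ) *
        ∑ b ∈ Ioc 0 (N / a), (Real.log b : ℂ) * χ ((a * b : ℕ) : ZMod r)‖
        ≤ 2 * (U * U * Real.log X * B) := by
      refine (norm_sum_le _ _).trans ?_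
      have h1 : ∀ a ∈ Ioc 0 U, ‖(((μ : ArithmeticFunction ℝ) a : ℝ) : ℂ) *
          ∑ b ∈ Ioc 0 (N / a), (Real.log b : ℂ) * χ ((a * b : ℕ) : ZMod r)‖
          ≤ 2 * Real.log X * B := by
        intro a _
        have e3 : ∑ b ∈ Ioc 0 (N / a), (Real.log b : ℂ) * χ ((a * b : ℕ) : ZMod r)
            = χ (a : ZMod r) * ∑ b ∈ Ioc 0 (N / a), (Real.log b : ℂ) * χ (b : ZMod r) := by
          rw [mul_sum]
          refine sum_congr rfl fun b _ => ?_
          push_cast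
          rw [map_mul]
          ring
        rw [e3, norm_mul, norm_mul, Complex.norm_real, Real.norm_eq_abs]
        have h2 := abel_le (fun n : ℕ => Real.log n) (fun n => χ (n : ZMod r)) B (by simp)
          log_mono_nat hpv (N / a)
        have h3 : Real.log ((N / a : ℕ) : ℝ) ≤ Real.log X :=
          log_nat_le ((Nat.div_le_self _ _).trans hNX)
        have h4 : 2 * Real.log ((N / a : ℕ) : ℝ) * B ≤ 2 * Real.log X * B := by gcongr
        calc |((μ : ArithmeticFunction ℝ) a)| * (‖χ (a : ZMod r)‖ *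
              ‖∑ b ∈ Ioc 0 (N / a), (Real.log b : ℂ) * χ (b : ZMod r)‖)
            ≤ 1 * (1 * (2 * Real.log X * B)) := by
              refine mul_le_mul (abs_moebius_le a) ?_ (by positivity) zero_le_one
              exact mul_le_mul (hchi _) (h2.trans h4) (norm_nonneg _) zero_le_one
          _ = _ := by ring
      have h5 := sum_le_card_nsmul (Ioc 0 U) _ _ h1
      simp only [Nat.card_Ioc, Nat.sub_zero, nsmul_eq_mul] at h5
      refine h5.trans ?_
      have : (U : ℝ) ≤ U * U := by nlinarith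
      calc (U : ℝ) * (2 * Real.log X * B) ≤ (U * U) * (2 * Real.log X * B) := by gcongr
        _ = _ := by ring
    have hS2 : ‖∑ k ∈ Ioc 0 (U * U), (vc U U k : ℂ) * ∑ s ∈ Ioc 0 (N / k),
        χ ((k * s : ℕ) : ZMod r)‖ ≤ U * U * Real.log X * B := by
      refine (norm_sum_le _ _).trans ?_
      have h1 : ∀ k ∈ Ioc 0 (U * U), ‖(vc U U k : ℂ) * ∑ s ∈ Ioc 0 (N / k),
          χ ((k * s : ℕ) : ZMod r)‖ ≤ Real.log X * B := by
        intro k hk
        have e3 : ∑ s ∈ Ioc 0 (N / k), χ ((k * s : ℕ) : ZMod r)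
            = χ (k : ZMod r) * ∑ s ∈ Ioc 0 (N / k), χ (s : ZMod r) := by
          rw [mul_sum]
          refine sum_congr rfl fun b _ => ?_
          push_cast
          rw [map_mul]
        rw [e3, norm_mul, norm_mul, Complex.norm_real, Real.norm_eq_abs]
        have h3 : Real.log (k : ℝ) ≤ Real.log X :=
          log_nat_le ((mem_Ioc.mp hk).2.trans hUX)
        calc |vc U U k| * (‖χ (k : ZMod r)‖ * ‖∑ s ∈ Ioc 0 (N / k), χ (s : ZMod r)‖)
            ≤ Real.log X * (1 * B) := by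
              refine mul_le_mul ((abs_vc_le U U k).trans h3) ?_ (by positivity) hlX
              exact mul_le_mul (hchi _) (hpv _) (norm_nonneg _) zero_le_one
          _ = _ := by ring
      have h5 := sum_le_card_nsmul (Ioc 0 (U * U)) _ _ h1
      simp only [Nat.card_Ioc, Nat.sub_zero, nsmul_eq_mul] at h5
      refine h5.trans (le_of_eq ?_)
      push_cast
      ring
    have hS01 := norm_add_le (∑ n ∈ Ioc 0 U, (Λ n : ℂ) * χ (n : ZMod r))
      (∑ a ∈ Ioc 0 U, (((μ : ArithmeticFunction ℝ) a : ℝ) : ℂ) *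
        ∑ b ∈ Ioc 0 (N / a), (Real.log b : ℂ) * χ ((a * b : ℕ) : ZMod r))
    linarith
  · rw [not_le] at hN
    have h1 := psi_le N (fun n => χ (n : ZMod r)) (fun n => hchi _)
    have h2 : (N : ℝ) ≤ U * U := by exact_mod_cast hN.le
    have h3 : Real.log N ≤ Real.log X := log_nat_le hNX
    have h4 : (N : ℝ) * Real.log N ≤ U * U * Real.log X := mul_le_mul h2 h3 (log_nat_nonneg N) hUU
    have h5 : U * U * Real.log X * 1 ≤ U * U * Real.log X * B := by gcongr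
    have h6 : 0 ≤ U * U * Real.log X * B := by positivity
    have h7 : 0 ≤ ‖∑ m ∈ Ioc 0 X, ∑ n ∈ Ioc 0 X,
        (if m * n ≤ N then (va U m : ℂ) * cb U n * χ ((m * n : ℕ) : ZMod r) else 0)‖ :=
      norm_nonneg _
    linarith

/-- The total of the elementary terms. -/
lemma sum_elem (R Q X U : ℕ) (hX : 2 ≤ X) (hQX : Q ≤ X) (hU2 : (U : ℝ) * U ≤ (X : ℝ) ^ (1 / 5 : ℝ)) :
    ∑ r ∈ Ioc R Q, 4 * (U * U * Real.log X * (√r * (1 + Real.log r)))
      ≤ 12 * (Real.log X) ^ 2 * ((X : ℝ) ^ (1 / 5 : ℝ) * (Q : ℝ) ^ (3 / 2 : ℝ)) := by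
  have hX2 : (2 : ℝ) ≤ X := by exact_mod_cast hX
  have hl2 : 1 / 2 ≤ Real.log X := by
    have h1 := Real.log_two_gt_d9
    have h2 := Real.log_le_log (by norm_num) hX2
    linarith
  have hl0 : 0 ≤ Real.log X := by linarith
  have hterm : ∀ r ∈ Ioc R Q, 4 * (U * U * Real.log X * (√r * (1 + Real.log r)))
      ≤ 12 * (Real.log X) ^ 2 * ((X : ℝ) ^ (1 / 5 : ℝ) * √Q) := by
    intro r hr
    rw [mem_Ioc] at hr
    have h1 : √(r : ℝ) ≤ √Q := Real.sqrt_le_sqrt (by exact_mod_cast hr.2)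
    have h2 : Real.log r ≤ Real.log X := log_nat_le (hr.2.trans hQX)
    have h3 : 1 + Real.log r ≤ 3 * Real.log X := by linarith
    have h4 : 0 ≤ 1 + Real.log r := by
      have := log_nat_nonneg r
      linarith
    calc 4 * (U * U * Real.log X * (√r * (1 + Real.log r)))
        ≤ 4 * ((X : ℝ) ^ (1 / 5 : ℝ) * Real.log X * (√Q * (3 * Real.log X))) := by gcongr
      _ = _ := by ring
  have h5 := sum_le_card_nsmul (Ioc R Q) _ _ hterm
  rw [nsmul_eq_mul, Nat.card_Ioc] at h5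
  refine h5.trans ?_
  have h6 : ((Q - R : ℕ) : ℝ) ≤ Q := by exact_mod_cast Nat.sub_le Q R
  have h7 : (Q : ℝ) ^ (3 / 2 : ℝ) = Q * √Q := by
    rcases Nat.eq_zero_or_pos Q with h | h
    · subst h
      rw [Nat.cast_zero, Real.zero_rpow (by norm_num), zero_mul]
    · have hQ : (0 : ℝ) < Q := by exact_mod_cast h
      rw [show (3 / 2 : ℝ) = 1 + 1 / 2 by norm_num, Real.rpow_add hQ, Real.rpow_one,
        ← Real.sqrt_eq_rpow]
  rw [h7]
  have h8 : 0 ≤ 12 * (Real.log X) ^ 2 * ((X : ℝ) ^ (1 / 5 : ℝ) * √Q) := by positivity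
  calc ((Q - R : ℕ) : ℝ) * (12 * (Real.log X) ^ 2 * ((X : ℝ) ^ (1 / 5 : ℝ) * √Q))
      ≤ Q * (12 * (Real.log X) ^ 2 * ((X : ℝ) ^ (1 / 5 : ℝ) * √Q)) := by gcongr
    _ = _ := by ring

end MVproof

open MVproof Pool.Agent.Circle in
/-- Block MV. -/
theorem MV (hT2 : Stmt_T2) : Stmt_MV := by
  obtain ⟨C, hC, hT⟩ := hT2
  refine ⟨768 + 432 * C, by positivity, ?_⟩
  intro R Q X hX hR hQX y hy
  have hX2 : (2 : ℝ) ≤ X := by exact_mod_cast hX
  have hX0 : (0 : ℝ) < X := by linarith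
  have hX1 : (1 : ℝ) ≤ X := by linarith
  have hl2 : 1 / 2 ≤ Real.log X := by
    have h1 := Real.log_two_gt_d9
    have h2 := Real.log_le_log (by norm_num) hX2
    linarith
  have hl0 : 0 ≤ Real.log X := by linarith
  set l := Real.log X with hl
  -- the parameter
  set U : ℕ := ⌊(X : ℝ) ^ (1 / 10 : ℝ)⌋₊ with hUdef
  have hx1 : (1 : ℝ) ≤ (X : ℝ) ^ (1 / 10 : ℝ) := Real.one_le_rpow hX1 (by norm_num)
  have hU1 : 1 ≤ U := by
    rw [hUdef, Nat.one_le_floor_iff]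
    exact hx1
  have hUle : (U : ℝ) ≤ (X : ℝ) ^ (1 / 10 : ℝ) := Nat.floor_le (by positivity)
  have hUge : (X : ℝ) ^ (1 / 10 : ℝ) / 2 ≤ U := by
    have h1 := Nat.lt_floor_add_one ((X : ℝ) ^ (1 / 10 : ℝ))
    have h2 : (1 : ℝ) ≤ U := by exact_mod_cast hU1
    linarith
  have hU2 : (U : ℝ) * U ≤ (X : ℝ) ^ (1 / 5 : ℝ) := by
    calc (U : ℝ) * U ≤ (X : ℝ) ^ (1 / 10 : ℝ) * (X : ℝ) ^ (1 / 10 : ℝ) := by gcongr
      _ = _ := by rw [← Real.rpow_add hX0]; norm_num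
  have hUX : U * U ≤ X := by
    have h1 : (X : ℝ) ^ (1 / 5 : ℝ) ≤ (X : ℝ) ^ (1 : ℝ) :=
      Real.rpow_le_rpow_of_exponent_le hX1 (by norm_num)
    rw [Real.rpow_one] at h1
    have h2 := hU2.trans h1
    exact_mod_cast h2
  -- type II
  set L : ℝ := (1 + l) ^ 3 with hL
  have hlog : ∀ M : ℕ, M ≤ X → Real.log M ≤ l := fun M hM => log_nat_le hM
  have hT' := hT R Q U U X hX hR hQX hU1 hU1 L (by positivity) (fun m => (va U m : ℂ)) (cb U)
    (fun m hm => by simp [va_eq_zero U m hm])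
    (fun n hn => by rw [cb, if_neg (by omega)])
    (by
      intro M hM
      have h1 : ∑ m ∈ Ioc 0 M, ‖(va U m : ℂ)‖ ^ 2 ≤ ∑ m ∈ Ioc 0 M, (m.divisors.card : ℝ) ^ 2 := by
        refine sum_le_sum fun m _ => ?_
        rw [Complex.norm_real, Real.norm_eq_abs]
        have := abs_va_le U m
        gcongr
      refine h1.trans ((sum_divisors_sq_le M).trans ?_)
      rw [mul_comm]
      have h2 := hlog M hM
      have h3 := log_nat_nonneg M
      rw [hL]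
      gcongr)
    (by
      intro N hN
      have h1 : ∀ n ∈ Ioc 0 N, ‖cb U n‖ ^ 2 ≤ L := by
        intro n hn
        rw [cb]
        split_ifs
        · rw [Complex.norm_real, Real.norm_eq_abs, abs_of_nonneg vonMangoldt_nonneg]
          have h2 : Λ n ≤ l := vonMangoldt_le_log.trans
            (hlog n ((mem_Ioc.mp hn).2.trans hN))
          have h3 : (0 : ℝ) ≤ Λ n := vonMangoldt_nonneg
          calc (Λ n) ^ 2 ≤ l ^ 2 := by gcongr
            _ ≤ L := by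
              rw [hL]
              nlinarith [sq_nonneg l, mul_nonneg hl0 (sq_nonneg l)]
        · rw [norm_zero, zero_pow two_ne_zero, hL]
          positivity
      have h5 := sum_le_card_nsmul (Ioc 0 N) _ _ h1
      rw [nsmul_eq_mul, Nat.card_Ioc, Nat.sub_zero, mul_comm] at h5
      exact h5)
    y hy
  -- the pointwise bound
  have hpt : ∀ r ∈ Ioc R Q, (1 / (r.totient : ℝ)) * ∑ χ ∈ PC r,
      ‖∑ n ∈ Ioc 0 (y r χ), (Λ n : ℂ) * χ n‖
      ≤ 4 * (U * U * l * (√r * (1 + Real.log r))) + (1 / (r.totient : ℝ)) * ∑ χ ∈ PC r,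
        ‖∑ m ∈ Ioc 0 X, ∑ n ∈ Ioc 0 X,
          (if m * n ≤ y r χ then (va U m : ℂ) * cb U n * χ ((m * n : ℕ) : ZMod r) else 0)‖ := by
    intro r hr
    rw [mem_Ioc] at hr
    have hr2 : 2 ≤ r := by omega
    have hr1 : (1 : ℝ) ≤ r := by exact_mod_cast (by omega : 1 ≤ r)
    have hlr : 0 ≤ Real.log r := Real.log_nonneg hr1
    have h1 : ∀ χ ∈ PC r, ‖∑ n ∈ Ioc 0 (y r χ), (Λ n : ℂ) * χ n‖
        ≤ 4 * (U * U * l * (√r * (1 + Real.log r))) + ‖∑ m ∈ Ioc 0 X, ∑ n ∈ Ioc 0 X,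
          (if m * n ≤ y r χ then (va U m : ℂ) * cb U n * χ ((m * n : ℕ) : ZMod r) else 0)‖ := by
      intro χ hχ
      exact pointwise r hr2 χ (by simpa [PC] using hχ) U (y r χ) X hU1 (hy r χ) hUX
    have hφ : (0 : ℝ) < r.totient := by exact_mod_cast Nat.totient_pos.mpr (by omega)
    calc _ ≤ (1 / (r.totient : ℝ)) * ∑ χ ∈ PC r, (4 * (U * U * l * (√r * (1 + Real.log r)))
          + ‖∑ m ∈ Ioc 0 X, ∑ n ∈ Ioc 0 X,
          (if m * n ≤ y r χ then (va U m : ℂ) * cb U n * χ ((m * n : ℕ) : ZMod r) else 0)‖) := by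
          gcongr with χ hχ
          exact h1 χ hχ
      _ = (1 / (r.totient : ℝ)) * ∑ χ ∈ PC r, (4 * (U * U * l * (√r * (1 + Real.log r))))
          + (1 / (r.totient : ℝ)) * ∑ χ ∈ PC r, ‖∑ m ∈ Ioc 0 X, ∑ n ∈ Ioc 0 X,
          (if m * n ≤ y r χ then (va U m : ℂ) * cb U n * χ ((m * n : ℕ) : ZMod r) else 0)‖ := by
          rw [sum_add_distrib, mul_add]
      _ ≤ _ := by
          refine add_le_add ?_ le_rfl
          have hl' : 0 ≤ 1 + Real.log r := by linarith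
          have hB0 : 0 ≤ 4 * (U * U * l * (√r * (1 + Real.log r))) := by positivity
          exact avg_le r (by omega) (fun _ => 4 * (U * U * l * (√r * (1 + Real.log r))))
            (4 * (U * U * l * (√r * (1 + Real.log r)))) hB0 (fun _ _ => le_rfl)
  refine (sum_le_sum hpt).trans ?_
  rw [sum_add_distrib]
  have hE := sum_elem R Q X U hX hQX hU2
  -- bounds for the parameters
  have hsq : (X : ℝ) / √(U : ℝ) ≤ 2 * (X : ℝ) ^ (19 / 20 : ℝ) := by
    have h1 : (X : ℝ) ^ (1 / 20 : ℝ) / 2 ≤ √(U : ℝ) := by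
      apply Real.le_sqrt_of_sq_le
      calc ((X : ℝ) ^ (1 / 20 : ℝ) / 2) ^ 2 = (X : ℝ) ^ (1 / 10 : ℝ) / 4 := by
            rw [div_pow, ← Real.rpow_natCast, ← Real.rpow_mul hX0.le]
            norm_num
        _ ≤ (X : ℝ) ^ (1 / 10 : ℝ) / 2 := by
            have : (0 : ℝ) ≤ (X : ℝ) ^ (1 / 10 : ℝ) := by positivity
            linarith
        _ ≤ U := hUge
    have h2 : (0 : ℝ) < (X : ℝ) ^ (1 / 20 : ℝ) := by positivity
    rw [div_le_iff₀ (by linarith)]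
    calc (X : ℝ) = (X : ℝ) ^ (19 / 20 : ℝ) * (X : ℝ) ^ (1 / 20 : ℝ) := by
          rw [← Real.rpow_add hX0]; norm_num
      _ = 2 * (X : ℝ) ^ (19 / 20 : ℝ) * ((X : ℝ) ^ (1 / 20 : ℝ) / 2) := by ring
      _ ≤ _ := by gcongr
  have hLle : L ≤ 27 * l ^ 3 := by
    have h1 : 1 + l ≤ 3 * l := by linarith
    calc L ≤ (3 * l) ^ 3 := by rw [hL]; gcongr
      _ = _ := by ring
  have hR0 : (0 : ℝ) < R := by exact_mod_cast hR
  have hA0 : 0 ≤ (X : ℝ) / R := by positivity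
  have hA1 : 0 ≤ (X : ℝ) ^ (19 / 20 : ℝ) := by positivity
  have hA2 : 0 ≤ (X : ℝ) ^ (1 / 5 : ℝ) * (Q : ℝ) ^ (3 / 2 : ℝ) := by positivity
  have hA3 : 0 ≤ (Q : ℝ) * √(X : ℝ) := by positivity
  set S : ℝ := X / R + (X : ℝ) ^ (19 / 20 : ℝ) + (X : ℝ) ^ (1 / 5 : ℝ) * (Q : ℝ) ^ (3 / 2 : ℝ)
    + Q * √(X : ℝ) with hS
  have hS0 : 0 ≤ S := by positivity
  have hTs : (X : ℝ) / R + X / √(U : ℝ) + X / √(U : ℝ) + Q * √(X : ℝ) ≤ 4 * S := by
    rw [hS]
    linarith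
  have hT3 : C * L * l ^ 3 * (X / R + X / √(U : ℝ) + X / √(U : ℝ) + Q * √(X : ℝ))
      ≤ C * (27 * l ^ 3) * l ^ 3 * (4 * S) := by
    have h0 : 0 ≤ (X : ℝ) / R + X / √(U : ℝ) + X / √(U : ℝ) + Q * √(X : ℝ) := by positivity
    gcongr
  have hl6 : 1 ≤ (2 * l) ^ 6 := one_le_pow₀ (by linarith)
  have hl22 : 1 ≤ (2 * l) ^ 2 := one_le_pow₀ (by linarith)
  have e1 : l ^ 2 ≤ 64 * l ^ 8 := by
    have : l ^ 2 * 1 ≤ l ^ 2 * (2 * l) ^ 6 := by gcongr
    calc l ^ 2 = l ^ 2 * 1 := by ring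
      _ ≤ l ^ 2 * (2 * l) ^ 6 := this
      _ = _ := by ring
  have e2 : l ^ 6 ≤ 4 * l ^ 8 := by
    have : l ^ 6 * 1 ≤ l ^ 6 * (2 * l) ^ 2 := by gcongr
    calc l ^ 6 = l ^ 6 * 1 := by ring
      _ ≤ l ^ 6 * (2 * l) ^ 2 := this
      _ = _ := by ring
  have hA2S : (X : ℝ) ^ (1 / 5 : ℝ) * (Q : ℝ) ^ (3 / 2 : ℝ) ≤ S := by
    rw [hS]
    linarith
  have f1 : 12 * l ^ 2 * ((X : ℝ) ^ (1 / 5 : ℝ) * (Q : ℝ) ^ (3 / 2 : ℝ)) ≤ 768 * l ^ 8 * S := by
    calc _ ≤ 12 * (64 * l ^ 8) * S := by gcongr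
      _ = _ := by ring
  have f2 : C * (27 * l ^ 3) * l ^ 3 * (4 * S) ≤ 432 * C * l ^ 8 * S := by
    calc C * (27 * l ^ 3) * l ^ 3 * (4 * S) = 108 * C * l ^ 6 * S := by ring
      _ ≤ 108 * C * (4 * l ^ 8) * S := by gcongr
      _ = _ := by ring
  have := hT'.trans hT3
  calc _ ≤ 768 * l ^ 8 * S + 432 * C * l ^ 8 * S := by linarith
    _ = (768 + 432 * C) * l ^ 8 * S := by ring

end Pool.Agent.BV
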