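import Pool.Agent.Work.BV.Interface

/-! PHI: the sum of `1 / φ`. -/

set_option autoImplicit false

namespace Pool.Agent.BV

open Finset ArithmeticFunction

namespace Phi

theorem totient_prod_primes (t : Finset ℕ) (ht : ∀ p ∈ t, p.Prime) :
    (∏ p ∈ t, p).totient = ∏ p ∈ t, (p - 1) := by
  have h1 := Nat.totient_mul_prod_primeFactors (∏ p ∈ t, p)
  rw [Nat.primeFactors_prod ht, mul_comm] at h1
  exact Nat.eq_of_mul_eq_mul_left (prod_pos fun p hp => (ht p hp).pos) h1

theorem squarefree_prod_primes (t : Finset ℕ) (ht : ∀ p ∈ t, p.Prime) :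
    Squarefree (∏ p ∈ t, p) := by
  induction t using Finset.induction_on with
  | empty => simp
  | insert p s hps ih =>
    have ih' := ih fun p' hp' => ht p' (mem_insert_of_mem hp')
    rw [prod_insert hps]
    rw [Nat.squarefree_mul]
    · exact ⟨(ht p (mem_insert_self p s)).squarefree, ih'⟩
    · rw [Nat.coprime_prod_right_iff]
      intro q hq
      rw [Nat.coprime_primes (ht p (mem_insert_self p s)) (ht q (mem_insert_of_mem hq))]
      rintro rfl
      exact hps hq

theorem le_two_totient_sq (t : Finset ℕ) (ht : ∀ p ∈ t, p.Prime) :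
    ∏ p ∈ t, p ≤ 2 * (∏ p ∈ t, (p - 1)) ^ 2 := by
  have h4 : ∀ s : Finset ℕ, (∀ p ∈ s, p.Prime) →
      ∏ p ∈ s, p ≤ (if 2 ∈ s then 2 else 1) * (∏ p ∈ s, (p - 1)) ^ 2 := by
    intro s
    induction s using Finset.induction_on with
    | empty => intro _; simp
    | insert p s hps ih =>
      intro hp
      have ih' := ih fun p' hp' => hp p' (mem_insert_of_mem hp')
      rw [prod_insert hps, prod_insert hps]
      have hpp := (hp p (mem_insert_self p s)).two_le
      rcases Nat.eq_or_lt_of_le hpp with h5 | h5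
      · subst h5
        rw [if_neg hps] at ih'
        rw [if_pos (mem_insert_self 2 s)]
        calc 2 * ∏ p ∈ s, p ≤ 2 * (1 * (∏ p ∈ s, (p - 1)) ^ 2) := Nat.mul_le_mul_left 2 ih'
          _ = _ := by norm_num
      · have h6 : (if 2 ∈ insert p s then 2 else 1) = (if 2 ∈ s then 2 else 1) := by
          have : 2 ∈ insert p s ↔ 2 ∈ s := by
            rw [mem_insert]
            constructor
            · rintro (h | h)
              · omega
              · exact h
            · exact Or.inr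
          simp only [this]
        rw [h6]
        have h7 : p ≤ (p - 1) ^ 2 := by
          obtain ⟨k, rfl⟩ := Nat.exists_eq_add_of_lt h5
          have : 2 + k + 1 - 1 = k + 2 := by omega
          rw [this]
          nlinarith
        calc p * ∏ p ∈ s, p ≤ (p - 1) ^ 2 * ((if 2 ∈ s then 2 else 1) * (∏ p ∈ s, (p - 1)) ^ 2) :=
              Nat.mul_le_mul h7 ih'
          _ = _ := by ring
  refine (h4 t ht).trans ?_
  apply Nat.mul_le_mul_right
  split_ifs <;> norm_num

/-- The weight of a divisor. -/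
noncomputable def g (d : ℕ) : ℝ := if Squarefree d then 1 / (d.totient : ℝ) else 0

theorem g_nonneg (d : ℕ) : 0 ≤ g d := by
  unfold g
  split_ifs <;> positivity

theorem ratio_le (s : ℕ) (hs : 0 < s) : (s : ℝ) / s.totient ≤ ∑ d ∈ s.divisors, g d := by
  have hφ : (0 : ℝ) < s.totient := by exact_mod_cast Nat.totient_pos.mpr hs
  have h1 : (s : ℝ) / s.totient = ∏ p ∈ s.primeFactors, (1 + 1 / ((p - 1 : ℕ) : ℝ)) := by
    have h2 := Nat.totient_mul_prod_primeFactors s
    have h3 : (s.totient : ℝ) * ∏ p ∈ s.primeFactors, (p : ℝ)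
        = s * ∏ p ∈ s.primeFactors, ((p - 1 : ℕ) : ℝ) := by
      rw [← Nat.cast_prod, ← Nat.cast_prod, ← Nat.cast_mul, ← Nat.cast_mul, h2]
    have h4 : ∏ p ∈ s.primeFactors, (1 + 1 / ((p - 1 : ℕ) : ℝ))
        = (∏ p ∈ s.primeFactors, (p : ℝ)) / ∏ p ∈ s.primeFactors, ((p - 1 : ℕ) : ℝ) := by
      rw [← prod_div_distrib]
      refine prod_congr rfl fun p hp => ?_
      have h5 := (Nat.prime_of_mem_primeFactors hp).two_le
      have h6 : ((p - 1 : ℕ) : ℝ) = (p : ℝ) - 1 := by rw [Nat.cast_sub (by omega), Nat.cast_one]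
      have h7 : (0 : ℝ) < (p : ℝ) - 1 := by
        have : (2 : ℝ) ≤ p := by exact_mod_cast h5
        linarith
      rw [h6]
      field_simp
      ring
    have h5 : 0 < ∏ p ∈ s.primeFactors, ((p - 1 : ℕ) : ℝ) := by
      refine prod_pos fun p hp => ?_
      have h5 := (Nat.prime_of_mem_primeFactors hp).two_le
      have : 0 < p - 1 := by omega
      exact_mod_cast this
    rw [h4, div_eq_div_iff hφ.ne' h5.ne']
    linarith
  have h8 : ∀ t ∈ s.primeFactors.powerset, ∀ p ∈ t, p.Prime := fun t ht p hp =>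
    Nat.prime_of_mem_primeFactors (mem_powerset.mp ht hp)
  have h9 : ∏ p ∈ s.primeFactors, (1 + 1 / ((p - 1 : ℕ) : ℝ))
      = ∑ t ∈ s.primeFactors.powerset, g (∏ p ∈ t, p) := by
    rw [prod_one_add]
    refine sum_congr rfl fun t ht => ?_
    unfold g
    rw [if_pos (squarefree_prod_primes t (h8 t ht)), totient_prod_primes t (h8 t ht),
      Nat.cast_prod, prod_div_distrib]
    simp
  rw [h1, h9]
  have h10 : Set.InjOn (fun t : Finset ℕ => ∏ p ∈ t, p) (s.primeFactors.powerset : Set (Finset ℕ)) := by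
    intro t ht t' ht' h
    have h11 := congrArg Nat.primeFactors h
    simp only at h11
    rwa [Nat.primeFactors_prod (h8 t ht), Nat.primeFactors_prod (h8 t' ht')] at h11
  rw [← sum_image (f := g) h10]
  refine sum_le_sum_of_subset_of_nonneg ?_ fun _ _ _ => g_nonneg _
  intro d hd
  rw [mem_image] at hd
  obtain ⟨t, ht, rfl⟩ := hd
  rw [Nat.mem_divisors]
  refine ⟨(prod_dvd_prod_of_subset _ _ _ (mem_powerset.mp ht)).trans (Nat.prod_primeFactors_dvd s), hs.ne'⟩

theorem g_div_le (d : ℕ) (hd : 0 < d) : g d / d ≤ 2 * (1 / (d : ℝ) ^ (3 / 2 : ℝ)) := by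
  have hdr : (0 : ℝ) < d := by exact_mod_cast hd
  unfold g
  split_ifs with hsq
  · have h1 := le_two_totient_sq d.primeFactors fun p hp => Nat.prime_of_mem_primeFactors hp
    have h2 := totient_prod_primes d.primeFactors fun p hp => Nat.prime_of_mem_primeFactors hp
    rw [← h2, Nat.prod_primeFactors_of_squarefree hsq] at h1
    have h3 : (d : ℝ) ≤ 2 * (d.totient : ℝ) ^ 2 := by exact_mod_cast h1
    have hφ : (0 : ℝ) < d.totient := by exact_mod_cast Nat.totient_pos.mpr hd
    have h4 : √(d : ℝ) ≤ 2 * d.totient := by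
      rw [Real.sqrt_le_left (by positivity)]
      nlinarith
    have h5 : (d : ℝ) ^ (3 / 2 : ℝ) = d * √d := by
      rw [Real.sqrt_eq_rpow, ← Real.rpow_one_add' hdr.le (by norm_num)]
      norm_num
    rw [h5, div_div, mul_one_div, div_le_div_iff₀ (by positivity) (by positivity)]
    nlinarith
  · rw [zero_div]
    positivity

end Phi

open Phi in
theorem stmt_PHI : Stmt_PHI := by
  have hsum : Summable fun n : ℕ => 1 / (n : ℝ) ^ (3 / 2 : ℝ) :=
    Real.summable_one_div_nat_rpow.mpr (by norm_num)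
  set K : ℝ := ∑' n : ℕ, 1 / (n : ℝ) ^ (3 / 2 : ℝ) with hK
  have hK0 : 0 ≤ K := tsum_nonneg fun n => by positivity
  refine ⟨6 * (K + 1), by positivity, ?_⟩
  intro X hX
  have hXr : (2 : ℝ) ≤ X := by exact_mod_cast hX
  have hlog2 : 1 / 2 ≤ Real.log X := by
    have h1 := Real.log_two_gt_d9
    have h2 : Real.log 2 ≤ Real.log X := Real.log_le_log (by norm_num) hXr
    linarith
  have h1 : ∀ s ∈ Ioc 0 X, 1 / (s.totient : ℝ) ≤ ∑ d ∈ Ioc 0 X, if d ∣ s then (1 / (s : ℝ)) * g d else 0 := by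
    intro s hs
    rw [mem_Ioc] at hs
    have hsr : (0 : ℝ) < s := by exact_mod_cast hs.1
    have hφ : (0 : ℝ) < s.totient := by exact_mod_cast Nat.totient_pos.mpr hs.1
    have h2 : 1 / (s.totient : ℝ) = (1 / (s : ℝ)) * ((s : ℝ) / s.totient) := by
      field_simp
    rw [h2]
    calc (1 / (s : ℝ)) * ((s : ℝ) / s.totient) ≤ (1 / (s : ℝ)) * ∑ d ∈ s.divisors, g d := by
          gcongr
          exact ratio_le s hs.1
      _ = ∑ d ∈ s.divisors, (1 / (s : ℝ)) * g d := by rw [mul_sum]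
      _ = ∑ d ∈ (Ioc 0 X).filter (fun d => d ∣ s), (1 / (s : ℝ)) * g d := by
          refine sum_congr ?_ fun _ _ => rfl
          ext d
          rw [Nat.mem_divisors, mem_filter, mem_Ioc]
          constructor
          · rintro ⟨h3, h4⟩
            exact ⟨⟨Nat.pos_of_dvd_of_pos h3 hs.1, (Nat.le_of_dvd hs.1 h3).trans hs.2⟩, h3⟩
          · rintro ⟨_, h3⟩
            exact ⟨h3, by omega⟩
      _ = _ := by rw [sum_filter]
  refine (sum_le_sum h1).trans ?_
  rw [sum_comm]
  have h3 : ∀ d ∈ Ioc 0 X, ∑ s ∈ Ioc 0 X, (if d ∣ s then (1 / (s : ℝ)) * g d else 0)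
      ≤ (g d / d) * (1 + Real.log X) := by
    intro d hd
    rw [mem_Ioc] at hd
    have hdr : (0 : ℝ) < d := by exact_mod_cast hd.1
    rw [← sum_filter]
    have h4 : ∑ s ∈ (Ioc 0 X).filter (fun s => d ∣ s), (1 / (s : ℝ)) * g d
        ≤ ∑ s ∈ (Ioc 0 X).image (fun m => d * m), (1 / (s : ℝ)) * g d := by
      refine sum_le_sum_of_subset_of_nonneg ?_ fun s _ _ => mul_nonneg (by positivity) (g_nonneg _)
      intro s hs
      rw [mem_filter, mem_Ioc] at hs
      obtain ⟨⟨hs0, hsX⟩, m, rfl⟩ := hs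
      rw [mem_image]
      refine ⟨m, mem_Ioc.mpr ⟨Nat.pos_of_mul_pos_left hs0, ?_⟩, rfl⟩
      exact (Nat.le_mul_of_pos_left m hd.1).trans hsX
    refine h4.trans ?_
    rw [sum_image (fun a _ b _ h => Nat.eq_of_mul_eq_mul_left hd.1 h)]
    calc ∑ m ∈ Ioc 0 X, (1 / ((d * m : ℕ) : ℝ)) * g d = (g d / d) * ∑ m ∈ Ioc 0 X, (1 / (m : ℝ)) := by
          rw [mul_sum]
          refine sum_congr rfl fun m hm => ?_
          rw [mem_Ioc] at hm
          have : (0 : ℝ) < m := by exact_mod_cast hm.1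
          push_cast
          field_simp
      _ ≤ (g d / d) * (1 + Real.log X) := by
          have h5 : 0 ≤ g d / d := div_nonneg (g_nonneg _) hdr.le
          gcongr
          have h6 := harmonic_le_one_add_log X
          have h7 : ((harmonic X : ℚ) : ℝ) = ∑ m ∈ Ioc 0 X, (1 / (m : ℝ)) := by
            rw [harmonic_eq_sum_Icc]
            push_cast
            refine sum_congr ?_ fun m _ => by rw [one_div]
            ext m
            simp [mem_Icc, mem_Ioc, Nat.succ_le_iff]
          rw [← h7]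
          exact h6
  refine (sum_le_sum h3).trans ?_
  rw [← sum_mul]
  have h5 : ∑ d ∈ Ioc 0 X, g d / d ≤ 2 * K := by
    calc ∑ d ∈ Ioc 0 X, g d / d ≤ ∑ d ∈ Ioc 0 X, 2 * (1 / (d : ℝ) ^ (3 / 2 : ℝ)) :=
          sum_le_sum fun d hd => g_div_le d (mem_Ioc.mp hd).1
      _ = 2 * ∑ d ∈ Ioc 0 X, 1 / (d : ℝ) ^ (3 / 2 : ℝ) := by rw [mul_sum]
      _ ≤ 2 * K := by
          gcongr
          exact hsum.sum_le_tsum _ fun _ _ => by positivity
  calc (∑ d ∈ Ioc 0 X, g d / d) * (1 + Real.log X) ≤ (2 * K) * (1 + Real.log X) := by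
        gcongr
    _ ≤ 6 * (K + 1) * Real.log X := by nlinarith

end Pool.Agent.BV
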