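import Mathlib
import Pool.Agent.Work.BV.Interface

/-!
# Block SEP: separation of variables
-/

set_option autoImplicit false

namespace Pool.Agent.BV

open Finset ArithmeticFunction
open scoped Classical

namespace Sep

lemma hasSum_cos (t : ℝ) (ht : |t| ≤ 1) :
    HasSum (fun n : ℕ => 1 / (n : ℝ) ^ 2 * Real.cos (2 * Real.pi * n * t))
      (Real.pi ^ 2 * (t ^ 2 - |t| + 1 / 6)) := by
  have h := hasSum_one_div_nat_pow_mul_cos (k := 1) one_ne_zero
    (x := |t|) ⟨abs_nonneg t, ht⟩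
  have e : (Polynomial.map (algebraMap ℚ ℝ) (Polynomial.bernoulli (2 * 1))).eval |t| =
      |t| ^ 2 - |t| + 6⁻¹ := bernoulliFun_two |t|
  rw [e] at h
  have e2 : ∀ n : ℕ, Real.cos (2 * Real.pi * n * |t|) = Real.cos (2 * Real.pi * n * t) := by
    intro n
    rcases abs_choice t with h | h <;> rw [h]
    rw [mul_neg, Real.cos_neg]
  simp only [e2] at h
  convert h using 1
  have e3 : (((2 * 1).factorial : ℕ) : ℝ) = 2 := by norm_num [Nat.factorial]
  rw [e3, sq_abs]
  ring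

/-- The unimodular functions `n ↦ n ^ (i τ)`. -/
noncomputable def gg (τ : ℝ) (n : ℕ) : ℂ := Complex.exp (((τ * Real.log n : ℝ) : ℂ) * Complex.I)

lemma gg_norm (τ : ℝ) (n : ℕ) : ‖gg τ n‖ = 1 := Complex.norm_exp_ofReal_mul_I _

lemma gg_mul (τ : ℝ) {m n : ℕ} (hm : 1 ≤ m) (hn : 1 ≤ n) :
    gg τ (m * n) = gg τ m * gg τ n := by
  unfold gg
  rw [← Complex.exp_add]
  congr 1
  have hm' : (m : ℝ) ≠ 0 := by positivity
  have hn' : (n : ℝ) ≠ 0 := by positivity
  rw [Nat.cast_mul, Real.log_mul hm' hn']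
  push_cast
  ring

/-- The weights. -/
noncomputable def ww (X : ℕ) (n : ℕ) : ℝ :=
  min (1 / (n : ℝ)) ((X + 1) * (2 * Real.log (X + 1)) / (n : ℝ) ^ 2)

lemma ww_nonneg (X n : ℕ) : 0 ≤ ww X n := by
  unfold ww
  refine le_min (by positivity) ?_
  have : 0 ≤ Real.log ((X : ℝ) + 1) := Real.log_nonneg (by linarith [(Nat.cast_nonneg X : (0:ℝ) ≤ X)])
  positivity

lemma ww_sum (X : ℕ) (hX : 2 ≤ X) (N : ℕ) :
    ∑ n ∈ range N, ww X n ≤ 10 * Real.log X := by
  set L : ℝ := Real.log (X + 1) with hL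
  have hX' : (2 : ℝ) ≤ X := by exact_mod_cast hX
  have hlogX : 0.69 ≤ Real.log X := by
    have h1 := Real.log_le_log (by norm_num) hX'
    have h2 := Real.log_two_gt_d9
    linarith
  have hL1 : L ≤ 2 * Real.log X := by
    have h1 : L ≤ Real.log ((X : ℝ) ^ 2) := Real.log_le_log (by positivity) (by nlinarith)
    rw [Real.log_pow] at h1
    simpa using h1
  have hL0 : 0 ≤ L := Real.log_nonneg (by linarith)
  have hLX : L ≤ X + 1 := by
    have := Real.log_le_sub_one_of_pos (show (0:ℝ) < X + 1 by positivity)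
    linarith
  set H : ℕ := (X + 1) ^ 2 with hH
  have hH0 : H ≠ 0 := by positivity
  have hHpos : (0 : ℝ) < H := by positivity
  have hHc : (H : ℝ) = ((X : ℝ) + 1) ^ 2 := by rw [hH]; push_cast; ring
  have h1 : ∑ n ∈ range (H + 1), ww X n ≤ 1 + 2 * L := by
    rw [Finset.sum_range_succ']
    have e0 : ww X 0 = 0 := by simp [ww]
    rw [e0, add_zero]
    have e1 : ∑ n ∈ range H, ww X (n + 1) ≤ ∑ n ∈ range H, ((n + 1 : ℕ) : ℝ)⁻¹ := by
      refine Finset.sum_le_sum fun n _ => ?_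
      unfold ww
      refine (min_le_left _ _).trans ?_
      rw [one_div]
    have e2 : ∑ n ∈ range H, ((n + 1 : ℕ) : ℝ)⁻¹ = ((harmonic H : ℚ) : ℝ) := by
      rw [harmonic]; push_cast; rfl
    have e3 := harmonic_le_one_add_log H
    have e4 : Real.log H = 2 * L := by
      rw [hHc, Real.log_pow]; simp [hL]
    rw [e4] at e3
    linarith
  have h2 : ∀ N, H + 1 ≤ N → ∑ n ∈ range N, ww X n ≤ 1 + 2 * L + 2 := by
    intro N hN
    rw [← Finset.sum_range_add_sum_Ico _ hN]
    have e1 : ∑ n ∈ Ico (H + 1) N, ww X n ≤ ((X + 1) * (2 * L)) * ∑ n ∈ Ioc H (N - 1), ((n : ℝ) ^ 2)⁻¹ := by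
      rw [Finset.mul_sum]
      have e : Ico (H + 1) N = Ioc H (N - 1) := by
        ext n; simp only [Finset.mem_Ico, Finset.mem_Ioc]; omega
      rw [e]
      refine Finset.sum_le_sum fun n _ => ?_
      unfold ww
      refine (min_le_right _ _).trans ?_
      rw [div_eq_mul_inv]
    have e2 : ∑ n ∈ Ioc H (N - 1), ((n : ℝ) ^ 2)⁻¹ ≤ (H : ℝ)⁻¹ := by
      have := sum_Ioc_inv_sq_le_sub (α := ℝ) hH0 (show H ≤ N - 1 by omega)
      have h3 : (0:ℝ) ≤ ((N - 1 : ℕ) : ℝ)⁻¹ := by positivity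
      linarith
    have e3 : ((X + 1) * (2 * L)) * (H : ℝ)⁻¹ ≤ 2 := by
      rw [hHc, ← div_eq_mul_inv, div_le_iff₀ (by positivity)]
      nlinarith
    have e4 : ((X + 1) * (2 * L)) * ∑ n ∈ Ioc H (N - 1), ((n : ℝ) ^ 2)⁻¹ ≤
        ((X + 1) * (2 * L)) * (H : ℝ)⁻¹ :=
      mul_le_mul_of_nonneg_left e2 (by positivity)
    linarith
  have h3 : ∑ n ∈ range N, ww X n ≤ 1 + 2 * L + 2 := by
    refine (Finset.sum_le_sum_of_subset_of_nonneg
      (Finset.range_mono (le_max_left N (H + 1))) fun n _ _ => ww_nonneg X n).trans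
      (h2 _ (le_max_right _ _))
  linarith

lemma ww_summable (X : ℕ) (hX : 2 ≤ X) : Summable (ww X) :=
  summable_of_sum_range_le (ww_nonneg X) (ww_sum X hX)

lemma ww_tsum (X : ℕ) (hX : 2 ≤ X) : ∑' n, ww X n ≤ 10 * Real.log X :=
  Real.tsum_le_of_sum_range_le (ww_nonneg X) (ww_sum X hX)

/-- The coefficients. -/
noncomputable def AA (X y n : ℕ) : ℂ :=
  let L : ℝ := 2 * Real.log (X + 1)
  let c1 : ℝ := Real.log y / L
  let c2 : ℝ := Real.log (y + 1) / L
  let e : ℝ → ℂ := fun t => Complex.exp (((2 * Real.pi * n * t : ℝ) : ℂ) * Complex.I)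
  (((4 * (c2 - c1) * Real.pi ^ 2 * (n : ℝ) ^ 2)⁻¹ : ℝ) : ℂ) *
    (e (-c1) - e (-c2) - e (c2 - c1) + 1)

lemma norm_exp_sub_one_le (t : ℝ) : ‖Complex.exp ((t : ℂ) * Complex.I) - 1‖ ≤ |t| := by
  have := Real.norm_exp_I_mul_ofReal_sub_one_le (x := t)
  rw [mul_comm] at this
  simpa using this

lemma AA_norm (X y n : ℕ) (hX : 2 ≤ X) (hy : 1 ≤ y) (hyX : y ≤ X) : ‖AA X y n‖ ≤ ww X n := by
  rcases Nat.eq_zero_or_pos n with rfl | hn
  · simp [AA, ww]
  set L : ℝ := 2 * Real.log (X + 1) with hL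
  set c1 : ℝ := Real.log y / L with hc1
  set c2 : ℝ := Real.log (y + 1) / L with hc2
  have hX' : (2 : ℝ) ≤ X := by exact_mod_cast hX
  have hy' : (1 : ℝ) ≤ y := by exact_mod_cast hy
  have hyX' : (y : ℝ) ≤ X := by exact_mod_cast hyX
  have hn' : (1 : ℝ) ≤ n := by exact_mod_cast hn
  have hLpos : 0 < L := by
    have : 0 < Real.log ((X : ℝ) + 1) := Real.log_pos (by linarith)
    positivity
  set δ : ℝ := c2 - c1 with hδ
  have hδ1 : 1 / ((X + 1) * L) ≤ δ := by
    have h1 : 1 / ((y : ℝ) + 1) ≤ Real.log (y + 1) - Real.log y := by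
      rw [← Real.log_div (by positivity) (by positivity)]
      have := Real.one_sub_inv_le_log_of_pos (show (0:ℝ) < (y + 1) / y by positivity)
      refine le_trans (le_of_eq ?_) this
      field_simp
      ring
    have h2 : δ = (Real.log (y + 1) - Real.log y) / L := by
      rw [hδ, hc1, hc2, sub_div]
    rw [h2, ← div_div]
    refine div_le_div_of_nonneg_right ?_ hLpos.le
    refine le_trans ?_ h1
    exact one_div_le_one_div_of_le (by positivity) (by linarith)
  have hδpos : 0 < δ := lt_of_lt_of_le (by positivity) hδ1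
  have hpi : 3 < Real.pi := Real.pi_gt_three
  -- the bracket
  set e : ℝ → ℂ := fun t => Complex.exp (((2 * Real.pi * n * t : ℝ) : ℂ) * Complex.I) with he
  have hen : ∀ t, ‖e t‖ = 1 := fun t => Complex.norm_exp_ofReal_mul_I _
  have hee : e (-c1) - e (-c2) = -(e (-c2)) * (1 - e δ) := by
    have : e (-c1) = e (-c2) * e δ := by
      simp only [he]
      rw [← Complex.exp_add]
      congr 1
      rw [hδ]
      push_cast
      ring
    rw [this]; ring
  have hb0 : ‖e δ - 1‖ ≤ 2 * Real.pi * n * δ := by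
    have := norm_exp_sub_one_le (2 * Real.pi * n * δ)
    rwa [abs_of_nonneg (by positivity)] at this
  have hb1 : ‖e δ - 1‖ ≤ 2 := by
    refine (norm_sub_le _ _).trans ?_
    rw [hen, norm_one]; norm_num
  have hbr : ‖e (-c1) - e (-c2) - e δ + 1‖ ≤ 2 * ‖e δ - 1‖ := by
    have : e (-c1) - e (-c2) - e δ + 1 = (e (-c2)) * (e δ - 1) - (e δ - 1) := by
      rw [hee]; ring
    rw [this]
    refine (norm_sub_le _ _).trans ?_
    rw [norm_mul, hen]; linarith
  have hA : ‖AA X y n‖ = (4 * δ * Real.pi ^ 2 * (n : ℝ) ^ 2)⁻¹ *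
      ‖e (-c1) - e (-c2) - e δ + 1‖ := by
    show ‖(((4 * δ * Real.pi ^ 2 * (n : ℝ) ^ 2)⁻¹ : ℝ) : ℂ) *
      (e (-c1) - e (-c2) - e δ + 1)‖ = _
    rw [norm_mul, Complex.norm_real, Real.norm_of_nonneg (by positivity)]
  rw [hA]
  have hpos : 0 < 4 * δ * Real.pi ^ 2 * (n : ℝ) ^ 2 := by positivity
  unfold ww
  refine le_min ?_ ?_
  · rw [inv_mul_le_iff₀ hpos]
    calc ‖e (-c1) - e (-c2) - e δ + 1‖ ≤ 2 * (2 * Real.pi * n * δ) := by linarith
      _ ≤ 4 * δ * Real.pi ^ 2 * (n : ℝ) ^ 2 * (1 / n) := by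
        have : 4 * δ * Real.pi ^ 2 * (n : ℝ) ^ 2 * (1 / n) = 4 * δ * n * Real.pi ^ 2 := by
          field_simp
        rw [this]
        have h1 : Real.pi ≤ Real.pi ^ 2 := by nlinarith
        have h2 : 0 < 4 * δ * n := by positivity
        nlinarith
  · rw [inv_mul_le_iff₀ hpos]
    have h3 : 1 ≤ δ * ((X + 1) * L) := by
      rwa [div_le_iff₀ (by positivity)] at hδ1
    calc ‖e (-c1) - e (-c2) - e δ + 1‖ ≤ 2 * 2 := by linarith
      _ ≤ 4 * δ * Real.pi ^ 2 * (n : ℝ) ^ 2 * ((X + 1) * L / (n : ℝ) ^ 2) := by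
        have : 4 * δ * Real.pi ^ 2 * (n : ℝ) ^ 2 * ((X + 1) * L / (n : ℝ) ^ 2) =
            4 * Real.pi ^ 2 * (δ * ((X + 1) * L)) := by
          field_simp
        rw [this]
        nlinarith

/-- The basic identity. -/
lemma sep_identity (X y k : ℕ) (hX : 2 ≤ X) (hy : 1 ≤ y) (hyX : y ≤ X) (hk : 1 ≤ k) (hkX : k ≤ X) :
    HasSum (fun n => AA X y n * gg (2 * Real.pi * n / (2 * Real.log (X + 1))) k +
      (starRingEnd ℂ) (AA X y n) * gg (-(2 * Real.pi * n / (2 * Real.log (X + 1)))) k)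
      ((if k ≤ y then 1 else 0) - ((Real.log (y + 1) / (2 * Real.log (X + 1)) : ℝ) : ℂ)) := by
  set L : ℝ := 2 * Real.log (X + 1) with hL
  set c1 : ℝ := Real.log y / L with hc1
  set c2 : ℝ := Real.log (y + 1) / L with hc2
  set u : ℝ := Real.log k / L with hu
  have hX' : (2 : ℝ) ≤ X := by exact_mod_cast hX
  have hy' : (1 : ℝ) ≤ y := by exact_mod_cast hy
  have hyX' : (y : ℝ) ≤ X := by exact_mod_cast hyX
  have hk' : (1 : ℝ) ≤ k := by exact_mod_cast hk
  have hkX' : (k : ℝ) ≤ X := by exact_mod_cast hkX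
  have hLpos : 0 < L := by
    have : 0 < Real.log ((X : ℝ) + 1) := Real.log_pos (by linarith)
    positivity
  have hbd : ∀ z : ℝ, 1 ≤ z → z ≤ X + 1 → 0 ≤ Real.log z / L ∧ Real.log z / L ≤ 1 / 2 := by
    intro z hz hz'
    refine ⟨div_nonneg (Real.log_nonneg hz) hLpos.le, ?_⟩
    rw [div_le_iff₀ hLpos]
    have := Real.log_le_log (by linarith) hz'
    rw [hL]; linarith
  obtain ⟨hc1a, hc1b⟩ := hbd y hy' (by linarith)
  obtain ⟨hc2a, hc2b⟩ := hbd (y + 1) (by linarith) (by linarith)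
  obtain ⟨hua, hub⟩ := hbd k hk' (by linarith)
  rw [← hc1] at hc1a hc1b
  rw [← hc2] at hc2a hc2b
  rw [← hu] at hua hub
  set δ : ℝ := c2 - c1 with hδ
  have hδpos : 0 < δ := by
    have h1 : Real.log y < Real.log (y + 1) := Real.log_lt_log (by positivity) (by linarith)
    have : c1 < c2 := div_lt_div_of_pos_right h1 hLpos
    rw [hδ]; linarith
  have hδ1 : δ ≤ 1 / 2 := by rw [hδ]; linarith
  have a1 : |u - c1| ≤ 1 := by rw [abs_le]; constructor <;> linarith
  have a2 : |u - c2| ≤ 1 := by rw [abs_le]; constructor <;> linarith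
  have a3 : |u + δ| ≤ 1 := by rw [abs_le]; constructor <;> linarith
  have a4 : |u| ≤ 1 := by rw [abs_le]; constructor <;> linarith
  have H := (((hasSum_cos _ a1).sub (hasSum_cos _ a2)).sub (hasSum_cos _ a3)).add (hasSum_cos _ a4)
  have H2 := (H.mul_left ((2 * δ * Real.pi ^ 2)⁻¹))
  have H3 := Complex.hasSum_ofReal.mpr H2
  convert H3 using 1
  · funext n
    set e : ℝ → ℂ := fun t => Complex.exp (((2 * Real.pi * n * t : ℝ) : ℂ) * Complex.I) with he
    have e1 : gg (2 * Real.pi * n / L) k = e u := by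
      simp only [gg, he]
      congr 3
      rw [hu]; ring
    have e2 : gg (-(2 * Real.pi * n / L)) k = (starRingEnd ℂ) (e u) := by
      simp only [he]
      rw [← Complex.exp_conj, map_mul, Complex.conj_I, Complex.conj_ofReal]
      simp only [gg]
      congr 1
      rw [hu]
      push_cast
      ring
    rw [e1, e2, ← map_mul, Complex.add_conj]
    congr 1
    have e3 : AA X y n * e u = (((4 * δ * Real.pi ^ 2 * (n : ℝ) ^ 2)⁻¹ : ℝ) : ℂ) *
        (e (u - c1) - e (u - c2) - e (u + δ) + e u) := by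
      show (((4 * δ * Real.pi ^ 2 * (n : ℝ) ^ 2)⁻¹ : ℝ) : ℂ) *
        (e (-c1) - e (-c2) - e δ + 1) * e u = _
      have hadd : ∀ s t, e s * e t = e (s + t) := by
        intro s t
        simp only [he]
        rw [← Complex.exp_add]
        congr 1
        push_cast; ring
      have : (e (-c1) - e (-c2) - e δ + 1) * e u =
          e (-c1 + u) - e (-c2 + u) - e (δ + u) + e u := by
        rw [← hadd, ← hadd, ← hadd]; ring
      rw [mul_assoc, this]
      have e5 : -c1 + u = u - c1 := by ring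
      have e6 : -c2 + u = u - c2 := by ring
      have e7 : δ + u = u + δ := by ring
      rw [e5, e6, e7]
    rw [e3, Complex.re_ofReal_mul]
    have hre : ∀ t, (e t).re = Real.cos (2 * Real.pi * n * t) := fun t =>
      Complex.exp_ofReal_mul_I_re _
    simp only [Complex.sub_re, Complex.add_re, hre]
    rcases Nat.eq_zero_or_pos n with rfl | hn
    · simp
    · have hn' : (n : ℝ) ≠ 0 := by positivity
      have hδ' : δ ≠ 0 := hδpos.ne'
      have hpi : Real.pi ≠ 0 := Real.pi_ne_zero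
      field_simp
      ring
  · have hval : (2 * δ * Real.pi ^ 2)⁻¹ *
      (Real.pi ^ 2 * ((u - c1) ^ 2 - |u - c1| + 1 / 6) -
          Real.pi ^ 2 * ((u - c2) ^ 2 - |u - c2| + 1 / 6) -
          Real.pi ^ 2 * ((u + δ) ^ 2 - |u + δ| + 1 / 6) +
        Real.pi ^ 2 * (u ^ 2 - |u| + 1 / 6)) = (if k ≤ y then 1 else 0) - c2 := by
      have hpi : Real.pi ≠ 0 := Real.pi_ne_zero
      have hδ' : δ ≠ 0 := hδpos.ne'
      rw [abs_of_nonneg hua, abs_of_nonneg (show 0 ≤ u + δ by linarith)]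
      by_cases hky : k ≤ y
      · have hky' : (k : ℝ) ≤ y := by exact_mod_cast hky
        have h1 : u ≤ c1 := div_le_div_of_nonneg_right (Real.log_le_log (by linarith) hky') hLpos.le
        rw [abs_of_nonpos (show u - c1 ≤ 0 by linarith),
          abs_of_nonpos (show u - c2 ≤ 0 by linarith), if_pos hky]
        rw [inv_mul_eq_div, div_eq_iff (by positivity)]
        have : c1 = c2 - δ := by rw [hδ]; ring
        rw [this]
        ring
      · have hky' : (y : ℝ) + 1 ≤ k := by exact_mod_cast Nat.lt_of_not_le hky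
        have h1 : c2 ≤ u := div_le_div_of_nonneg_right (Real.log_le_log (by linarith) hky') hLpos.le
        rw [abs_of_nonneg (show 0 ≤ u - c1 by linarith),
          abs_of_nonneg (show 0 ≤ u - c2 by linarith), if_neg hky]
        rw [inv_mul_eq_div, div_eq_iff (by positivity)]
        have : c1 = c2 - δ := by rw [hδ]; ring
        rw [this]
        ring
    rw [hval]
    split_ifs <;> push_cast <;> rfl

/-- The existence form, for every cut `y`. -/
lemma sep_exists (X : ℕ) (hX : 2 ≤ X) (y : ℕ) :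
    ∃ (c0 : ℂ) (A B : ℕ → ℂ), ‖c0‖ ≤ 1 / 2 ∧ (∀ n, ‖A n‖ ≤ ww X n) ∧ (∀ n, ‖B n‖ ≤ ww X n) ∧
      ∀ k : ℕ, 1 ≤ k → k ≤ X →
      HasSum (fun n : ℕ => A n * gg (2 * Real.pi * n / (2 * Real.log (X + 1))) k +
        B n * gg (-(2 * Real.pi * n / (2 * Real.log (X + 1)))) k)
      ((if k ≤ y then 1 else 0) - c0) := by
  rcases Nat.eq_zero_or_pos y with rfl | hy
  · refine ⟨0, fun _ => 0, fun _ => 0, by norm_num, fun n => by simpa using ww_nonneg X n,
      fun n => by simpa using ww_nonneg X n, fun k hk _ => ?_⟩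
    have : ¬ k ≤ 0 := by omega
    simp only [this, if_false, zero_mul, add_zero, sub_zero]
    exact hasSum_zero
  · set y' := min y X with hy'
    have h1 : 1 ≤ y' := le_min hy (by omega)
    have h2 : y' ≤ X := min_le_right _ _
    refine ⟨((Real.log (y' + 1) / (2 * Real.log (X + 1)) : ℝ) : ℂ), AA X y',
      fun n => (starRingEnd ℂ) (AA X y' n), ?_, fun n => AA_norm X y' n hX h1 h2, fun n => ?_,
      fun k hk hkX => ?_⟩
    · rw [Complex.norm_real]
      have hX' : (2 : ℝ) ≤ X := by exact_mod_cast hX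
      have h2' : (y' : ℝ) ≤ X := by exact_mod_cast h2
      have h3 : 0 < Real.log ((X : ℝ) + 1) := Real.log_pos (by linarith)
      have h4 : 0 ≤ Real.log ((y' : ℝ) + 1) :=
        Real.log_nonneg (by linarith [(Nat.cast_nonneg y' : (0:ℝ) ≤ y')])
      rw [Real.norm_of_nonneg (by positivity), div_le_iff₀ (by positivity)]
      have := Real.log_le_log (by positivity) (show (y' : ℝ) + 1 ≤ X + 1 by linarith)
      linarith
    · rw [RCLike.norm_conj]
      exact AA_norm X y' n hX h1 h2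
    · have h := sep_identity X y' k hX h1 h2 hk hkX
      have e : (k ≤ y') ↔ k ≤ y := by
        rw [hy']; omega
      simp only [e] at h
      exact h

end Sep

open Pool.Agent.BV.Sep in
theorem SEP : Stmt_SEP := by
  refine ⟨21, by norm_num, ?_⟩
  intro X hX ι P y S T hS hT hST α β K hK
  have hX' : (2 : ℝ) ≤ X := by exact_mod_cast hX
  have hlogX : 0.69 ≤ Real.log X := by
    have h1 := Real.log_le_log (by norm_num) hX'
    have h2 := Real.log_two_gt_d9
    linarith
  have hK0 : 0 ≤ K := by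
    have := hK (fun _ => 0) (fun _ => by simp)
    simpa using this
  have hK1 := hK (fun _ => 1) (fun _ => by simp)
  simp only [mul_one] at hK1
  set τ : ℕ → ℝ := fun n => 2 * Real.pi * n / (2 * Real.log (X + 1)) with hτ
  -- the two bilinear quantities
  set p : ι → ℕ → ℝ := fun x n =>
    ‖∑ m ∈ S, α x m * gg (τ n) m‖ * ‖∑ k ∈ T, β x k * gg (τ n) k‖ with hp
  set q : ι → ℕ → ℝ := fun x n =>
    ‖∑ m ∈ S, α x m * gg (-τ n) m‖ * ‖∑ k ∈ T, β x k * gg (-τ n) k‖ with hq
  have hp0 : ∀ x n, 0 ≤ p x n := fun x n => by positivity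
  have hq0 : ∀ x n, 0 ≤ q x n := fun x n => by positivity
  have hpK : ∀ n, ∑ x ∈ P, p x n ≤ K := fun n => hK _ (fun m => (gg_norm _ m).le)
  have hqK : ∀ n, ∑ x ∈ P, q x n ≤ K := fun n => hK _ (fun m => (gg_norm _ m).le)
  have hw := ww_summable X hX
  have hw0 := ww_nonneg X
  have hsum : ∀ x ∈ P, Summable fun n => ww X n * (p x n + q x n) := by
    intro x hx
    refine Summable.of_nonneg_of_le (fun n => mul_nonneg (hw0 n) (add_nonneg (hp0 x n) (hq0 x n)))
      (fun n => ?_) (hw.mul_right (K + K))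
    refine mul_le_mul_of_nonneg_left (add_le_add ?_ ?_) (hw0 n)
    · exact (Finset.single_le_sum (f := fun x => p x n) (fun x _ => hp0 x n) hx).trans (hpK n)
    · exact (Finset.single_le_sum (f := fun x => q x n) (fun x _ => hq0 x n) hx).trans (hqK n)
  have hmain : ∀ x ∈ P, ‖∑ m ∈ S, ∑ n ∈ T, (if m * n ≤ y x then α x m * β x n else 0)‖ ≤
      1 / 2 * (‖∑ m ∈ S, α x m‖ * ‖∑ n ∈ T, β x n‖) + ∑' n, ww X n * (p x n + q x n) := by
    intro x hx
    obtain ⟨c0, A, B, hc0, hA, hB, H⟩ := sep_exists X hX (y x)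
    -- the sum over the pairs
    have H1 : HasSum (fun n : ℕ => ∑ m ∈ S, ∑ k ∈ T, (α x m * β x k) *
        (A n * gg (τ n) (m * k) + B n * gg (-τ n) (m * k)))
        (∑ m ∈ S, ∑ k ∈ T, (α x m * β x k) * ((if m * k ≤ y x then 1 else 0) - c0)) := by
      refine hasSum_sum fun m hm => hasSum_sum fun k hk => HasSum.mul_left _ ?_
      exact H (m * k) (Nat.mul_pos (hS m hm) (hT k hk)) (hST m hm k hk)
    have e1 : ∑ m ∈ S, ∑ k ∈ T, (α x m * β x k) * ((if m * k ≤ y x then 1 else 0) - c0) =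
        ∑ m ∈ S, ∑ n ∈ T, (if m * n ≤ y x then α x m * β x n else 0) -
          c0 * ((∑ m ∈ S, α x m) * ∑ n ∈ T, β x n) := by
      rw [Finset.sum_mul_sum, Finset.mul_sum, ← Finset.sum_sub_distrib]
      refine Finset.sum_congr rfl fun m _ => ?_
      rw [Finset.mul_sum, ← Finset.sum_sub_distrib]
      refine Finset.sum_congr rfl fun k _ => ?_
      split_ifs <;> ring
    have e2 : ∀ n : ℕ, ∑ m ∈ S, ∑ k ∈ T, (α x m * β x k) *
        (A n * gg (τ n) (m * k) + B n * gg (-τ n) (m * k)) =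
        A n * ((∑ m ∈ S, α x m * gg (τ n) m) * ∑ k ∈ T, β x k * gg (τ n) k) +
        B n * ((∑ m ∈ S, α x m * gg (-τ n) m) * ∑ k ∈ T, β x k * gg (-τ n) k) := by
      intro n
      rw [Finset.sum_mul_sum, Finset.sum_mul_sum, Finset.mul_sum, Finset.mul_sum,
        ← Finset.sum_add_distrib]
      refine Finset.sum_congr rfl fun m hm => ?_
      rw [Finset.mul_sum, Finset.mul_sum, ← Finset.sum_add_distrib]
      refine Finset.sum_congr rfl fun k hk => ?_
      rw [gg_mul _ (hS m hm) (hT k hk), gg_mul _ (hS m hm) (hT k hk)]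
      ring
    rw [e1] at H1
    have H2 := H1.norm_le_of_bounded (hsum x hx).hasSum (fun n => by
      rw [e2 n]
      refine (norm_add_le _ _).trans ?_
      rw [norm_mul, norm_mul, norm_mul, norm_mul, mul_add]
      exact add_le_add (mul_le_mul_of_nonneg_right (hA n) (hp0 x n))
        (mul_le_mul_of_nonneg_right (hB n) (hq0 x n)))
    have H3 : ‖c0 * ((∑ m ∈ S, α x m) * ∑ n ∈ T, β x n)‖ ≤
        1 / 2 * (‖∑ m ∈ S, α x m‖ * ‖∑ n ∈ T, β x n‖) := by
      rw [norm_mul, norm_mul]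
      exact mul_le_mul_of_nonneg_right hc0 (by positivity)
    have H4 := norm_add_le (∑ m ∈ S, ∑ n ∈ T, (if m * n ≤ y x then α x m * β x n else 0) -
          c0 * ((∑ m ∈ S, α x m) * ∑ n ∈ T, β x n)) (c0 * ((∑ m ∈ S, α x m) * ∑ n ∈ T, β x n))
    rw [sub_add_cancel] at H4
    linarith
  refine (Finset.sum_le_sum hmain).trans ?_
  rw [Finset.sum_add_distrib, ← Finset.mul_sum, ← Summable.tsum_finsetSum hsum]
  have h5 : ∑' n, ∑ x ∈ P, ww X n * (p x n + q x n) ≤ ∑' n, ww X n * (K + K) := by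
    refine Summable.tsum_le_tsum (fun n => ?_) (summable_sum hsum) (hw.mul_right _)
    rw [← Finset.mul_sum, Finset.sum_add_distrib]
    exact mul_le_mul_of_nonneg_left (add_le_add (hpK n) (hqK n)) (hw0 n)
  rw [tsum_mul_right] at h5
  have h6 := ww_tsum X hX
  nlinarith

end Pool.Agent.BV
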