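import Pool.Agent.Work.BV.Interface
import Pool.Agent.Work.SW.AP

/-! SM: Siegel–Walfisz for small conductors. -/

set_option autoImplicit false

namespace Pool.Agent.BV

open Finset ArithmeticFunction
open scoped Classical

theorem ne_one_of_mem_PC {r : ℕ} (hr : 1 < r) {χ : DirichletCharacter ℂ r} (hχ : χ ∈ PC r) : χ ≠ 1 := by
  intro h
  have : NeZero r := ⟨by omega⟩
  rw [PC, mem_filter] at hχ
  have h1 : χ.conductor = r := hχ.2
  rw [χ.eq_one_iff_conductor_eq_one] at h
  omega

theorem stmt_SM : Stmt_SM := by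
  intro A B
  obtain ⟨C1, hC1, hSW⟩ := SW.siegel_walfisz A (2 * B)
  obtain ⟨K, hK0, hK⟩ : ∃ K : ℝ, 0 < K ∧ ∀ X : ℝ, 1 ≤ X →
      (Real.log X) ^ (A + 2) ≤ K * √X := by
    refine ⟨_, ?_, fun X hX => SW.log_pow_le_sqrt (A + 2) X hX⟩
    positivity
  refine ⟨C1 * 2 ^ A + 16 * K + 2 * K, by positivity, ?_⟩
  intro X hX r hr hrL χ hχ s hs1 hsX y hyX
  have hXr : (2 : ℝ) ≤ X := by exact_mod_cast hX
  have : NeZero r := ⟨by omega⟩
  set L : ℝ := Real.log X with hL
  have hL2 : 1 / 2 ≤ L := by
    have h1 := Real.log_two_gt_d9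
    have h2 : Real.log 2 ≤ Real.log X := Real.log_le_log (by norm_num) hXr
    linarith
  have hL0 : 0 < L := by linarith
  have hLA : 0 < L ^ A := by positivity
  have hXA : 0 ≤ X / L ^ A := by positivity
  have hlogle : ∀ m : ℕ, m ≤ X → Real.log m ≤ L := by
    intro m hm
    rcases Nat.eq_zero_or_pos m with rfl | hm0
    · simp only [Nat.cast_zero, Real.log_zero]
      exact hL0.le
    · exact Real.log_le_log (by exact_mod_cast hm0) (by exact_mod_cast hm)
  have hKX := hK X (by linarith)
  have hsq : √(X : ℝ) * √X = X := Real.mul_self_sqrt (by linarith)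
  have hsq1 : 1 ≤ √(X : ℝ) := Real.one_le_sqrt.mpr (by linarith)
  -- the coprimality condition
  have h1 : ‖∑ n ∈ Ioc 0 y, (if n.Coprime s then (Λ n : ℂ) * χ n else 0)‖
      ≤ ‖∑ n ∈ Ioc 0 y, (Λ n : ℂ) * χ n‖ + ∑ n ∈ (Ioc 0 y).filter (fun n => ¬ n.Coprime s), Λ n := by
    have h2 : ∑ n ∈ Ioc 0 y, (if n.Coprime s then (Λ n : ℂ) * χ n else 0)
        = ∑ n ∈ Ioc 0 y, (Λ n : ℂ) * χ n - ∑ n ∈ (Ioc 0 y).filter (fun n => ¬ n.Coprime s), (Λ n : ℂ) * χ n := by
      rw [sum_filter, ← sum_sub_distrib]
      refine sum_congr rfl fun n _ => ?_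
      by_cases h : n.Coprime s
      · rw [if_pos h, if_neg (not_not.mpr h), sub_zero]
      · rw [if_neg h, if_pos h, sub_self]
    rw [h2]
    refine (norm_sub_le _ _).trans (add_le_add_right ?_ _)
    refine norm_sum_le_of_le _ fun n _ => ?_
    rw [norm_mul, Complex.norm_real, Real.norm_eq_abs, abs_of_nonneg vonMangoldt_nonneg]
    exact mul_le_of_le_one_right vonMangoldt_nonneg (χ.norm_le_one _)
  have h3 : ∑ n ∈ (Ioc 0 y).filter (fun n => ¬ n.Coprime s), Λ n ≤ 2 * K * (X / L ^ A) := by
    have h4 : ∑ n ∈ (Ioc 0 y).filter (fun n => ¬ n.Coprime s), Λ n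
        ≤ Real.log s * Real.log y / Real.log 2 := by
      have := SW.nc_sum_le y s (by omega)
      convert this
    refine h4.trans ?_
    have h5 : 1 / 2 ≤ Real.log 2 := by
      have h1 := Real.log_two_gt_d9
      linarith
    calc Real.log s * Real.log y / Real.log 2 ≤ L * L / (1 / 2) := by
          have h6 : 0 ≤ Real.log (s : ℝ) := Real.log_natCast_nonneg s
          have h7 : 0 ≤ Real.log (y : ℝ) := Real.log_natCast_nonneg y
          have h8 := hlogle s hsX
          have h9 := hlogle y hyX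
          gcongr
      _ = 2 * (L ^ (A + 2) / L ^ A) := by
          have : L ^ (A + 2) = L ^ A * (L * L) := by ring
          rw [this, mul_div_cancel_left₀ _ hLA.ne']
          ring
      _ ≤ 2 * (K * X / L ^ A) := by
          gcongr
          refine hKX.trans ?_
          have h10 : √(X : ℝ) ≤ X := by nlinarith
          exact mul_le_mul_of_nonneg_left h10 hK0.le
      _ = _ := by ring
  have h4 : ‖∑ n ∈ Ioc 0 y, (Λ n : ℂ) * χ n‖ ≤ (C1 * 2 ^ A + 16 * K) * (X / L ^ A) := by
    rcases le_or_gt (y : ℝ) (8 * √(X : ℝ)) with hy | hy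
    · rcases Nat.eq_zero_or_pos y with rfl | hy0
      · simp only [Ioc_self, sum_empty, norm_zero]
        positivity
      · have hy1 : (1 : ℝ) ≤ y := by exact_mod_cast hy0
        have h5 := SW.norm_sum_trivial (fun n => (Λ n : ℂ) * χ n) (SW.norm_lam_chi_le χ) y hy1
        rw [Nat.floor_natCast] at h5
        refine h5.trans ?_
        have h6 : L ^ (A + 1) ≤ 2 * (K * √(X : ℝ)) := by
          have : L ^ (A + 2) = L ^ (A + 1) * L := by ring
          have h7 : 0 ≤ L ^ (A + 1) := by positivity
          nlinarith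
        calc (y : ℝ) * Real.log y ≤ (8 * √(X : ℝ)) * L := by
              have h7 : 0 ≤ Real.log (y : ℝ) := Real.log_natCast_nonneg y
              have h9 := hlogle y hyX
              gcongr
          _ = 8 * √(X : ℝ) * (L ^ (A + 1) / L ^ A) := by
              have : L ^ (A + 1) = L ^ A * L := by ring
              rw [this, mul_div_cancel_left₀ _ hLA.ne']
          _ ≤ 8 * √(X : ℝ) * (2 * (K * √(X : ℝ)) / L ^ A) := by gcongr
          _ = 16 * K * (√(X : ℝ) * √X / L ^ A) := by ring
          _ = 16 * K * (X / L ^ A) := by rw [hsq]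
          _ ≤ _ := by
              gcongr
              have : 0 ≤ C1 * 2 ^ A := by positivity
              linarith
    · have hy8 : (8 : ℝ) < y := by nlinarith
      have hly2 : 2 ≤ Real.log y := by
        have h5 : Real.log 8 ≤ Real.log y := Real.log_le_log (by norm_num) hy8.le
        have h6 : Real.log 8 = 3 * Real.log 2 := by
          rw [show (8 : ℝ) = 2 ^ 3 by norm_num, Real.log_pow]
          norm_num
        have h1 := Real.log_two_gt_d9
        linarith
      have hlyL : L / 2 ≤ Real.log y := by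
        have h5 : √(X : ℝ) ≤ y := by nlinarith
        have h6 := Real.log_le_log (by linarith : (0 : ℝ) < √(X : ℝ)) h5
        rwa [Real.log_sqrt (by linarith)] at h6
      have h5 : (r : ℝ) ≤ (Real.log y) ^ (2 * B) := by
        refine hrL.trans ?_
        rw [pow_mul]
        apply pow_le_pow_left₀ hL0.le
        nlinarith
      have h6 := hSW r χ (ne_one_of_mem_PC hr hχ) y (by linarith) h5
      rw [Nat.floor_natCast] at h6
      refine h6.trans ?_
      have h7 : (y : ℝ) ≤ X := by exact_mod_cast hyX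
      calc C1 * ((y : ℝ) / (Real.log y) ^ A) ≤ C1 * (X / (L / 2) ^ A) := by gcongr
        _ = C1 * 2 ^ A * (X / L ^ A) := by
            rw [div_pow]
            field_simp
        _ ≤ _ := by
            gcongr
            have : 0 ≤ 16 * K := by positivity
            linarith
  refine h1.trans ?_
  calc _ ≤ (C1 * 2 ^ A + 16 * K) * (X / L ^ A) + 2 * K * (X / L ^ A) := add_le_add h4 h3
    _ = _ := by ring

end Pool.Agent.BV
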