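import Pool.Agent.Work.BV.Interface

/-!
# Type II sums over the hyperbola region
-/

set_option autoImplicit false

namespace Pool.Agent.BV

open Finset
open scoped Classical

/-- the dyadic pieces of the coefficients -/
noncomputable def dyad (a : ℕ → ℂ) (X j m : ℕ) : ℂ :=
  if Nat.log 2 (m - 1) = j then (if 2 ≤ m ∧ m ≤ X then a m else 0) else 0

lemma sum_dyad (a : ℕ → ℂ) (ha : a 1 = 0) {X m : ℕ} (hm : m ∈ Ioc 0 X) :
    ∑ j ∈ range (Nat.log 2 X + 1), dyad a X j m = a m := by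
  rw [mem_Ioc] at hm
  unfold dyad
  rw [sum_ite_eq, if_pos]
  · by_cases h : 2 ≤ m
    · rw [if_pos ⟨h, hm.2⟩]
    · have : m = 1 := by omega
      rw [if_neg (fun hh => h hh.1), this, ha]
  · rw [mem_range, Nat.lt_succ_iff]
    exact Nat.log_mono_right (by omega)

lemma dyad_eq_zero {a : ℕ → ℂ} {X j m : ℕ} (h : ¬ (2 ^ j < m ∧ m ≤ 2 ^ (j + 1) ∧ m ≤ X)) :
    dyad a X j m = 0 := by
  unfold dyad
  by_cases h1 : Nat.log 2 (m - 1) = j
  · rw [if_pos h1]
    by_cases h2 : 2 ≤ m ∧ m ≤ X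
    · exfalso
      apply h
      have h3 : 2 ^ j ≤ m - 1 := by
        rw [← h1]
        exact Nat.pow_log_le_self 2 (by omega)
      have h4 : m - 1 < 2 ^ (j + 1) := by
        rw [← h1]
        exact Nat.lt_pow_succ_log_self (by norm_num) _
      exact ⟨by omega, by omega, h2.2⟩
    · rw [if_neg h2]
  · rw [if_neg h1]

lemma norm_dyad_le (a : ℕ → ℂ) (X j m : ℕ) : ‖dyad a X j m‖ ≤ ‖a m‖ := by
  unfold dyad
  split_ifs <;> simp

theorem T2 (hB : Stmt_BIL2) : Stmt_T2 := by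
  obtain ⟨C, hC, hB⟩ := hB
  refine ⟨C * 24, by positivity, ?_⟩
  intro R Q U V X hX hR hQ hU hV L hL a b ha hb ha2 hb2 y hy
  have hX2 : (2 : ℝ) ≤ X := by exact_mod_cast hX
  have hX0 : (0 : ℝ) < X := by linarith
  have hlog2 : 0 < Real.log 2 := Real.log_pos (by norm_num)
  have hlog : Real.log 2 ≤ Real.log X := Real.log_le_log (by norm_num) hX2
  have hl0 : 0 < Real.log X := by linarith
  set l := Real.log X with hl
  set J := Nat.log 2 X + 1 with hJ
  set E : ℝ := X / R + X / √(U : ℝ) + X / √(V : ℝ) + Q * √(X : ℝ) with hE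
  have hE0 : 0 ≤ E := by positivity
  -- the blocks
  set S : ℕ → (r : ℕ) → DirichletCharacter ℂ r → ℂ := fun j r χ =>
    ∑ m ∈ Ioc 0 (min (2 ^ (j + 1)) X), ∑ n ∈ Ioc 0 (X / 2 ^ j),
      (if m * n ≤ y r χ then dyad a X j m * b n * χ ((m * n : ℕ) : ZMod r) else 0) with hS
  have hdec : ∀ (r : ℕ) (χ : DirichletCharacter ℂ r),
      ∑ m ∈ Ioc 0 X, ∑ n ∈ Ioc 0 X,
        (if m * n ≤ y r χ then a m * b n * χ ((m * n : ℕ) : ZMod r) else 0)
      = ∑ j ∈ range J, S j r χ := by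
    intro r χ
    have h1 : ∀ m ∈ Ioc 0 X, ∀ n ∈ Ioc 0 X,
        (if m * n ≤ y r χ then a m * b n * χ ((m * n : ℕ) : ZMod r) else 0)
        = ∑ j ∈ range J, (if m * n ≤ y r χ then dyad a X j m * b n * χ ((m * n : ℕ) : ZMod r) else 0) := by
      intro m hm n _
      by_cases h : m * n ≤ y r χ
      · simp only [if_pos h]
        rw [← sum_mul, ← sum_mul, sum_dyad a (ha 1 hV) hm]
      · simp only [if_neg h, sum_const_zero]
    rw [sum_congr rfl fun m hm => sum_congr rfl fun n hn => h1 m hm n hn]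
    rw [sum_congr rfl fun m _ => sum_comm, sum_comm]
    refine sum_congr rfl fun j _ => ?_
    rw [hS]
    simp only
    symm
    have h2 : ∀ m ∈ Ioc 0 (min (2 ^ (j + 1)) X), ∑ n ∈ Ioc 0 (X / 2 ^ j),
        (if m * n ≤ y r χ then dyad a X j m * b n * χ ((m * n : ℕ) : ZMod r) else 0)
        = ∑ n ∈ Ioc 0 X,
        (if m * n ≤ y r χ then dyad a X j m * b n * χ ((m * n : ℕ) : ZMod r) else 0) := by
      intro m hm
      rw [mem_Ioc] at hm
      apply sum_subset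
      · intro n hn
        rw [mem_Ioc] at hn ⊢
        exact ⟨hn.1, hn.2.trans (Nat.div_le_self _ _)⟩
      · intro n hn hn2
        rw [mem_Ioc] at hn hn2
        by_cases h : m * n ≤ y r χ
        · rw [if_pos h]
          have hd : dyad a X j m = 0 := by
            apply dyad_eq_zero
            rintro ⟨h3, _, _⟩
            apply hn2
            refine ⟨hn.1, ?_⟩
            rw [Nat.le_div_iff_mul_le (by positivity)]
            calc n * 2 ^ j ≤ n * m := Nat.mul_le_mul_left _ h3.le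
              _ = m * n := Nat.mul_comm _ _
              _ ≤ X := h.trans (hy r χ)
          rw [hd]; simp
        · rw [if_neg h]
    rw [sum_congr rfl h2]
    apply sum_subset
    · intro m hm
      rw [mem_Ioc] at hm ⊢
      exact ⟨hm.1, hm.2.trans (min_le_right _ _)⟩
    · intro m hm hm2
      rw [mem_Ioc] at hm hm2
      have hd : dyad a X j m = 0 := by
        apply dyad_eq_zero
        rintro ⟨h3, h4, h5⟩
        exact hm2 ⟨hm.1, le_min h4 h5⟩
      simp only [hd]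
      simp
  -- block bound
  have hblock : ∀ j ∈ range J, ∑ r ∈ Ioc R Q, (1 / (r.totient : ℝ)) * ∑ χ ∈ PC r, ‖S j r χ‖
      ≤ 8 * C * L * l ^ 2 * E := by
    intro j _
    set M := min (2 ^ (j + 1)) X with hM
    set N := X / 2 ^ j with hN
    have hMN : M * N ≤ 2 * X := by
      calc M * N ≤ 2 ^ (j + 1) * (X / 2 ^ j) := Nat.mul_le_mul_right _ (min_le_left _ _)
        _ = 2 * (2 ^ j * (X / 2 ^ j)) := by ring
        _ ≤ 2 * X := Nat.mul_le_mul_left _ (Nat.mul_div_le _ _)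
    have h1 := hB R Q M N (2 * X) (by omega) hMN hR (by omega) (dyad a X j) b y
    refine h1.trans ?_
    have hMX : M ≤ X := min_le_right _ _
    have hNX : N ≤ X := Nat.div_le_self _ _
    have hlog2X : Real.log ((2 * X : ℕ) : ℝ) ≤ 2 * l := by
      push_cast
      rw [Real.log_mul (by norm_num) hX0.ne']
      linarith
    have hlog2X0 : 0 ≤ Real.log ((2 * X : ℕ) : ℝ) := Real.log_natCast_nonneg _
    have hA : ∑ m ∈ Ioc 0 M, ‖dyad a X j m‖ ^ 2 ≤ L * M := by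
      refine le_trans (sum_le_sum fun m _ => ?_) (ha2 M hMX)
      exact pow_le_pow_left₀ (norm_nonneg _) (norm_dyad_le a X j m) 2
    have hBb : ∑ n ∈ Ioc 0 N, ‖b n‖ ^ 2 ≤ L * N := hb2 N hNX
    have hRHS0 : 0 ≤ 8 * C * L * l ^ 2 * E := by positivity
    by_cases hMV : M ≤ V
    · have h0 : ∑ m ∈ Ioc 0 M, ‖dyad a X j m‖ ^ 2 = 0 := by
        apply sum_eq_zero
        intro m hm
        rw [mem_Ioc] at hm
        have := norm_dyad_le a X j m
        rw [ha m (hm.2.trans hMV), norm_zero] at this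
        have h5 : ‖dyad a X j m‖ = 0 := le_antisymm this (norm_nonneg _)
        rw [h5]; norm_num
      rw [h0, Real.sqrt_zero, zero_mul, mul_zero]
      exact hRHS0
    by_cases hNU : N ≤ U
    · have h0 : ∑ n ∈ Ioc 0 N, ‖b n‖ ^ 2 = 0 := by
        apply sum_eq_zero
        intro n hn
        rw [mem_Ioc] at hn
        rw [hb n (hn.2.trans hNU), norm_zero]; norm_num
      rw [h0, Real.sqrt_zero, mul_zero, mul_zero]
      exact hRHS0
    push Not at hMV hNU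
    have hM0 : (0 : ℝ) < M := by exact_mod_cast (by omega : 0 < M)
    have hN0 : (0 : ℝ) < N := by exact_mod_cast (by omega : 0 < N)
    have hMNr : (M : ℝ) * N ≤ 2 * X := by exact_mod_cast hMN
    have hsM : √(M : ℝ) * √(M : ℝ) = M := Real.mul_self_sqrt hM0.le
    have hsN : √(N : ℝ) * √(N : ℝ) = N := Real.mul_self_sqrt hN0.le
    have hsM0 : 0 < √(M : ℝ) := Real.sqrt_pos.mpr hM0
    have hsN0 : 0 < √(N : ℝ) := Real.sqrt_pos.mpr hN0
    have hprod : √(∑ m ∈ Ioc 0 M, ‖dyad a X j m‖ ^ 2) * √(∑ n ∈ Ioc 0 N, ‖b n‖ ^ 2)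
        ≤ L * (√(M : ℝ) * √(N : ℝ)) := by
      calc √(∑ m ∈ Ioc 0 M, ‖dyad a X j m‖ ^ 2) * √(∑ n ∈ Ioc 0 N, ‖b n‖ ^ 2)
          ≤ √(L * M) * √(L * N) := by
            gcongr
        _ = (√L * √L) * (√(M : ℝ) * √(N : ℝ)) := by
            rw [Real.sqrt_mul hL, Real.sqrt_mul hL]; ring
        _ = L * (√(M : ℝ) * √(N : ℝ)) := by rw [Real.mul_self_sqrt hL]
    have hmain : (√(M * N : ℝ) / R + √(M : ℝ) + √(N : ℝ) + Q) * (√(M : ℝ) * √(N : ℝ)) ≤ 2 * E := by
      have e1 : √(M * N : ℝ) / R * (√(M : ℝ) * √(N : ℝ)) ≤ 2 * (X / R) := by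
        have : √(M * N : ℝ) / R * (√(M : ℝ) * √(N : ℝ)) = (M * N : ℝ) / R := by
          rw [Real.sqrt_mul hM0.le]
          calc √(M : ℝ) * √(N : ℝ) / R * (√(M : ℝ) * √(N : ℝ))
              = (√(M : ℝ) * √(M : ℝ)) * (√(N : ℝ) * √(N : ℝ)) / R := by ring
            _ = (M * N : ℝ) / R := by rw [hsM, hsN]
        rw [this, ← mul_div_assoc]
        gcongr
      have e2 : √(M : ℝ) * (√(M : ℝ) * √(N : ℝ)) ≤ 2 * (X / √(U : ℝ)) := by
        have h5 : √(M : ℝ) * (√(M : ℝ) * √(N : ℝ)) = (M * N : ℝ) / √(N : ℝ) := by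
          rw [eq_div_iff hsN0.ne']
          calc √(M : ℝ) * (√(M : ℝ) * √(N : ℝ)) * √(N : ℝ)
              = (√(M : ℝ) * √(M : ℝ)) * (√(N : ℝ) * √(N : ℝ)) := by ring
            _ = (M * N : ℝ) := by rw [hsM, hsN]
        rw [h5, ← mul_div_assoc]
        have hU0 : (0 : ℝ) < √(U : ℝ) := Real.sqrt_pos.mpr (by exact_mod_cast (by omega : 0 < U))
        have hUN : √(U : ℝ) ≤ √(N : ℝ) := Real.sqrt_le_sqrt (by exact_mod_cast hNU.le)
        exact div_le_div₀ (by positivity) hMNr hU0 hUN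
      have e3 : √(N : ℝ) * (√(M : ℝ) * √(N : ℝ)) ≤ 2 * (X / √(V : ℝ)) := by
        have h5 : √(N : ℝ) * (√(M : ℝ) * √(N : ℝ)) = (M * N : ℝ) / √(M : ℝ) := by
          rw [eq_div_iff hsM0.ne']
          calc √(N : ℝ) * (√(M : ℝ) * √(N : ℝ)) * √(M : ℝ)
              = (√(M : ℝ) * √(M : ℝ)) * (√(N : ℝ) * √(N : ℝ)) := by ring
            _ = (M * N : ℝ) := by rw [hsM, hsN]
        rw [h5, ← mul_div_assoc]
        have hV0 : (0 : ℝ) < √(V : ℝ) := Real.sqrt_pos.mpr (by exact_mod_cast (by omega : 0 < V))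
        have hVM : √(V : ℝ) ≤ √(M : ℝ) := Real.sqrt_le_sqrt (by exact_mod_cast hMV.le)
        exact div_le_div₀ (by positivity) hMNr hV0 hVM
      have e4 : (Q : ℝ) * (√(M : ℝ) * √(N : ℝ)) ≤ 2 * (Q * √(X : ℝ)) := by
        have h5 : √(M : ℝ) * √(N : ℝ) ≤ 2 * √(X : ℝ) := by
          rw [← Real.sqrt_mul hM0.le]
          calc √((M : ℝ) * N) ≤ √(4 * X) := Real.sqrt_le_sqrt (by linarith)
            _ = 2 * √(X : ℝ) := by
                rw [Real.sqrt_mul (by norm_num)]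
                congr 1
                rw [show (4 : ℝ) = 2 ^ 2 by norm_num]
                exact Real.sqrt_sq (by norm_num)
        calc (Q : ℝ) * (√(M : ℝ) * √(N : ℝ)) ≤ Q * (2 * √(X : ℝ)) := by gcongr
          _ = 2 * (Q * √(X : ℝ)) := by ring
      rw [hE]
      calc (√(M * N : ℝ) / R + √(M : ℝ) + √(N : ℝ) + Q) * (√(M : ℝ) * √(N : ℝ))
          = √(M * N : ℝ) / R * (√(M : ℝ) * √(N : ℝ)) + √(M : ℝ) * (√(M : ℝ) * √(N : ℝ))
            + √(N : ℝ) * (√(M : ℝ) * √(N : ℝ)) + Q * (√(M : ℝ) * √(N : ℝ)) := by ring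
        _ ≤ 2 * (X / R) + 2 * (X / √(U : ℝ)) + 2 * (X / √(V : ℝ)) + 2 * (Q * √(X : ℝ)) := by
            linarith
        _ = _ := by ring
    have hfac0 : 0 ≤ (√(M * N : ℝ) / R + √(M : ℝ) + √(N : ℝ) + Q) := by positivity
    calc C * Real.log ((2 * X : ℕ) : ℝ) ^ 2 * (√(M * N : ℝ) / R + √(M : ℝ) + √(N : ℝ) + Q) *
          (√(∑ m ∈ Ioc 0 M, ‖dyad a X j m‖ ^ 2) * √(∑ n ∈ Ioc 0 N, ‖b n‖ ^ 2))
        ≤ C * (2 * l) ^ 2 * (√(M * N : ℝ) / R + √(M : ℝ) + √(N : ℝ) + Q) *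
          (L * (√(M : ℝ) * √(N : ℝ))) := by gcongr
      _ = (4 * C * l ^ 2 * L) * ((√(M * N : ℝ) / R + √(M : ℝ) + √(N : ℝ) + Q) * (√(M : ℝ) * √(N : ℝ))) := by
          ring
      _ ≤ (4 * C * l ^ 2 * L) * (2 * E) := by gcongr
      _ = 8 * C * L * l ^ 2 * E := by ring
  -- number of blocks
  have hJle : (J : ℝ) ≤ 3 * l := by
    have h1 : ((Nat.log 2 X : ℕ) : ℝ) * Real.log 2 ≤ l := by
      have h2 : (2 : ℝ) ^ (Nat.log 2 X) ≤ X := by
        exact_mod_cast Nat.pow_log_le_self 2 (by omega : X ≠ 0)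
      have h3 := Real.log_le_log (by positivity) h2
      rw [Real.log_pow] at h3
      exact h3
    have h2 : (0.6931471803 : ℝ) < Real.log 2 := Real.log_two_gt_d9
    rw [hJ]
    push_cast
    have h4 : ((Nat.log 2 X : ℕ) : ℝ) * 0.69 ≤ l := by
      refine le_trans ?_ h1
      gcongr
      linarith
    linarith
  calc ∑ r ∈ Ioc R Q, (1 / (r.totient : ℝ)) * ∑ χ ∈ PC r,
        ‖∑ m ∈ Ioc 0 X, ∑ n ∈ Ioc 0 X,
          (if m * n ≤ y r χ then a m * b n * χ ((m * n : ℕ) : ZMod r) else 0)‖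
      ≤ ∑ r ∈ Ioc R Q, (1 / (r.totient : ℝ)) * ∑ χ ∈ PC r, ∑ j ∈ range J, ‖S j r χ‖ := by
        refine sum_le_sum fun r _ => ?_
        gcongr with χ _
        rw [hdec r χ]
        exact norm_sum_le _ _
    _ = ∑ j ∈ range J, ∑ r ∈ Ioc R Q, (1 / (r.totient : ℝ)) * ∑ χ ∈ PC r, ‖S j r χ‖ := by
        rw [sum_comm]
        refine sum_congr rfl fun r _ => ?_
        rw [sum_comm, mul_sum]
    _ ≤ ∑ j ∈ range J, 8 * C * L * l ^ 2 * E := sum_le_sum hblock
    _ = J * (8 * C * L * l ^ 2 * E) := by rw [sum_const, card_range, nsmul_eq_mul]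
    _ ≤ (3 * l) * (8 * C * L * l ^ 2 * E) := by gcongr
    _ = C * 24 * L * l ^ 3 * E := by ring

end Pool.Agent.BV
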