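import Pool.Agent.Work.BV.LS
import Pool.Agent.Work.BV.SEP
import Pool.Agent.Work.BV.BIL
import Pool.Agent.Work.BV.BIL2
import Pool.Agent.Work.BV.T2
import Pool.Agent.Work.BV.MV
import Pool.Agent.Work.BV.RED
import Pool.Agent.Work.BV.PHI
import Pool.Agent.Work.BV.SM
import Pool.Agent.Work.BV.BVL
import Pool.Agent.Work.BV.BV
import Pool.Agent.Work.BV.BVP
import Pool.Agent.Work.BV.BVW
import Pool.Agent.Work.BV.BVB
import Pool.Agent.Work.BV.BVBP

/-!
# Bombieri–Vinogradov: the unconditional theorems
-/

set_option autoImplicit false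

namespace Pool.Agent.BV

theorem main_bil : Stmt_BIL := BIL SEP LS

theorem main_bil2 : Stmt_BIL2 := BIL2 main_bil

/-- bilinear large sieve over hyperbola regions -/
theorem main_t2 : Stmt_T2 := T2 main_bil2

/-- mean value theorem for `ψ(y, χ)` -/
theorem main_mv : Stmt_MV := MV main_t2

theorem main_bvl : Stmt_BVL := stmt_BVL stmt_RED stmt_PHI stmt_SM main_mv

/-- **The Bombieri–Vinogradov theorem** for `ψ(y; q, a)`, with arbitrary `y = y(q) ≤ X` and reduced
classes `a = a(q)`. -/
theorem main_bv : Stmt_BV := stmt_BV main_bvl stmt_PHI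

/-- **Bombieri–Vinogradov** for primes. -/
theorem main_bvp : Stmt_BVP := BVP main_bv stmt_PHI

/-- **Bombieri–Vinogradov** for primes with weights `τ(q)^k`. -/
theorem main_bvw : Stmt_BVW := BVW main_bvp

/-- **Bilinear Bombieri–Vinogradov** with a Siegel–Walfisz sequence. -/
theorem main_bvb : Stmt_BVB := BVB stmt_RED stmt_PHI main_t2

/-- **Bilinear Bombieri–Vinogradov** with primes in one variable. -/
theorem main_bvbp : Stmt_BVBP := BVBP main_bvb

end Pool.Agent.BV
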